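import Pool.Agent.Helper57.WAC.Defs

open Complex Polynomial Topology Metric Filter

noncomputable section

namespace H57WAC

variable (D : PD)

theorem dsc_tendsto {u : ℕ → C(Kpt, ℂ)} {x : C(Kpt, ℂ)} (h : Tendsto u atTop (𝓝 x)) (g : Fin 5) :
    TendstoUniformly (fun n => dsc (u n) g) (dsc x g) atTop := by
  rw [Metric.tendstoUniformly_iff]
  intro ε hε
  filter_upwards [(Metric.tendsto_nhds.1 h) ε hε] with n hn z
  rw [dist_comm, dist_eq_norm] 
  have : dsc (u n) g z - dsc x g z = dsc (u n - x) g z := by rw [dsc_sub]; rfl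
  rw [this]
  refine (norm_dsc_le _ _ _).trans_lt ?_
  rwa [dist_eq_norm] at hn

theorem isClosed_Bsub (ν : Fin 5 → ℕ) : IsClosed (Bsub D ν : Set C(Kpt, ℂ)) := by
  refine IsSeqClosed.isClosed ?_
  intro u x hu hlim
  have hu' : ∀ n, InB D ν (u n) := hu
  have hpt : ∀ p, Tendsto (fun n => u n p) atTop (𝓝 (x p)) := fun p =>
    ((continuous_eval_const p).tendsto x).comp hlim
  refine ⟨?_, ?_, ?_⟩
  · intro p q hpq
    refine tendsto_nhds_unique (hpt p) ?_
    refine (hpt q).congr fun n => ?_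
    exact ((hu' n).glue p q hpq).symm
  · intro g
    refine TendstoLocallyUniformlyOn.differentiableOn (F := fun n => dsc (u n) g) (φ := atTop)
      ?_ (Eventually.of_forall fun n => (hu' n).hol g) isOpen_ball
    exact ((dsc_tendsto hlim g).tendstoUniformlyOn (s := ball 0 1)).tendstoLocallyUniformlyOn
  · intro g
    refine Asymptotics.IsBigO.of_bound (2 * ‖x‖) ?_
    filter_upwards [ball_mem_nhds_zero] with z hz
    have h1 : Tendsto (fun n => ‖dsc (u n) g z - dsc (u n) g 0‖) atTop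
        (𝓝 ‖dsc x g z - dsc x g 0‖) :=
      (((dsc_tendsto hlim g).tendsto_at z).sub ((dsc_tendsto hlim g).tendsto_at 0)).norm
    have h2 : Tendsto (fun n => 2 * ‖u n‖ * ‖z‖ ^ (ν g + 1)) atTop
        (𝓝 (2 * ‖x‖ * ‖z‖ ^ (ν g + 1))) := (hlim.norm.const_mul 2).mul_const _
    rw [norm_pow]
    exact le_of_tendsto_of_tendsto' h1 h2 fun n => schwarz_dsc D (hu' n) g z hz

instance (ν : Fin 5 → ℕ) : CompleteSpace (Bsub D ν) := (isClosed_Bsub D ν).completeSpace_coe

end H57WAC
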