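import Pool.Agent.Helper57.WAC.Chars

open Complex Polynomial Topology Metric Filter

noncomputable section

namespace H57WAC

variable (D : PD)

theorem van_zero {f : ℂ → ℂ} (hf : DifferentiableOn ℂ f (ball 0 1)) :
    (fun z => f z - f 0) =O[𝓝 0] (fun z : ℂ => z ^ (0 + 1)) := by
  have := (hf.differentiableAt ball_mem_nhds_zero).isBigO_sub
  simpa using this

/-- disc component -/
def discC (x : C(Kpt, ℂ)) (g : Fin 5) : C(Dsc, ℂ) := ⟨fun z => x (Sum.inl (g, z)), by fun_prop⟩

/-- cell component -/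
def cellC (x : C(Kpt, ℂ)) (j : Fin 5) : C(II × II, ℂ) :=
  ⟨fun st => x (Sum.inr (j, st)), by fun_prop⟩

theorem discC_apply (x : C(Kpt, ℂ)) (g : Fin 5) (z : Dsc) : discC x g z = x (Sum.inl (g, z)) := rfl

theorem cellC_apply (x : C(Kpt, ℂ)) (j : Fin 5) (st : II × II) :
    cellC x j st = x (Sum.inr (j, st)) := rfl

theorem discC_mem (x : Bsub D 0) (g : Fin 5) : discC x g ∈ Adisc := x.2.hol g

/-- elements supported on one cell -/
def cellEl (j : Fin 5) (u : C(II × II, ℂ)) (hu : BdZero u) : Bsub D 0 :=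
  ⟨mkK 0 (Pi.single j u), cell_mem D _ (fun j' => by
    by_cases h : j' = j
    · subst h; rw [Pi.single_eq_same]; exact hu
    · rw [Pi.single_eq_of_ne h]; exact ⟨fun _ => rfl, fun _ => rfl, fun _ => rfl, fun _ => rfl⟩) 0⟩

theorem cellEl_inl (j : Fin 5) (u : C(II × II, ℂ)) (hu : BdZero u) (q : Fin 5 × Dsc) :
    (cellEl D j u hu : C(Kpt, ℂ)) (Sum.inl q) = 0 := rfl

theorem cellEl_inr (j : Fin 5) (u : C(II × II, ℂ)) (hu : BdZero u) (j' : Fin 5) (st : II × II) :
    (cellEl D j u hu : C(Kpt, ℂ)) (Sum.inr (j', st)) = if j' = j then u st else 0 := by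
  change (Pi.single j u : Fin 5 → C(II × II, ℂ)) j' st = _
  split_ifs with h
  · subst h; rw [Pi.single_eq_same]
  · rw [Pi.single_eq_of_ne h]; rfl

theorem bdZero_cellC (x : Bsub D 0) (hx : ∀ q, (x : C(Kpt, ℂ)) (Sum.inl q) = 0) (j : Fin 5) :
    BdZero (cellC x j) := by
  refine ⟨fun t => ?_, fun t => ?_, fun s => ?_, fun s => ?_⟩
  · rw [cellC_apply, x.2.glue _ _ (Rel.top j t), hx]
  · rw [cellC_apply, x.2.glue _ _ (Rel.bot j t), hx]
  · rw [cellC_apply, x.2.glue _ _ (Rel.left j s), hx]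
  · rw [cellC_apply, x.2.glue _ _ (Rel.right j s), hx]

theorem decomp_cells (x : Bsub D 0) (hx : ∀ q, (x : C(Kpt, ℂ)) (Sum.inl q) = 0) :
    x = ∑ j, cellEl D j (cellC x j) (bdZero_cellC D x hx j) := by
  apply Subtype.ext
  apply ContinuousMap.ext
  intro q
  rw [AddSubmonoidClass.coe_finsetSum, ContinuousMap.sum_apply]
  rcases q with q | ⟨j', st⟩
  · rw [hx]
    simp only [cellEl_inl, Finset.sum_const_zero]
  · simp only [cellEl_inr, Finset.sum_ite_eq, Finset.mem_univ, if_true, cellC_apply]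

theorem eval_of_cell (ψ : Bsub D 0 →ₐ[ℂ] ℂ) (j : Fin 5) (u : C(II × II, ℂ)) (hu : BdZero u)
    (hne : ψ (cellEl D j u hu) ≠ 0) : ∃ q : Kpt, ∀ x : Bsub D 0, ψ x = (x : C(Kpt, ℂ)) q := by
  have hbd : ∀ F : C(II × II, ℂ), BdZero (F * u) := fun F =>
    ⟨fun t => by rw [ContinuousMap.mul_apply, hu.1, mul_zero],
      fun t => by rw [ContinuousMap.mul_apply, hu.2.1, mul_zero],
      fun t => by rw [ContinuousMap.mul_apply, hu.2.2.1, mul_zero],
      fun t => by rw [ContinuousMap.mul_apply, hu.2.2.2, mul_zero]⟩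
  set T : C(II × II, ℂ) →ₗ[ℂ] Bsub D 0 :=
    { toFun := fun F => cellEl D j (F * u) (hbd F)
      map_add' := fun F G => by
        apply Subtype.ext
        apply ContinuousMap.ext
        intro q
        rw [Subalgebra.coe_add, ContinuousMap.add_apply]
        rcases q with q | ⟨j', st⟩
        · simp only [cellEl_inl, add_zero]
        · simp only [cellEl_inr]
          split_ifs
          · simp only [ContinuousMap.mul_apply, ContinuousMap.add_apply]; ring
          · simp
      map_smul' := fun c F => by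
        apply Subtype.ext
        apply ContinuousMap.ext
        intro q
        rw [RingHom.id_apply, Subalgebra.coe_smul, ContinuousMap.smul_apply]
        rcases q with q | ⟨j', st⟩
        · simp only [cellEl_inl, smul_zero]
        · simp only [cellEl_inr]
          split_ifs
          · simp only [ContinuousMap.mul_apply, ContinuousMap.smul_apply, smul_eq_mul]; ring
          · simp } with hT
  have hTa : ∀ F, T F = cellEl D j (F * u) (hbd F) := fun F => rfl
  have h1 : ∀ F G, ψ (T F) * ψ (T G) = ψ (T (F * G)) * ψ (T 1) := by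
    intro F G
    rw [← map_mul ψ, ← map_mul ψ]
    congr 1
    apply Subtype.ext
    apply ContinuousMap.ext
    intro q
    rw [Subalgebra.coe_mul, Subalgebra.coe_mul, ContinuousMap.mul_apply, ContinuousMap.mul_apply,
      hTa, hTa, hTa, hTa]
    rcases q with q | ⟨j', st⟩
    · simp only [cellEl_inl]
    · simp only [cellEl_inr]
      split_ifs
      · simp only [ContinuousMap.mul_apply, ContinuousMap.one_apply]; ring
      · ring
  have hT1 : T 1 = cellEl D j u hu := by
    rw [hTa]; congr 1; exact one_mul u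
  have h2 : ψ (T 1) ≠ 0 := by rw [hT1]; exact hne
  obtain ⟨st, hst⟩ := exists_eval_of_algHom (X := II × II)
    (localHom (R := Bsub D 0) (S := C(II × II, ℂ)) ψ T h1 h2)
  refine ⟨Sum.inr (j, st), fun x => ?_⟩
  have h3 := hst (cellC x j)
  rw [localHom_apply] at h3
  have h4 : T (cellC x j) = x * T 1 := by
    apply Subtype.ext
    apply ContinuousMap.ext
    intro q
    rw [Subalgebra.coe_mul, ContinuousMap.mul_apply, hTa, hTa]
    rcases q with q | ⟨j', st⟩
    · simp only [cellEl_inl, mul_zero]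
    · simp only [cellEl_inr]
      split_ifs with h
      · subst h
        simp only [ContinuousMap.mul_apply, ContinuousMap.one_apply, cellC_apply, one_mul]
      · ring
  rw [h4, map_mul, mul_comm (ψ x), inv_mul_cancel_left₀ h2, cellC_apply] at h3
  exact h3

theorem single_apply_zero {g : Fin 5} {h : C(Dsc, ℂ)} {z : Dsc} (hz : h z = 0) (g' : Fin 5) :
    (Pi.single g h : Fin 5 → C(Dsc, ℂ)) g' z = 0 := by
  by_cases e : g' = g
  · subst e; rw [Pi.single_eq_same]; exact hz
  · rw [Pi.single_eq_of_ne e]; rfl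

theorem compat_single (g : Fin 5) (h : C(Dsc, ℂ)) (h0 : h (D.ζ 0) = 0) (h1 : h (D.ζ 1) = 0) :
    Compat D (Pi.single g h) :=
  ⟨fun g' => by rw [single_apply_zero h0, single_apply_zero h0],
    fun g' => by rw [single_apply_zero h1, single_apply_zero h0]⟩

/-- elements supported on one disc and on the cells -/
def discEl (g : Fin 5) (h : Adisc) (h0 : (h : C(Dsc, ℂ)) (D.ζ 0) = 0)
    (h1 : (h : C(Dsc, ℂ)) (D.ζ 1) = 0) : Bsub D 0 :=
  ⟨Eext (compat_single D g h h0 h1), by
    have hol : ∀ g', DifferentiableOn ℂ (dext ((Pi.single g (h : C(Dsc, ℂ)) :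
        Fin 5 → C(Dsc, ℂ)) g')) (ball 0 1) := by
      intro g'
      by_cases e : g' = g
      · subst e; rw [Pi.single_eq_same]; exact h.2
      · rw [Pi.single_eq_of_ne e]
        exact (differentiableOn_const (0 : ℂ)).congr fun z _ => dext_zero z
    exact Eext_mem _ 0 hol fun g' => van_zero (hol g')⟩

theorem discEl_inl (g : Fin 5) (h : Adisc) (h0 : (h : C(Dsc, ℂ)) (D.ζ 0) = 0)
    (h1 : (h : C(Dsc, ℂ)) (D.ζ 1) = 0) (g' : Fin 5) (z : Dsc) :
    (discEl D g h h0 h1 : C(Kpt, ℂ)) (Sum.inl (g', z))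
      = if g' = g then (h : C(Dsc, ℂ)) z else 0 := by
  change (Pi.single g (h : C(Dsc, ℂ)) : Fin 5 → C(Dsc, ℂ)) g' z = _
  split_ifs with e
  · subst e; rw [Pi.single_eq_same]
  · rw [Pi.single_eq_of_ne e]; rfl

theorem discEl_inr (g : Fin 5) (h : Adisc) (h0 : (h : C(Dsc, ℂ)) (D.ζ 0) = 0)
    (h1 : (h : C(Dsc, ℂ)) (D.ζ 1) = 0) (j : Fin 5) (st : II × II) :
    (discEl D g h h0 h1 : C(Kpt, ℂ)) (Sum.inr (j, st))
      = (1 - ((st.1 : ℝ) : ℂ)) *
        (if (wordPt D (topw j) st.2).1 = g then (h : C(Dsc, ℂ)) (wordPt D (topw j) st.2).2 else 0)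
      + ((st.1 : ℝ) : ℂ) *
        (if (wordPt D (botw j) st.2).1 = g then (h : C(Dsc, ℂ)) (wordPt D (botw j) st.2).2 else 0)
    := by
  have e : ∀ q : Fin 5 × Dsc, hval (Pi.single g (h : C(Dsc, ℂ))) q
      = if q.1 = g then (h : C(Dsc, ℂ)) q.2 else 0 := by
    rintro ⟨g', z⟩
    exact discEl_inl D g h h0 h1 g' z
  change cellE (compat_single D g h h0 h1) j st = _
  rw [cellE_apply, e, e]

end H57WAC
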