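import Mathlib

open Polynomial

namespace H57WAC

/-- weak algebraic closedness: every separable (the discriminant is invertible) monic polynomial
of degree larger than one is a product of two monic polynomials of positive degree -/
def WAC (R : Type*) [CommRing R] : Prop :=
  ∀ p : R[X], p.Monic → 1 < p.natDegree → IsUnit p.discr →
    ∃ q r : R[X], q.Monic ∧ r.Monic ∧ 0 < q.natDegree ∧ 0 < r.natDegree ∧ p = q * r

theorem natDegree_deriv {R : Type*} [CommRing R] [Algebra ℂ R] [Nontrivial R] {p : R[X]}
    (hp : p.Monic) (h0 : 0 < p.natDegree) : (derivative p).natDegree = p.natDegree - 1 := by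
  apply natDegree_eq_of_le_of_coeff_ne_zero
  · exact natDegree_derivative_le p
  · rw [coeff_derivative]
    have e : p.natDegree - 1 + 1 = p.natDegree := by omega
    rw [e, hp.coeff_natDegree, one_mul]
    have h : ((p.natDegree - 1 : ℕ) : R) + 1 = algebraMap ℂ R (p.natDegree : ℂ) := by
      rw [map_natCast]
      have : ((p.natDegree - 1 : ℕ) : R) + 1 = ((p.natDegree - 1 + 1 : ℕ) : R) := by push_cast; ring
      rw [this, e]
    rw [h]
    have h2 : IsUnit (algebraMap ℂ R (p.natDegree : ℂ)) := by
      apply IsUnit.map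
      rw [isUnit_iff_ne_zero]
      exact_mod_cast h0.ne'
    exact h2.ne_zero

theorem resultant_discr {R : Type*} [CommRing R] [Nontrivial R] {p : R[X]} (hp : p.Monic)
    (h0 : 0 < p.natDegree) : resultant p (derivative p) p.natDegree (p.natDegree - 1)
      = (-1) ^ (p.natDegree * (p.natDegree - 1) / 2) * p.discr := by
  rw [resultant_deriv (natDegree_pos_iff_degree_pos.1 h0), hp.leadingCoeff, mul_one]

theorem isUnit_discr_iff {R : Type*} [CommRing R] [Algebra ℂ R] [Nontrivial R] {p : R[X]}
    (hp : p.Monic) (h0 : 0 < p.natDegree) : IsUnit p.discr ↔ p.Separable := by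
  have h1 := isUnit_resultant_iff_isCoprime (g := derivative p) hp
  rw [natDegree_deriv hp h0, resultant_discr hp h0] at h1
  rw [Polynomial.Separable, ← h1]
  have hu : IsUnit ((-1 : R) ^ (p.natDegree * (p.natDegree - 1) / 2)) := by
    apply IsUnit.pow; exact isUnit_one.neg
  rw [IsUnit.mul_iff]
  exact ⟨fun h => ⟨hu, h⟩, fun h => h.2⟩

theorem map_discr {R S : Type*} [CommRing R] [CommRing S] [Nontrivial R] [Nontrivial S]
    (φ : R →+* S) {p : R[X]} (hp : p.Monic) (h0 : 0 < p.natDegree) :
    (p.map φ).discr = φ p.discr := by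
  have h1 := resultant_discr hp h0
  have hpm : (p.map φ).Monic := hp.map φ
  have hnd : (p.map φ).natDegree = p.natDegree := hp.natDegree_map φ
  have h2 := resultant_discr hpm (by rw [hnd]; exact h0)
  rw [hnd, derivative_map, resultant_map_map, h1, map_mul, map_pow, map_neg, map_one] at h2
  have hu : IsUnit ((-1 : S) ^ (p.natDegree * (p.natDegree - 1) / 2)) := by
    apply IsUnit.pow; exact isUnit_one.neg
  exact (hu.mul_right_injective h2).symm

theorem discr_ne_zero {R : Type*} [CommRing R] [Nontrivial R] (φ : R →+* ℂ) {p : R[X]}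
    (hp : p.Monic) (h0 : 0 < p.natDegree) (hs : (p.map φ).Separable) : φ p.discr ≠ 0 := by
  have hpm : (p.map φ).Monic := hp.map φ
  have hnd : (p.map φ).natDegree = p.natDegree := hp.natDegree_map φ
  have h := (isUnit_discr_iff hpm (by rw [hnd]; exact h0)).2 hs
  rw [map_discr φ hp h0] at h
  exact h.ne_zero

theorem WAC.of_ringEquiv {R S : Type*} [CommRing R] [Algebra ℂ R] [CommRing S] [Algebra ℂ S]
    (e : R ≃ₐ[ℂ] S) (h : WAC R) : WAC S := by
  intro p hp h1 hu
  have hS : Nontrivial S := by
    by_contra hcon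
    rw [not_nontrivial_iff_subsingleton] at hcon
    have : p.natDegree = 0 := by rw [Subsingleton.elim p 0, natDegree_zero]
    omega
  have hR : Nontrivial R := e.toRingEquiv.nontrivial
  have hsep := (isUnit_discr_iff hp (by omega)).1 hu
  set φ : S →+* R := (e.symm : S ≃ₐ[ℂ] R).toRingEquiv.toRingHom with hφ
  set ψ : R →+* S := e.toRingEquiv.toRingHom with hψ
  have hpm : (p.map φ).Monic := hp.map φ
  have hnd : (p.map φ).natDegree = p.natDegree := hp.natDegree_map φ
  obtain ⟨q, r, hq, hr, hq0, hr0, he⟩ := h (p.map φ) hpm (by rw [hnd]; exact h1)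
    ((isUnit_discr_iff hpm (by rw [hnd]; omega)).2 hsep.map)
  refine ⟨q.map ψ, r.map ψ, hq.map ψ, hr.map ψ, by rw [hq.natDegree_map]; exact hq0,
    by rw [hr.natDegree_map]; exact hr0, ?_⟩
  rw [← Polynomial.map_mul, ← he, Polynomial.map_map]
  have : ψ.comp φ = RingHom.id S := by
    ext x; exact e.apply_symm_apply x
  rw [this, Polynomial.map_id]

end H57WAC
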