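import Pool.Agent.Helper57.WAC.BClosed

open Complex Polynomial Topology Metric Filter

noncomputable section

namespace H57WAC

variable (D : PD)

/-- value of a tuple at a point of the discs -/
def hval (h : Fin 5 → C(Dsc, ℂ)) (q : Fin 5 × Dsc) : ℂ := h q.1 q.2

/-- compatibility of a tuple with the gluing of the marked points -/
structure Compat (h : Fin 5 → C(Dsc, ℂ)) : Prop where
  z0 : ∀ g, h g (D.ζ 0) = h 0 (D.ζ 0)
  z1 : ∀ g, h g (D.ζ 1) = h 0 (D.ζ 0)

variable {D}

/-- the path of a letter -/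
def lpath {h : Fin 5 → C(Dsc, ℂ)} (hc : Compat D h) : Option (Fin 5) →
    Path (h 0 (D.ζ 0)) (h 0 (D.ζ 0))
  | none => Path.refl _
  | some g => ⟨(h g).comp D.ζ, hc.z0 g, hc.z1 g⟩

theorem lpath_apply {h : Fin 5 → C(Dsc, ℂ)} (hc : Compat D h) (l : Option (Fin 5)) (s : II) :
    lpath hc l s = hval h (letterPt D l s) := by
  cases l <;> rfl

theorem hval_wordPt {h : Fin 5 → C(Dsc, ℂ)} (hc : Compat D h) (w : Fin 3 → Option (Fin 5))
    (t : II) : hval h (wordPt D w t)
      = (((lpath hc (w 0)).trans (lpath hc (w 1))).trans (lpath hc (w 2))) t := by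
  rw [tr3_path, wordPt, tr3_comp (hval h)]
  congr 1
  funext k s
  fin_cases k <;> exact (lpath_apply hc _ _).symm

theorem continuous_word {h : Fin 5 → C(Dsc, ℂ)} (hc : Compat D h) (w : Fin 3 → Option (Fin 5)) :
    Continuous fun t => hval h (wordPt D w t) := by
  simp_rw [hval_wordPt hc w]
  fun_prop

theorem word_zero {h : Fin 5 → C(Dsc, ℂ)} (hc : Compat D h) (w : Fin 3 → Option (Fin 5)) :
    hval h (wordPt D w 0) = h 0 (D.ζ 0) := by
  rw [hval_wordPt hc w]; simp

theorem word_one {h : Fin 5 → C(Dsc, ℂ)} (hc : Compat D h) (w : Fin 3 → Option (Fin 5)) :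
    hval h (wordPt D w 1) = h 0 (D.ζ 0) := by
  rw [hval_wordPt hc w]; simp

/-- a function on `Kpt` from its components -/
def mkK (h : Fin 5 → C(Dsc, ℂ)) (F : Fin 5 → C(II × II, ℂ)) : C(Kpt, ℂ) where
  toFun := Sum.elim (fun p => h p.1 p.2) (fun p => F p.1 p.2)
  continuous_toFun := by
    refine Continuous.sumElim ?_ ?_
    · rw [continuous_prod_of_discrete_left]
      intro g; exact (h g).continuous
    · rw [continuous_prod_of_discrete_left]
      intro g; exact (F g).continuous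

@[simp] theorem mkK_inl (h : Fin 5 → C(Dsc, ℂ)) (F : Fin 5 → C(II × II, ℂ)) (q : Fin 5 × Dsc) :
    mkK h F (Sum.inl q) = h q.1 q.2 := rfl

@[simp] theorem mkK_inr (h : Fin 5 → C(Dsc, ℂ)) (F : Fin 5 → C(II × II, ℂ))
    (q : Fin 5 × (II × II)) : mkK h F (Sum.inr q) = F q.1 q.2 := rfl

theorem dsc_mkK (h : Fin 5 → C(Dsc, ℂ)) (F : Fin 5 → C(II × II, ℂ)) (g : Fin 5) :
    dsc (mkK h F) g = dext (h g) := rfl

/-- the cell component of the linear extension -/
def cellE {h : Fin 5 → C(Dsc, ℂ)} (hc : Compat D h) (j : Fin 5) : C(II × II, ℂ) where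
  toFun st := (1 - ((st.1 : ℝ) : ℂ)) * hval h (wordPt D (topw j) st.2)
    + ((st.1 : ℝ) : ℂ) * hval h (wordPt D (botw j) st.2)
  continuous_toFun := by
    have h1 := (continuous_word hc (topw j)).comp (continuous_snd (X := II) (Y := II))
    have h2 := (continuous_word hc (botw j)).comp (continuous_snd (X := II) (Y := II))
    have h3 : Continuous fun st : II × II => ((st.1 : ℝ) : ℂ) := by fun_prop
    exact ((continuous_const.sub h3).mul h1).add (h3.mul h2)

/-- the linear extension of a tuple to the cells -/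
def Eext {h : Fin 5 → C(Dsc, ℂ)} (hc : Compat D h) : C(Kpt, ℂ) := mkK h (cellE hc)

theorem cellE_apply {h : Fin 5 → C(Dsc, ℂ)} (hc : Compat D h) (j : Fin 5) (st : II × II) :
    cellE hc j st = (1 - ((st.1 : ℝ) : ℂ)) * hval h (wordPt D (topw j) st.2)
    + ((st.1 : ℝ) : ℂ) * hval h (wordPt D (botw j) st.2) := rfl

theorem glue_Eext {h : Fin 5 → C(Dsc, ℂ)} (hc : Compat D h) (p q : Kpt) (hpq : Rel D p q) :
    Eext hc p = Eext hc q := by
  cases hpq with
  | z0 g => exact hc.z0 g
  | z1 g => exact hc.z1 g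
  | top j t =>
      simp only [Eext, mkK_inr, mkK_inl, cellE_apply]
      simp [hval]
  | bot j t =>
      simp only [Eext, mkK_inr, mkK_inl, cellE_apply]
      simp [hval]
  | left j s =>
      simp only [Eext, mkK_inr, mkK_inl, cellE_apply]
      rw [word_zero hc, word_zero hc]; ring
  | right j s =>
      simp only [Eext, mkK_inr, mkK_inl, cellE_apply]
      rw [word_one hc, word_one hc]; ring

theorem Eext_mem {h : Fin 5 → C(Dsc, ℂ)} (hc : Compat D h) (ν : Fin 5 → ℕ)
    (hol : ∀ g, DifferentiableOn ℂ (dext (h g)) (ball 0 1))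
    (van : ∀ g, (fun z => dext (h g) z - dext (h g) 0) =O[𝓝 0] (fun z : ℂ => z ^ (ν g + 1))) :
    Eext hc ∈ Bsub D ν :=
  ⟨glue_Eext hc, fun g => hol g, fun g => van g⟩

/-- vanishing on the boundary of the square -/
def BdZero (u : C(II × II, ℂ)) : Prop :=
  (∀ t, u (0, t) = 0) ∧ (∀ t, u (1, t) = 0) ∧ (∀ s, u (s, 0) = 0) ∧ (∀ s, u (s, 1) = 0)

theorem cell_mem (D : PD) (F : Fin 5 → C(II × II, ℂ)) (hF : ∀ j, BdZero (F j)) (ν : Fin 5 → ℕ) :
    mkK 0 F ∈ Bsub D ν := by
  refine ⟨?_, ?_, ?_⟩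
  · intro p q hpq
    cases hpq with
    | z0 g => rfl
    | z1 g => rfl
    | top j t => exact (hF j).1 t
    | bot j t => exact (hF j).2.1 t
    | left j s => exact (hF j).2.2.1 s
    | right j s => exact (hF j).2.2.2 s
  · intro g
    refine (differentiableOn_const (0 : ℂ)).congr fun z _ => ?_
    simp only [dsc, dext]
    split_ifs <;> rfl
  · intro g
    have : (fun z => dsc (mkK 0 F) g z - dsc (mkK 0 F) g 0) = fun _ => (0 : ℂ) := by
      funext z
      have e : ∀ z, dsc (mkK 0 F) g z = 0 := fun z => by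
        simp only [dsc, dext]
        split_ifs <;> rfl
      rw [e, e, sub_zero]
    rw [this]
    exact Asymptotics.isBigO_zero _ _

end H57WAC
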