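import Pool.Agent.Helper57.WAC.Strands
import Pool.Agent.Helper57.WAC.Ext
import Pool.Agent.Helper57.WAC.Chars0
import Pool.Agent.Helper57.WAC.Discr

open Complex Polynomial Topology Metric Filter

noncomputable section

namespace H57WAC

theorem differentiable_coefs {n : ℕ} (i : Fin n) :
    Differentiable ℂ (fun v : Fin n → ℂ => coefs v i) := by
  have key : ∀ (s : Finset (Fin n)) (k : ℕ),
      Differentiable ℂ (fun v : Fin n → ℂ => (∏ a ∈ s, (X - C (v a)) : ℂ[X]).coeff k) := by
    classical
    intro s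
    induction s using Finset.induction_on with
    | empty => intro k; simp only [Finset.prod_empty]; exact differentiable_const _
    | insert a s ha ih =>
      intro k
      simp only [Finset.prod_insert ha, sub_mul, coeff_sub, coeff_C_mul]
      cases k with
      | zero =>
        simp only [mul_coeff_zero, coeff_X_zero, zero_mul, zero_sub]
        exact ((differentiable_apply a).mul (by simpa using ih 0)).neg
      | succ k =>
        simp only [coeff_X_mul]
        exact (ih k).sub ((differentiable_apply a).mul (ih (k + 1)))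
  exact key Finset.univ i

theorem differentiable_Ystr (i j : ℕ) : Differentiable ℂ (fun τ : ℂ => Ystr i j τ) := by
  rw [differentiable_pi]
  intro a
  unfold Ystr
  split_ifs <;> fun_prop

theorem differentiableAt_cf (i : Fin 6) (g : Fin 5) (z : ℂ) (hz : ‖z‖ ≤ 1) :
    DifferentiableAt ℂ (fun z => coefs (Ystr (yi g) (yj g) (tau z)) i) z :=
  ((differentiable_coefs i).differentiableAt).comp z
    (((differentiable_Ystr (yi g) (yj g)).differentiableAt).comp z (tau_differentiableAt z hz))

/-- disc components of the coefficients -/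
def cfD (i : Fin 6) (g : Fin 5) : C(Dsc, ℂ) where
  toFun z := coefs (Ystr (yi g) (yj g) (tau z)) i
  continuous_toFun := by
    have h : ContinuousOn (fun z : ℂ => coefs (Ystr (yi g) (yj g) (tau z)) i)
      (closedBall (0 : ℂ) 1) := fun z hz =>
      (differentiableAt_cf i g z (mem_closedBall_zero_iff.1 hz)).continuousAt.continuousWithinAt
    exact continuousOn_iff_continuous_domRestrict.1 h

theorem cfD_apply (i : Fin 6) (g : Fin 5) (z : Dsc) :
    cfD i g z = coefs (Ystr (yi g) (yj g) (tau z)) i := rfl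

theorem cfD_zeta (i : Fin 6) (g : Fin 5) (s : II) :
    cfD i g (zeta s) = ((yLoop g s : Sep 6) : Fin 6 → ℂ) i := by
  rw [cfD_apply, tau_zeta]; rfl

theorem cfD_zeta0 (i : Fin 6) (g : Fin 5) :
    cfD i g (zeta 0) = (cstar : Fin 6 → ℂ) i := by
  rw [cfD_zeta, (yLoop g).source]

theorem cfD_zeta1 (i : Fin 6) (g : Fin 5) :
    cfD i g (zeta 1) = (cstar : Fin 6 → ℂ) i := by
  rw [cfD_zeta, (yLoop g).target]

/-- the loop of a letter -/
def lY : Option (Fin 5) → Path cstar cstar
  | none => Path.refl _
  | some g => yLoop g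

/-- the loop of a word -/
def wordY (w : Fin 3 → Option (Fin 5)) : Path cstar cstar :=
  ((lY (w 0)).trans (lY (w 1))).trans (lY (w 2))

theorem lY_apply (i : Fin 6) (l : Option (Fin 5)) (s : II) :
    ((lY l s : Sep 6) : Fin 6 → ℂ) i = hval (cfD i) (letterPt D0 l s) := by
  cases l with
  | none => exact (cfD_zeta0 i 0).symm
  | some g => exact (cfD_zeta i g s).symm

theorem wordY_apply (i : Fin 6) (w : Fin 3 → Option (Fin 5)) (t : II) :
    ((wordY w t : Sep 6) : Fin 6 → ℂ) i = hval (cfD i) (wordPt D0 w t) := by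
  rw [wordY, tr3_path, wordPt, tr3_comp (hval (cfD i)),
    tr3_comp (fun c : Sep 6 => (c : Fin 6 → ℂ) i)]
  congr 1
  funext k s
  fin_cases k
  · exact lY_apply i _ s
  · exact lY_apply i _ s
  · exact lY_apply i _ s

theorem word_hom (j : Fin 5) : (wordY (topw j)).Homotopic (wordY (botw j)) := by
  fin_cases j
  · exact yLoop_hex01
  · exact yLoop_hex12
  · exact yLoop_hex23
  · exact yLoop_hex34
  · exact yLoop_tri

/-- the chosen homotopies -/
def Kh (j : Fin 5) : Path.Homotopy (wordY (topw j)) (wordY (botw j)) := (word_hom j).some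

/-- cell components of the coefficients -/
def cfC (i : Fin 6) (j : Fin 5) : C(II × II, ℂ) where
  toFun st := ((Kh j st : Sep 6) : Fin 6 → ℂ) i
  continuous_toFun := by
    have h1 : Continuous fun st : II × II => Kh j st := (Kh j).continuous
    exact (continuous_apply i).comp (continuous_subtype_val.comp h1)

/-- the coefficients of the bad polynomial -/
def x0 (i : Fin 6) : C(Kpt, ℂ) := mkK (cfD i) (cfC i)

theorem x0_mem (i : Fin 6) : InB D0 0 (x0 i) := by
  have hhol : ∀ g, DifferentiableOn ℂ (dsc (x0 i) g) (ball 0 1) := by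
    intro g
    have h1 : DifferentiableOn ℂ (fun z => coefs (Ystr (yi g) (yj g) (tau z)) i) (ball 0 1) :=
      fun z hz => (differentiableAt_cf i g z
        (mem_ball_zero_iff.1 hz).le).differentiableWithinAt
    refine h1.congr fun z hz => ?_
    rw [dsc, dext_mem _ z (ball_subset_closedBall hz)]
    rfl
  refine ⟨?_, hhol, fun g => van_zero (hhol g)⟩
  intro p q hpq
  cases hpq with
  | z0 g => exact (cfD_zeta0 i g).trans (cfD_zeta0 i 0).symm
  | z1 g => exact (cfD_zeta1 i g).trans (cfD_zeta0 i 0).symm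
  | top j t =>
    refine Eq.trans ?_ (wordY_apply i (topw j) t)
    change ((Kh j (0, t) : Sep 6) : Fin 6 → ℂ) i = _
    rw [(Kh j).apply_zero]
    rfl
  | bot j t =>
    refine Eq.trans ?_ (wordY_apply i (botw j) t)
    change ((Kh j (1, t) : Sep 6) : Fin 6 → ℂ) i = _
    rw [(Kh j).apply_one]
    rfl
  | left j s =>
    refine Eq.trans ?_ (cfD_zeta0 i 0).symm
    change ((Kh j (s, 0) : Sep 6) : Fin 6 → ℂ) i = _
    rw [(Kh j).source]
  | right j s =>
    refine Eq.trans ?_ (cfD_zeta0 i 0).symm
    change ((Kh j (s, 1) : Sep 6) : Fin 6 → ℂ) i = _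
    rw [(Kh j).target]

theorem mpoly_x0_inl (g : Fin 5) (z : Dsc) :
    mpoly (fun i => x0 i (Sum.inl (g, z))) = rpoly (Ystr (yi g) (yj g) (tau z)) :=
  mpoly_coefs _

theorem strands_injective (g : Fin 5) (z : Dsc) :
    Function.Injective (Ystr (yi g) (yj g) (tau z)) :=
  Ystr_injective g _ (tau_re z (mem_closedBall_zero_iff.1 z.2))
    (tau_im z (mem_closedBall_zero_iff.1 z.2))

theorem separable_x0 (q : Kpt) : (mpoly (fun i => x0 i q)).Separable := by
  rcases q with ⟨g, z⟩ | ⟨j, st⟩
  · rw [mpoly_x0_inl]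
    exact separable_rpoly (strands_injective g z)
  · exact (Kh j st : Sep 6).2

/-- the bad polynomial over a ring -/
def badP {R : Type*} [CommRing R] (r : Fin 6 → R) : R[X] := X ^ 6 + ∑ i, C (r i) * X ^ (i : ℕ)

theorem badP_monic {R : Type*} [CommRing R] (r : Fin 6 → R) : (badP r).Monic := by
  unfold badP
  refine monic_X_pow_add (n := 6) ?_
  refine lt_of_le_of_lt (degree_sum_le _ _) ?_
  rw [Finset.sup_lt_iff (by exact_mod_cast WithBot.bot_lt_coe 6)]
  intro i _
  refine lt_of_le_of_lt (degree_C_mul_X_pow_le _ _) ?_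
  exact_mod_cast i.2

theorem badP_map {R S : Type*} [CommRing R] [CommRing S] (r : Fin 6 → R) (φ : R →+* S) :
    (badP r).map φ = badP (fun i => φ (r i)) := by
  simp [badP, Polynomial.map_sum]

theorem badP_complex (c : Fin 6 → ℂ) : badP c = mpoly c := rfl

theorem badP_natDegree {R : Type*} [CommRing R] [Nontrivial R] (r : Fin 6 → R) :
    (badP r).natDegree = 6 := by
  unfold badP
  rw [natDegree_add_eq_left_of_degree_lt, natDegree_X_pow]
  rw [degree_X_pow]
  refine lt_of_le_of_lt (degree_sum_le _ _) ?_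
  rw [Finset.sup_lt_iff (by exact_mod_cast WithBot.bot_lt_coe 6)]
  intro i _
  refine lt_of_le_of_lt (degree_C_mul_X_pow_le _ _) ?_
  exact_mod_cast i.2

end H57WAC
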