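import Mathlib

open Complex Polynomial Topology

namespace H57WAC

/-- the monic polynomial with given lower coefficients -/
noncomputable def mpoly {n : ℕ} (c : Fin n → ℂ) : ℂ[X] := X ^ n + ∑ i, C (c i) * X ^ (i : ℕ)

/-- coefficient vectors of separable monic polynomials of degree `n` -/
abbrev Sep (n : ℕ) := {c : Fin n → ℂ // (mpoly c).Separable}

/-- the monic polynomial with given roots -/
noncomputable def rpoly {n : ℕ} (v : Fin n → ℂ) : ℂ[X] := ∏ a, (X - C (v a))

/-- its coefficients -/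
noncomputable def coefs {n : ℕ} (v : Fin n → ℂ) : Fin n → ℂ := fun i => (rpoly v).coeff i

theorem mpoly_coefs {n : ℕ} (v : Fin n → ℂ) : mpoly (coefs v) = rpoly v := by
  have hm : (rpoly v).Monic := monic_prod_of_monic _ _ fun a _ => monic_X_sub_C (v a)
  have hd : (rpoly v).natDegree = n := by
    unfold rpoly
    rw [natDegree_prod_of_monic _ _ fun a _ => monic_X_sub_C (v a)]
    simp
  have h := hm.as_sum
  rw [hd] at h
  conv_rhs => rw [h]
  unfold mpoly coefs
  rw [Finset.sum_range]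

theorem separable_rpoly {n : ℕ} {v : Fin n → ℂ} (h : Function.Injective v) :
    (rpoly v).Separable := by
  unfold rpoly
  exact separable_prod_X_sub_C_iff.2 h

theorem continuous_coefs {n : ℕ} : Continuous (coefs (n := n)) := by
  have key : ∀ (s : Finset (Fin n)) (k : ℕ),
      Continuous (fun v : Fin n → ℂ => (∏ a ∈ s, (X - C (v a)) : ℂ[X]).coeff k) := by
    classical
    intro s
    induction s using Finset.induction_on with
    | empty => intro k; simp only [Finset.prod_empty]; exact continuous_const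
    | insert a s ha ih =>
      intro k
      simp only [Finset.prod_insert ha, sub_mul, coeff_sub, coeff_C_mul]
      cases k with
      | zero =>
        simp only [mul_coeff_zero, coeff_X_zero, zero_mul, zero_sub]
        exact ((continuous_apply a).mul (by simpa using ih 0)).neg
      | succ k =>
        simp only [coeff_X_mul]
        exact (ih k).sub ((continuous_apply a).mul (ih (k + 1)))
  exact continuous_pi fun i => key Finset.univ i

/-- strands: the pair `(i,i+1)` is exchanged in the positive sense and the pair `(j,j+1)` in the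
negative sense, the other strands do not move -/
noncomputable def Ystr (i j : ℕ) (τ : ℂ) (a : Fin 6) : ℂ :=
  if (a : ℕ) = i then i + τ - I * (τ * (1 - τ))
  else if (a : ℕ) = i + 1 then i + 1 - τ + I * (τ * (1 - τ))
  else if (a : ℕ) = j then j + τ + I * (τ * (1 - τ))
  else if (a : ℕ) = j + 1 then j + 1 - τ - I * (τ * (1 - τ))
  else a

/-- index pairs of the five loops -/
def yi : Fin 5 → ℕ := ![0, 0, 0, 1, 2]
/-- index pairs of the five loops -/
def yj : Fin 5 → ℕ := ![2, 3, 4, 4, 4]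

/-- the five permutations -/
def yperm (g : Fin 5) : Equiv.Perm (Fin 6) :=
  (![Equiv.swap 0 1 * Equiv.swap 2 3, Equiv.swap 0 1 * Equiv.swap 3 4,
    Equiv.swap 0 1 * Equiv.swap 4 5, Equiv.swap 1 2 * Equiv.swap 4 5,
    Equiv.swap 2 3 * Equiv.swap 4 5] : Fin 5 → Equiv.Perm (Fin 6)) g

/-- the configuration `0,1,2,3,4,5` -/
noncomputable def v0 : Fin 6 → ℂ := fun a => ((a : ℕ) : ℂ)

/-! real and imaginary parts of the strands -/

lemma br_Ystr_re (i j : ℕ) (τ : ℂ) (a : Fin 6) : (Ystr i j τ a).re =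
    if (a : ℕ) = i then i + τ.re + τ.im * (1 - 2 * τ.re)
    else if (a : ℕ) = i + 1 then i + 1 - τ.re - τ.im * (1 - 2 * τ.re)
    else if (a : ℕ) = j then j + τ.re - τ.im * (1 - 2 * τ.re)
    else if (a : ℕ) = j + 1 then j + 1 - τ.re + τ.im * (1 - 2 * τ.re)
    else a := by
  unfold Ystr
  split_ifs <;> simp <;> ring

lemma br_Ystr_im (i j : ℕ) (τ : ℂ) (a : Fin 6) : (Ystr i j τ a).im =
    if (a : ℕ) = i then τ.im - (τ.re - τ.re ^ 2 + τ.im ^ 2)
    else if (a : ℕ) = i + 1 then - τ.im + (τ.re - τ.re ^ 2 + τ.im ^ 2)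
    else if (a : ℕ) = j then τ.im + (τ.re - τ.re ^ 2 + τ.im ^ 2)
    else if (a : ℕ) = j + 1 then - τ.im - (τ.re - τ.re ^ 2 + τ.im ^ 2)
    else 0 := by
  unfold Ystr
  split_ifs <;> simp <;> ring

theorem Ystr_injective (g : Fin 5) (τ : ℂ) (h1 : |τ.re - 1 / 2| ≤ 3 / 4) (h2 : |τ.im| ≤ 1 / 10) :
    Function.Injective (Ystr (yi g) (yj g) τ) := by
  have h3 : |τ.im * (1 - 2 * τ.re)| ≤ 15 / 100 := by
    rw [abs_mul]
    have : |1 - 2 * τ.re| ≤ 3 / 2 := by
      rw [abs_le] at h1 ⊢
      constructor <;> linarith [h1.1, h1.2]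
    calc |τ.im| * |1 - 2 * τ.re| ≤ (1 / 10) * (3 / 2) :=
          mul_le_mul h2 this (abs_nonneg _) (by norm_num)
      _ = 15 / 100 := by norm_num
  rw [abs_le] at h1 h2 h3
  obtain ⟨h1a, h1b⟩ := h1
  obtain ⟨h2a, h2b⟩ := h2
  have p1 : ¬ (1 - 2 * τ.re - 2 * (τ.im * (1 - 2 * τ.re)) = 0 ∧
      (τ.re - τ.re ^ 2 + τ.im ^ 2) = τ.im) := by
    rintro ⟨e1, e2⟩
    have e1' : (1 - 2 * τ.re) * (1 - 2 * τ.im) = 0 := by linarith
    rcases mul_eq_zero.1 e1' with e | e
    · have : τ.re = 1 / 2 := by linarith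
      rw [this] at e2
      nlinarith
    · linarith
  have p2 : ¬ (1 - 2 * τ.re + 2 * (τ.im * (1 - 2 * τ.re)) = 0 ∧
      (τ.re - τ.re ^ 2 + τ.im ^ 2) = - τ.im) := by
    rintro ⟨e1, e2⟩
    have e1' : (1 - 2 * τ.re) * (1 + 2 * τ.im) = 0 := by linarith
    rcases mul_eq_zero.1 e1' with e | e
    · have : τ.re = 1 / 2 := by linarith
      rw [this] at e2
      nlinarith
    · linarith
  intro a b hab
  have hre := congrArg Complex.re hab
  have him := congrArg Complex.im hab
  rw [br_Ystr_re, br_Ystr_re] at hre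
  rw [br_Ystr_im, br_Ystr_im] at him
  obtain ⟨h3a, h3b⟩ := h3
  generalize τ.im * (1 - 2 * τ.re) = P at *
  generalize τ.re - τ.re ^ 2 + τ.im ^ 2 = Q at *
  generalize τ.re = x at *
  generalize τ.im = y at *
  clear hab
  fin_cases g <;> fin_cases a <;> fin_cases b <;>
    first
      | rfl
      | (exfalso
         simp [yi, yj] at hre him <;>
         first
          | linarith
          | (exact p1 ⟨by linarith, by linarith⟩)
          | (exact p2 ⟨by linarith, by linarith⟩))

theorem Ystr_zero (g : Fin 5) : Ystr (yi g) (yj g) 0 = v0 := by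
  funext a
  unfold Ystr v0
  split_ifs with h1 h2 h3 h4 <;> simp_all

lemma br_yperm_val : ∀ (g : Fin 5) (a : Fin 6), ((yperm g a : Fin 6) : ℕ) =
    if (a : ℕ) = yi g then yi g + 1
    else if (a : ℕ) = yi g + 1 then yi g
    else if (a : ℕ) = yj g then yj g + 1
    else if (a : ℕ) = yj g + 1 then yj g
    else a := by decide

theorem Ystr_one (g : Fin 5) (a : Fin 6) : Ystr (yi g) (yj g) 1 a = v0 (yperm g a) := by
  unfold v0
  rw [br_yperm_val]
  unfold Ystr
  split_ifs <;> push_cast <;> ring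

lemma br_v0_injective : Function.Injective v0 := by
  intro a b h
  unfold v0 at h
  exact Fin.ext (by exact_mod_cast h)

/-- base point -/
noncomputable def cstar : Sep 6 := ⟨coefs v0, by
  rw [mpoly_coefs]; apply separable_rpoly
  exact br_v0_injective⟩

lemma br_coefs_comp {n : ℕ} (v : Fin n → ℂ) (σ : Equiv.Perm (Fin n)) : coefs (v ∘ σ) = coefs v := by
  have : rpoly (v ∘ σ) = rpoly v := by
    unfold rpoly
    exact Equiv.prod_comp σ (fun a => (X - C (v a) : ℂ[X]))
  unfold coefs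
  rw [this]

/-- the five loops -/
noncomputable def yLoop (g : Fin 5) : Path cstar cstar where
  toFun s := ⟨coefs (Ystr (yi g) (yj g) ((s : ℝ) : ℂ)), by
    rw [mpoly_coefs]; apply separable_rpoly; apply Ystr_injective
    · have h0 := s.2.1
      have h1 := s.2.2
      rw [ofReal_re, abs_le]
      constructor <;> linarith
    · simp⟩
  continuous_toFun := by
    apply Continuous.subtype_mk
    apply continuous_coefs.comp
    apply continuous_pi
    intro a
    unfold Ystr
    split_ifs <;> fun_prop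
  source' := by
    apply Subtype.ext
    show coefs (Ystr (yi g) (yj g) ((0 : ℝ) : ℂ)) = coefs v0
    rw [ofReal_zero, Ystr_zero]
  target' := by
    apply Subtype.ext
    show coefs (Ystr (yi g) (yj g) ((1 : ℝ) : ℂ)) = coefs v0
    rw [ofReal_one]
    have : Ystr (yi g) (yj g) 1 = v0 ∘ (yperm g) := funext fun a => Ystr_one g a
    rw [this, br_coefs_comp]

namespace Br

/-! ### configurations with prescribed vertical order -/

/-- strands with equal real part are ordered vertically as `h` says -/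
def Good (h : Fin 6 → ℕ) (v : Fin 6 → ℂ) : Prop :=
  ∀ a b, h a < h b → (v b - v a).re = 0 → 0 < (v b - v a).im

lemma Good.inj {h : Fin 6 → ℕ} (hh : Function.Injective h) {v : Fin 6 → ℂ} (hv : Good h v) :
    Function.Injective v := by
  intro a b hab
  by_contra hne
  rcases lt_or_gt_of_ne (fun e => hne (hh e)) with hl | hl
  · have := hv a b hl (by rw [hab]; simp)
    rw [hab] at this
    simp at this
  · have := hv b a hl (by rw [hab]; simp)
    rw [hab] at this
    simp at this

/-- the set of good configurations -/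
def GS (h : Fin 6 → ℕ) : Set (Fin 6 → ℂ) := {v | Good h v}

lemma starConvex_GS (h : Fin 6 → ℕ) : StarConvex ℝ (fun a => I * (h a : ℂ)) (GS h) := by
  intro v hv s t hs ht hst a b hab hre
  have hh : (h a : ℝ) < h b := by exact_mod_cast hab
  have e1 : ((s • (fun a => I * (h a : ℂ)) + t • v) b - (s • (fun a => I * (h a : ℂ)) + t • v) a).re =
      t * (v b - v a).re := by
    simp
    ring
  have e2 : ((s • (fun a => I * (h a : ℂ)) + t • v) b - (s • (fun a => I * (h a : ℂ)) + t • v) a).im =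
      s * (h b - h a) + t * (v b - v a).im := by
    simp
    ring
  rw [e1] at hre
  rw [e2]
  rcases mul_eq_zero.1 hre with h0 | h0
  · have : s = 1 := by linarith
    rw [h0, this]
    linarith
  · have h3 := hv a b hab h0
    rcases ht.eq_or_lt with h4 | h4
    · have : s = 1 := by linarith
      rw [← h4, this]
      linarith
    · have h5 : 0 ≤ s * ((h b : ℝ) - h a) := mul_nonneg hs (by linarith)
      have h6 : 0 < t * (v b - v a).im := mul_pos h4 h3
      linarith

lemma center_mem (h : Fin 6 → ℕ) : (fun a => I * (h a : ℂ)) ∈ GS h := by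
  intro a b hab _
  have hh : (h a : ℝ) < h b := by exact_mod_cast hab
  simp
  exact hab

instance (h : Fin 6 → ℕ) : ContractibleSpace (GS h) :=
  (starConvex_GS h).contractibleSpace ⟨_, center_mem h⟩

/-- the map to coefficient vectors -/
noncomputable def fh {h : Fin 6 → ℕ} (hh : Function.Injective h) : C(GS h, Sep 6) where
  toFun v := ⟨coefs v.1, by rw [mpoly_coefs]; exact separable_rpoly (Good.inj hh v.2)⟩
  continuous_toFun := (continuous_coefs.comp continuous_subtype_val).subtype_mk _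

/-- `p` lifts to a path of good configurations from `a` to `b` -/
def Lift (h : Fin 6 → ℕ) {x y : Sep 6} (p : Path x y) (a b : Fin 6 → ℂ) : Prop :=
  ∃ P : Path a b, (∀ t, Good h (P t)) ∧ ∀ t, (p t).1 = coefs (P t)

lemma Lift.trans {h : Fin 6 → ℕ} {x y z : Sep 6} {p : Path x y} {q : Path y z}
    {a b c : Fin 6 → ℂ} (hp : Lift h p a b) (hq : Lift h q b c) : Lift h (p.trans q) a c := by
  obtain ⟨P, hP1, hP2⟩ := hp
  obtain ⟨Q, hQ1, hQ2⟩ := hq
  refine ⟨P.trans Q, fun t => ?_, fun t => ?_⟩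
  · rw [Path.trans_apply]
    split_ifs
    · exact hP1 _
    · exact hQ1 _
  · rw [Path.trans_apply, Path.trans_apply]
    split_ifs
    · exact hP2 _
    · exact hQ2 _

lemma Lift.homotopic {h : Fin 6 → ℕ} (hh : Function.Injective h) {x y : Sep 6} {p q : Path x y}
    {a b : Fin 6 → ℂ} (hp : Lift h p a b) (hq : Lift h q a b) : p.Homotopic q := by
  obtain ⟨P, hP1, hP2⟩ := hp
  obtain ⟨Q, hQ1, hQ2⟩ := hq
  have ha : Good h a := by have := hP1 0; rwa [P.source] at this
  have hb : Good h b := by have := hP1 1; rwa [P.target] at this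
  let P' : Path (⟨a, ha⟩ : GS h) ⟨b, hb⟩ :=
    { toFun := fun t => ⟨P t, hP1 t⟩
      continuous_toFun := P.continuous.subtype_mk _
      source' := Subtype.ext P.source
      target' := Subtype.ext P.target }
  let Q' : Path (⟨a, ha⟩ : GS h) ⟨b, hb⟩ :=
    { toFun := fun t => ⟨Q t, hQ1 t⟩
      continuous_toFun := Q.continuous.subtype_mk _
      source' := Subtype.ext Q.source
      target' := Subtype.ext Q.target }
  have hx : x = fh hh ⟨a, ha⟩ := Subtype.ext (by
    have := hP2 0
    rw [p.source, P.source] at this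
    exact this)
  have hy : y = fh hh ⟨b, hb⟩ := Subtype.ext (by
    have := hP2 1
    rw [p.target, P.target] at this
    exact this)
  subst hx
  subst hy
  have e1 : p = P'.map (fh hh).continuous := Path.ext (funext fun t => Subtype.ext (hP2 t))
  have e2 : q = Q'.map (fh hh).continuous := Path.ext (funext fun t => Subtype.ext (hQ2 t))
  rw [e1, e2]
  exact (SimplyConnectedSpace.paths_homotopic P' Q').map (fh hh)

/-! ### the elementary loops -/

/-- strands of the elementary loop -/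
noncomputable def Sstr (k : ℕ) (t : ℝ) (a : Fin 6) : ℂ :=
  if (a : ℕ) = k then k + t - I * (t * (1 - t))
  else if (a : ℕ) = k + 1 then k + 1 - t + I * (t * (1 - t))
  else a

lemma Sstr_re (k : ℕ) (t : ℝ) (a : Fin 6) : (Sstr k t a).re =
    if (a : ℕ) = k then k + t
    else if (a : ℕ) = k + 1 then k + 1 - t
    else a := by
  unfold Sstr
  split_ifs <;> simp

lemma Sstr_im (k : ℕ) (t : ℝ) (a : Fin 6) : (Sstr k t a).im =
    if (a : ℕ) = k then - (t * (1 - t))
    else if (a : ℕ) = k + 1 then t * (1 - t)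
    else 0 := by
  unfold Sstr
  split_ifs <;> simp

lemma Sstr_good {h : Fin 6 → ℕ} {k : ℕ} {σ : Fin 6 → Fin 6} (hσ : Function.Injective σ)
    (hk : ∀ a b, (σ a : ℕ) = k → (σ b : ℕ) = k + 1 → h a < h b) {t : ℝ} (h0 : 0 ≤ t)
    (h1 : t ≤ 1) : Good h (Sstr k t ∘ σ) := by
  intro a b hab hre
  have hne : (σ a : ℕ) ≠ σ b := by
    intro e
    have := hσ (Fin.ext e)
    rw [this] at hab
    exact lt_irrefl _ hab
  have hk1 := hk a b
  have hk2 := hk b a
  simp only [Function.comp_apply, sub_re, sub_im] at hre ⊢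
  rw [Sstr_re, Sstr_re] at hre
  rw [Sstr_im, Sstr_im]
  generalize hm : (σ a : ℕ) = m at *
  generalize hn : (σ b : ℕ) = n at *
  have key : ∀ c d : ℕ, c ≠ d → (c : ℝ) + 1 ≤ d ∨ (d : ℝ) + 1 ≤ c := by
    intro c d hcd
    rcases lt_or_gt_of_ne hcd with h | h
    · left; exact_mod_cast h
    · right; exact_mod_cast h
  by_cases a1 : m = k
  · by_cases b1 : n = k
    · omega
    · by_cases b2 : n = k + 1
      · rw [if_neg b1, if_pos b2, if_pos a1] at hre
        rw [if_neg b1, if_pos b2, if_pos a1]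
        have : t = 1 / 2 := by linarith
        rw [this]; norm_num
      · exfalso
        rw [if_neg b1, if_neg b2, if_pos a1] at hre
        rcases key n k b1 with h | h
        · linarith
        · rcases key n (k + 1) b2 with h' | h' <;> push_cast at h' <;> linarith
  · by_cases a2 : m = k + 1
    · by_cases b1 : n = k
      · have := hk2 b1 a2
        omega
      · by_cases b2 : n = k + 1
        · omega
        · exfalso
          rw [if_neg b1, if_neg b2, if_neg a1, if_pos a2] at hre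
          rcases key n k b1 with h | h
          · linarith
          · rcases key n (k + 1) b2 with h' | h' <;> push_cast at h' <;> linarith
    · by_cases b1 : n = k
      · exfalso
        rw [if_pos b1, if_neg a1, if_neg a2] at hre
        rcases key m k a1 with h | h
        · linarith
        · rcases key m (k + 1) a2 with h' | h' <;> push_cast at h' <;> linarith
      · by_cases b2 : n = k + 1
        · exfalso
          rw [if_neg b1, if_pos b2, if_neg a1, if_neg a2] at hre
          rcases key m k a1 with h | h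
          · linarith
          · rcases key m (k + 1) a2 with h' | h' <;> push_cast at h' <;> linarith
        · exfalso
          rw [if_neg b1, if_neg b2, if_neg a1, if_neg a2] at hre
          rcases key n m (Ne.symm hne) with h | h <;> linarith

/-- the identity order -/
def hid : Fin 6 → ℕ := fun a => a

lemma hid_inj : Function.Injective hid := fun _ _ h => Fin.ext h

/-- the transposition `k, k+1` -/
def tp (k : Fin 5) : Equiv.Perm (Fin 6) := Equiv.swap k.castSucc k.succ

lemma tp_val : ∀ (k : Fin 5) (a : Fin 6), ((tp k a : Fin 6) : ℕ) =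
    if (a : ℕ) = (k : ℕ) then (k : ℕ) + 1
    else if (a : ℕ) = (k : ℕ) + 1 then (k : ℕ)
    else (a : ℕ) := by decide

lemma Sstr_zero (k : ℕ) : Sstr k 0 = v0 := by
  funext a
  unfold Sstr v0
  split_ifs with h1 h2 <;> simp_all

lemma Sstr_one (k : Fin 5) : Sstr k 1 = v0 ∘ tp k := by
  funext a
  show _ = v0 (tp k a)
  unfold v0
  rw [tp_val]
  unfold Sstr
  split_ifs <;> push_cast <;> ring

lemma continuous_Sstr (k : ℕ) : Continuous (Sstr k) := by
  apply continuous_pi
  intro a
  unfold Sstr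
  split_ifs <;> fun_prop

/-- elementary loops -/
noncomputable def sLoop (k : Fin 5) : Path cstar cstar where
  toFun s := ⟨coefs (Sstr k s), by
    rw [mpoly_coefs]; apply separable_rpoly
    have := Sstr_good (h := hid) (k := k) (σ := id) Function.injective_id
      (fun a b ha hb => by
        simp only [id] at ha hb
        unfold hid; omega) s.2.1 s.2.2
    exact Good.inj hid_inj this⟩
  continuous_toFun := by
    apply Continuous.subtype_mk
    exact continuous_coefs.comp ((continuous_Sstr k).comp continuous_subtype_val)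
  source' := by
    apply Subtype.ext
    show coefs (Sstr k 0) = coefs v0
    rw [Sstr_zero]
  target' := by
    apply Subtype.ext
    show coefs (Sstr k 1) = coefs v0
    rw [Sstr_one, br_coefs_comp]

lemma lift_s (h : Fin 6 → ℕ) (k : Fin 5) (σ τ : Equiv.Perm (Fin 6)) (hτ : τ = tp k * σ)
    (hk : ∀ a b, (σ a : ℕ) = k → (σ b : ℕ) = k + 1 → h a < h b) :
    Lift h (sLoop k) (v0 ∘ σ) (v0 ∘ τ) := by
  subst hτ
  refine ⟨{ toFun := fun t => Sstr k t ∘ σ, continuous_toFun := ?_, source' := ?_, target' := ?_ },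
    fun t => ?_, fun t => ?_⟩
  · have := (continuous_Sstr k).comp (continuous_subtype_val (p := fun t : ℝ => t ∈ Set.Icc 0 1))
    exact continuous_pi fun a => (continuous_apply (σ a)).comp this
  · show Sstr k 0 ∘ σ = _
    rw [Sstr_zero]
  · show Sstr k 1 ∘ σ = _
    rw [Sstr_one]
    rfl
  · exact Sstr_good σ.injective hk t.2.1 t.2.2
  · show coefs (Sstr k t) = coefs (Sstr k t ∘ σ)
    rw [br_coefs_comp]

/-- order for the loop `g` -/
def hg : Fin 5 → Fin 6 → ℕ :=
  ![![0, 1, 3, 2, 4, 5], ![0, 1, 2, 4, 3, 5], ![0, 1, 2, 3, 5, 4], ![0, 1, 2, 3, 5, 4],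
    ![0, 1, 2, 3, 5, 4]]

lemma hg_inj : ∀ g, Function.Injective (hg g) := by decide

lemma Ystr_good (g : Fin 5) {t : ℝ} (h0 : 0 ≤ t) (h1 : t ≤ 1) :
    Good (hg g) (Ystr (yi g) (yj g) t) := by
  intro a b hab hre
  rw [sub_re, br_Ystr_re, br_Ystr_re] at hre
  rw [sub_im, br_Ystr_im, br_Ystr_im]
  simp only [ofReal_re, ofReal_im, zero_mul, add_zero, sub_zero, zero_pow, ne_eq,
    OfNat.ofNat_ne_zero, not_false_eq_true, zero_sub, zero_add, neg_zero] at hre ⊢
  revert hab hre
  fin_cases g <;> fin_cases a <;> fin_cases b <;> simp [yi, yj, hg] <;> intro hre <;>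
    first
      | (exfalso; linarith)
      | (have ht : t = 1 / 2 := by linarith
         rw [ht]; norm_num)

lemma lift_y (g : Fin 5) : Lift (hg g) (yLoop g) v0 (v0 ∘ yperm g) := by
  refine ⟨{ toFun := fun t => Ystr (yi g) (yj g) ((t : ℝ) : ℂ), continuous_toFun := ?_,
            source' := ?_, target' := ?_ }, fun t => ?_, fun t => ?_⟩
  · apply continuous_pi
    intro a
    unfold Ystr
    split_ifs <;> fun_prop
  · show Ystr (yi g) (yj g) ((0 : ℝ) : ℂ) = _
    rw [ofReal_zero, Ystr_zero]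
  · show Ystr (yi g) (yj g) ((1 : ℝ) : ℂ) = _
    rw [ofReal_one]
    exact funext fun a => Ystr_one g a
  · exact Ystr_good g t.2.1 t.2.2
  · rfl

/-- first index -/
def ii : Fin 5 → Fin 5 := ![0, 0, 0, 1, 2]
/-- second index -/
def jj : Fin 5 → Fin 5 := ![2, 3, 4, 4, 4]

lemma y_s (g : Fin 5) : ((yLoop g).trans (sLoop (jj g))).Homotopic (sLoop (ii g)) := by
  have e1 : ∀ g, tp (jj g) * yperm g = tp (ii g) := by decide
  have e2 : ∀ g, ∀ a b : Fin 6, ((yperm g a : Fin 6) : ℕ) = jj g →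
      ((yperm g b : Fin 6) : ℕ) = (jj g : ℕ) + 1 → hg g a < hg g b := by decide
  have e3 : ∀ g, ∀ a b : Fin 6, (((1 : Equiv.Perm (Fin 6)) a : Fin 6) : ℕ) = ii g →
      (((1 : Equiv.Perm (Fin 6)) b : Fin 6) : ℕ) = (ii g : ℕ) + 1 → hg g a < hg g b := by decide
  have h1 : Lift (hg g) ((yLoop g).trans (sLoop (jj g))) v0 (v0 ∘ tp (ii g)) :=
    (lift_y g).trans (lift_s (hg g) (jj g) (yperm g) _ (e1 g).symm (e2 g))
  have h2 : Lift (hg g) (sLoop (ii g)) v0 (v0 ∘ tp (ii g)) :=
    lift_s (hg g) (ii g) 1 _ (by simp) (e3 g)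
  exact h1.homotopic (hg_inj g) h2

lemma s_comm (i j : Fin 5) (hij : (i : ℕ) + 2 ≤ j) :
    ((sLoop i).trans (sLoop j)).Homotopic ((sLoop j).trans (sLoop i)) := by
  have e1 : ∀ i j : Fin 5, (i : ℕ) + 2 ≤ j → tp j * tp i = tp i * tp j := by decide
  have e2 : ∀ i : Fin 5, ∀ a b : Fin 6, (((1 : Equiv.Perm (Fin 6)) a : Fin 6) : ℕ) = i →
      (((1 : Equiv.Perm (Fin 6)) b : Fin 6) : ℕ) = (i : ℕ) + 1 → hid a < hid b := by decide
  have e3 : ∀ i j : Fin 5, (i : ℕ) + 2 ≤ j → ∀ a b : Fin 6, ((tp i a : Fin 6) : ℕ) = j →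
      ((tp i b : Fin 6) : ℕ) = (j : ℕ) + 1 → hid a < hid b := by decide
  have e4 : ∀ i j : Fin 5, (i : ℕ) + 2 ≤ j → ∀ a b : Fin 6, ((tp j a : Fin 6) : ℕ) = i →
      ((tp j b : Fin 6) : ℕ) = (i : ℕ) + 1 → hid a < hid b := by decide
  have h1 : Lift hid ((sLoop i).trans (sLoop j)) (v0 ∘ (1 : Equiv.Perm (Fin 6))) (v0 ∘ ⇑(tp j * tp i)) :=
    (lift_s hid i 1 (tp i) (by simp) (e2 i)).trans (lift_s hid j (tp i) _ rfl (e3 i j hij))
  have h2 : Lift hid ((sLoop j).trans (sLoop i)) (v0 ∘ (1 : Equiv.Perm (Fin 6))) (v0 ∘ ⇑(tp j * tp i)) :=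
    (lift_s hid j 1 (tp j) (by simp) (e2 j)).trans (lift_s hid i (tp j) _ (e1 i j hij) (e4 i j hij))
  exact h1.homotopic hid_inj h2

lemma s_braid (i j : Fin 5) (hij : (j : ℕ) = i + 1) :
    (((sLoop i).trans (sLoop j)).trans (sLoop i)).Homotopic
      (((sLoop j).trans (sLoop i)).trans (sLoop j)) := by
  have e1 : ∀ i j : Fin 5, (j : ℕ) = i + 1 → tp i * (tp j * tp i) = tp j * (tp i * tp j) := by
    decide
  have e2 : ∀ i : Fin 5, ∀ a b : Fin 6, (((1 : Equiv.Perm (Fin 6)) a : Fin 6) : ℕ) = i →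
      (((1 : Equiv.Perm (Fin 6)) b : Fin 6) : ℕ) = (i : ℕ) + 1 → hid a < hid b := by decide
  have e3 : ∀ i j : Fin 5, (j : ℕ) = i + 1 → ∀ a b : Fin 6, ((tp i a : Fin 6) : ℕ) = j →
      ((tp i b : Fin 6) : ℕ) = (j : ℕ) + 1 → hid a < hid b := by decide
  have e4 : ∀ i j : Fin 5, (j : ℕ) = i + 1 → ∀ a b : Fin 6, ((tp j a : Fin 6) : ℕ) = i →
      ((tp j b : Fin 6) : ℕ) = (i : ℕ) + 1 → hid a < hid b := by decide
  have e5 : ∀ i j : Fin 5, (j : ℕ) = i + 1 → ∀ a b : Fin 6, (((tp j * tp i) a : Fin 6) : ℕ) = i →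
      (((tp j * tp i) b : Fin 6) : ℕ) = (i : ℕ) + 1 → hid a < hid b := by decide
  have e6 : ∀ i j : Fin 5, (j : ℕ) = i + 1 → ∀ a b : Fin 6, (((tp i * tp j) a : Fin 6) : ℕ) = j →
      (((tp i * tp j) b : Fin 6) : ℕ) = (j : ℕ) + 1 → hid a < hid b := by decide
  have h1 : Lift hid (((sLoop i).trans (sLoop j)).trans (sLoop i))
      (v0 ∘ (1 : Equiv.Perm (Fin 6))) (v0 ∘ ⇑(tp i * (tp j * tp i))) :=
    ((lift_s hid i 1 (tp i) (by simp) (e2 i)).trans (lift_s hid j (tp i) _ rfl (e3 i j hij))).trans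
      (lift_s hid i (tp j * tp i) _ rfl (e5 i j hij))
  have h2 : Lift hid (((sLoop j).trans (sLoop i)).trans (sLoop j))
      (v0 ∘ (1 : Equiv.Perm (Fin 6))) (v0 ∘ ⇑(tp i * (tp j * tp i))) :=
    ((lift_s hid j 1 (tp j) (by simp) (e2 j)).trans (lift_s hid i (tp j) _ rfl (e4 i j hij))).trans
      (lift_s hid j (tp i * tp j) _ (e1 i j hij) (e6 i j hij))
  exact h1.homotopic hid_inj h2

/-! ### group computations -/

/-- the class of a loop -/
noncomputable def cl (p : Path cstar cstar) : FundamentalGroup (Sep 6) cstar :=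
  Path.Homotopic.Quotient.mk p

lemma cl_trans (p q : Path cstar cstar) : cl (p.trans q) = cl q * cl p := rfl

lemma cl_refl : cl (Path.refl cstar) = 1 := rfl

lemma cl_eq {p q : Path cstar cstar} (h : p.Homotopic q) : cl p = cl q :=
  Path.Homotopic.Quotient.eq.2 h

lemma of_cl {p q : Path cstar cstar} (h : cl p = cl q) : p.Homotopic q :=
  Path.Homotopic.Quotient.exact h

lemma cl_y (g : Fin 5) : cl (yLoop g) = (cl (sLoop (jj g)))⁻¹ * cl (sLoop (ii g)) := by
  have := cl_eq (y_s g)
  rw [cl_trans] at this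
  rw [← this]
  group

lemma grp1 {G : Type*} [Group G] {a b c : G} (hb : a * b = b * a) (hc : a * c = c * a)
    (h : b * (c * b) = c * (b * c)) :
    (b⁻¹ * a) * ((c⁻¹ * a) * (b⁻¹ * a)) = (c⁻¹ * a) * ((b⁻¹ * a) * (c⁻¹ * a)) := by
  have hb' : Commute a b⁻¹ := (show Commute a b from hb).inv_right
  have hc' : Commute a c⁻¹ := (show Commute a c from hc).inv_right
  have h1 : ∀ x, a * (b⁻¹ * x) = b⁻¹ * (a * x) := fun x => by
    rw [← mul_assoc, hb'.eq, mul_assoc]
  have h2 : ∀ x, a * (c⁻¹ * x) = c⁻¹ * (a * x) := fun x => by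
    rw [← mul_assoc, hc'.eq, mul_assoc]
  have h3 : b⁻¹ * (c⁻¹ * b⁻¹) = c⁻¹ * (b⁻¹ * c⁻¹) := by
    have := congrArg (fun x => x⁻¹) h
    simpa [mul_assoc] using this
  have h4 : ∀ x, b⁻¹ * (c⁻¹ * (b⁻¹ * x)) = c⁻¹ * (b⁻¹ * (c⁻¹ * x)) := fun x => by
    have := congrArg (fun y => y * x) h3
    simpa [mul_assoc] using this
  simp only [mul_assoc, h1, h2]
  exact h4 _

lemma grp2 {G : Type*} [Group G] {a a' b : G} (hb : a * b = b * a) (hc : a' * b = b * a')
    (h : a * (a' * a) = a' * (a * a')) :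
    (b⁻¹ * a) * ((b⁻¹ * a') * (b⁻¹ * a)) = (b⁻¹ * a') * ((b⁻¹ * a) * (b⁻¹ * a')) := by
  have hb' : Commute a b⁻¹ := (show Commute a b from hb).inv_right
  have hc' : Commute a' b⁻¹ := (show Commute a' b from hc).inv_right
  have h1 : ∀ x, a * (b⁻¹ * x) = b⁻¹ * (a * x) := fun x => by
    rw [← mul_assoc, hb'.eq, mul_assoc]
  have h2 : ∀ x, a' * (b⁻¹ * x) = b⁻¹ * (a' * x) := fun x => by
    rw [← mul_assoc, hc'.eq, mul_assoc]
  simp only [mul_assoc, h1, h2]
  rw [h]

lemma c_comm (i j : Fin 5) (hij : (i : ℕ) + 2 ≤ j) :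
    cl (sLoop i) * cl (sLoop j) = cl (sLoop j) * cl (sLoop i) := by
  have := cl_eq (s_comm i j hij)
  rw [cl_trans, cl_trans] at this
  exact this.symm

lemma c_braid (i j : Fin 5) (hij : (j : ℕ) = i + 1) :
    cl (sLoop i) * (cl (sLoop j) * cl (sLoop i)) = cl (sLoop j) * (cl (sLoop i) * cl (sLoop j)) := by
  have := cl_eq (s_braid i j hij)
  simpa only [cl_trans] using this

end Br

open Br

theorem yLoop_hex01 : (((yLoop 0).trans (yLoop 1)).trans (yLoop 0)).Homotopic
    (((yLoop 1).trans (yLoop 0)).trans (yLoop 1)) := by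
  apply of_cl
  simp only [cl_trans, cl_y]
  exact grp1 (c_comm 0 2 (by decide)) (c_comm 0 3 (by decide)) (c_braid 2 3 (by decide))

theorem yLoop_hex12 : (((yLoop 1).trans (yLoop 2)).trans (yLoop 1)).Homotopic
    (((yLoop 2).trans (yLoop 1)).trans (yLoop 2)) := by
  apply of_cl
  simp only [cl_trans, cl_y]
  exact grp1 (c_comm 0 3 (by decide)) (c_comm 0 4 (by decide)) (c_braid 3 4 (by decide))

theorem yLoop_hex23 : (((yLoop 2).trans (yLoop 3)).trans (yLoop 2)).Homotopic
    (((yLoop 3).trans (yLoop 2)).trans (yLoop 3)) := by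
  apply of_cl
  simp only [cl_trans, cl_y]
  exact grp2 (c_comm 0 4 (by decide)) (c_comm 1 4 (by decide)) (c_braid 0 1 (by decide))

theorem yLoop_hex34 : (((yLoop 3).trans (yLoop 4)).trans (yLoop 3)).Homotopic
    (((yLoop 4).trans (yLoop 3)).trans (yLoop 4)) := by
  apply of_cl
  simp only [cl_trans, cl_y]
  exact grp2 (c_comm 1 4 (by decide)) (c_comm 2 4 (by decide)) (c_braid 1 2 (by decide))

theorem yLoop_tri : (((yLoop 0).trans (yLoop 4)).trans (Path.refl cstar)).Homotopic
    (((yLoop 2).trans (Path.refl cstar)).trans (Path.refl cstar)) := by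
  apply of_cl
  simp only [cl_trans, cl_y, cl_refl, one_mul]
  show (cl (sLoop 4))⁻¹ * cl (sLoop 2) * ((cl (sLoop 2))⁻¹ * cl (sLoop 0)) =
    (cl (sLoop 4))⁻¹ * cl (sLoop 0)
  group

end H57WAC
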