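import Pool.Agent.Helper57.WAC.Coef

open Complex Polynomial Topology Metric Filter

noncomputable section

namespace H57WAC

section abstract1

variable {R S : Type*} [CommRing R] [Algebra ℂ R] [CommRing S] [Algebra ℂ S]

/-- a character obtained by localisation -/
def localHom (ψ : R →ₐ[ℂ] ℂ) (T : S →ₗ[ℂ] R)
    (h1 : ∀ F G, ψ (T F) * ψ (T G) = ψ (T (F * G)) * ψ (T 1)) (h2 : ψ (T 1) ≠ 0) : S →ₐ[ℂ] ℂ :=
  AlgHom.ofLinearMap ((ψ (T 1))⁻¹ • (ψ.toLinearMap.comp T))
    (by simp [h2])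
    (by
      intro F G
      simp only [LinearMap.smul_apply, LinearMap.comp_apply, AlgHom.toLinearMap_apply, smul_eq_mul]
      have := h1 F G
      field_simp
      linear_combination -this)

theorem localHom_apply (ψ : R →ₐ[ℂ] ℂ) (T : S →ₗ[ℂ] R)
    (h1 : ∀ F G, ψ (T F) * ψ (T G) = ψ (T (F * G)) * ψ (T 1)) (h2 : ψ (T 1) ≠ 0) (F : S) :
    localHom ψ T h1 h2 F = (ψ (T 1))⁻¹ * ψ (T F) := rfl

theorem restrict_bijective (i : S →ₐ[ℂ] R) (hi : Function.Injective i) (χ : R →ₐ[ℂ] ℂ)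
    (L : R →ₗ[ℂ] ℂ) (hL : ∀ x, L x = 0 ↔ ∃ s, i s = x)
    (hm : ∀ x y, L (x * y) = χ x * L y + χ y * L x) :
    Function.Bijective (fun ψ : R →ₐ[ℂ] ℂ => ψ.comp i) := by
  have key : ∀ x y : R, χ x = 0 → χ y = 0 → ∀ b, ∃ s, i s = b * (x * y) := by
    intro x y hx hy b
    rw [← hL, hm, hm, map_mul, hx, hy]
    ring
  constructor
  · intro ψ1 ψ2 h12
    have h12' : ∀ s, ψ1 (i s) = ψ2 (i s) := fun s => by
      have := congrArg (fun f : S →ₐ[ℂ] ℂ => f s) h12
      simpa using this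
    by_cases h : ∃ x y : R, χ x = 0 ∧ χ y = 0 ∧ ψ1 (x * y) ≠ 0
    · obtain ⟨x, y, hx, hy, hne⟩ := h
      have hxy : ψ1 (x * y) = ψ2 (x * y) := by
        obtain ⟨s, hs⟩ := key x y hx hy 1
        rw [one_mul] at hs
        rw [← hs, h12']
      ext b
      obtain ⟨s, hs⟩ := key x y hx hy b
      have h1 : ψ1 b * ψ1 (x * y) = ψ2 b * ψ1 (x * y) := by
        rw [← map_mul, ← hs, h12' s, hs, map_mul, hxy]
      exact mul_right_cancel₀ hne h1
    · push Not at h
      have h1 : ∀ b, ψ1 b = χ b := by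
        intro b
        have h0 : χ (b - algebraMap ℂ R (χ b)) = 0 := by simp
        have h2 := h _ _ h0 h0
        rw [map_mul, mul_self_eq_zero, map_sub, AlgHom.commutes, sub_eq_zero] at h2
        exact h2
      have h2 : ∀ b, ψ2 b = χ b := by
        intro b
        have h0 : χ (b - algebraMap ℂ R (χ b)) = 0 := by simp
        have h2 := h _ _ h0 h0
        obtain ⟨s, hs⟩ := key _ _ h0 h0 1
        rw [one_mul] at hs
        rw [← hs, h12', hs, map_mul, mul_self_eq_zero, map_sub, AlgHom.commutes, sub_eq_zero] at h2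
        exact h2
      ext b; rw [h1, h2]
  · intro ψ
    by_cases h : ∃ x y : R, ∃ s : S, χ x = 0 ∧ χ y = 0 ∧ i s = x * y ∧ ψ s ≠ 0
    · obtain ⟨x, y, s0, hx, hy, hs0, hne⟩ := h
      choose t ht using key x y hx hy
      have ht1 : t 1 = s0 := hi (by rw [ht, hs0, one_mul])
      set T : R →ₗ[ℂ] S :=
        { toFun := t
          map_add' := fun a b => hi (by rw [map_add, ht, ht, ht]; ring)
          map_smul' := fun c a => hi (by
            rw [RingHom.id_apply, map_smul, ht, ht, smul_mul_assoc]) } with hT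
      have hTt : ∀ a, T a = t a := fun a => rfl
      have h1 : ∀ F G, ψ (T F) * ψ (T G) = ψ (T (F * G)) * ψ (T 1) := by
        intro F G
        rw [← map_mul ψ, ← map_mul ψ]
        congr 1
        apply hi
        rw [map_mul, map_mul, hTt, hTt, hTt, hTt, ht, ht, ht, ht]
        ring
      have h2 : ψ (T 1) ≠ 0 := by rw [hTt, ht1]; exact hne
      refine ⟨localHom ψ T h1 h2, ?_⟩
      ext s
      simp only [AlgHom.comp_apply, localHom_apply]
      have h3 : T (i s) = s * T 1 := by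
        apply hi
        rw [map_mul, hTt, hTt, ht, ht]; ring
      rw [h3, map_mul, mul_comm (ψ s), inv_mul_cancel_left₀ h2]
    · push Not at h
      refine ⟨χ, ?_⟩
      ext s
      simp only [AlgHom.comp_apply]
      have h0 : χ (i (s - algebraMap ℂ S (χ (i s)))) = 0 := by simp
      have h2 := h _ _ ((s - algebraMap ℂ S (χ (i s))) * (s - algebraMap ℂ S (χ (i s)))) h0 h0
        (map_mul i _ _)
      rw [map_mul, mul_self_eq_zero, map_sub, AlgHom.commutes, sub_eq_zero] at h2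
      exact h2.symm

end abstract1

/-- every character of `C(X)` is an evaluation -/
theorem exists_eval_of_algHom {X : Type*} [TopologicalSpace X] [CompactSpace X] [T2Space X]
    (χ : C(X, ℂ) →ₐ[ℂ] ℂ) : ∃ x : X, ∀ f, χ f = f x := by
  obtain ⟨x, hx⟩ := (WeakDual.CharacterSpace.continuousMapEval_bijective X ℂ).2
    (WeakDual.CharacterSpace.equivAlgHom.symm χ)
  refine ⟨x, fun f => ?_⟩
  have h := congrArg (fun φ : WeakDual.characterSpace ℂ C(X, ℂ) => φ f) hx
  simp only [WeakDual.CharacterSpace.continuousMapEval_apply_apply,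
    WeakDual.CharacterSpace.equivAlgHom_symm_coe] at h
  exact h.symm

theorem norm_one_C {X : Type*} [TopologicalSpace X] [CompactSpace X] [Nonempty X]
    (S : Subalgebra ℂ C(X, ℂ)) : ‖(1 : S)‖ = 1 := by
  have : ‖(1 : S)‖ = ‖(1 : C(X, ℂ))‖ := rfl
  rw [this]
  exact norm_one

theorem norm_hom_le {X : Type*} [TopologicalSpace X] [CompactSpace X] [Nonempty X]
    (S : Subalgebra ℂ C(X, ℂ)) [CompleteSpace S] (χ : S →ₐ[ℂ] ℂ) (f : S) :
    ‖χ f‖ ≤ ‖(f : C(X, ℂ))‖ := by
  have : NormOneClass S := ⟨norm_one_C S⟩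
  exact AlgHom.norm_apply_le_self (𝕜 := ℂ) (A := S) (F := S →ₐ[ℂ] ℂ) χ f

/-- the disc algebra -/
def Adisc : Subalgebra ℂ C(Dsc, ℂ) where
  carrier := {f | DifferentiableOn ℂ (dext f) (ball 0 1)}
  mul_mem' := by
    intro f g hf hg
    have : dext (f * g : C(Dsc, ℂ)) = dext f * dext g := by
      funext z; simp only [dext, Pi.mul_apply]; split_ifs <;> simp
    change DifferentiableOn ℂ (dext (f * g : C(Dsc, ℂ))) (ball 0 1)
    rw [this]; exact DifferentiableOn.mul hf hg
  add_mem' := by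
    intro f g hf hg
    have : dext (f + g : C(Dsc, ℂ)) = dext f + dext g := by
      funext z; simp only [dext, Pi.add_apply]; split_ifs <;> simp
    change DifferentiableOn ℂ (dext (f + g : C(Dsc, ℂ))) (ball 0 1)
    rw [this]; exact DifferentiableOn.add hf hg
  algebraMap_mem' := by
    intro c
    refine (differentiableOn_const c).congr fun z hz => ?_
    rw [dext_mem _ z (ball_subset_closedBall hz)]; rfl

theorem mem_Adisc {f : C(Dsc, ℂ)} : f ∈ Adisc ↔ DifferentiableOn ℂ (dext f) (ball 0 1) := Iff.rfl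

theorem isClosed_Adisc : IsClosed (Adisc : Set C(Dsc, ℂ)) := by
  refine IsSeqClosed.isClosed ?_
  intro u x hu hlim
  have hu' : ∀ n, DifferentiableOn ℂ (dext (u n)) (ball 0 1) := hu
  refine TendstoLocallyUniformlyOn.differentiableOn (F := fun n => dext (u n)) (φ := atTop)
      ?_ (Eventually.of_forall fun n => (hu' n)) isOpen_ball
  refine (TendstoUniformly.tendstoUniformlyOn ?_ (s := ball 0 1)).tendstoLocallyUniformlyOn
  rw [Metric.tendstoUniformly_iff]
  intro ε hε
  filter_upwards [(Metric.tendsto_nhds.1 hlim) ε hε] with n hn z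
  rw [dist_comm]
  simp only [dext]
  split_ifs with h
  · exact (ContinuousMap.dist_apply_le_dist _).trans_lt hn
  · simpa using hε

instance : CompleteSpace Adisc := isClosed_Adisc.completeSpace_coe

/-- the coordinate function -/
def idA : Adisc := ⟨⟨fun z => (z : ℂ), by fun_prop⟩, by
  rw [mem_Adisc]
  refine differentiableOn_id.congr fun z hz => ?_
  rw [dext_mem _ z (ball_subset_closedBall hz)]; rfl⟩

theorem idA_apply (z : Dsc) : (idA : C(Dsc, ℂ)) z = z := rfl

theorem coe_algebraMap_Adisc (c : ℂ) (z : Dsc) :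
    ((algebraMap ℂ Adisc c : Adisc) : C(Dsc, ℂ)) z = c := rfl

/-- an element of the disc algebra from a function holomorphic on an open neighbourhood -/
def ofHol (F : ℂ → ℂ) (R : ℝ) (hR : 1 < R) (hF : DifferentiableOn ℂ F (ball 0 R)) : Adisc :=
  ⟨⟨fun z => F z, by
    have h1 : ContinuousOn F (closedBall 0 1) :=
      hF.continuousOn.mono (closedBall_subset_ball hR)
    exact continuousOn_iff_continuous_domRestrict.1 h1⟩, by
    rw [mem_Adisc]
    refine (hF.mono (ball_subset_ball hR.le)).congr fun z hz => ?_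
    rw [dext_mem _ z (ball_subset_closedBall hz)]; rfl⟩

theorem ofHol_apply (F : ℂ → ℂ) (R : ℝ) (hR : 1 < R) (hF : DifferentiableOn ℂ F (ball 0 R))
    (z : Dsc) : (ofHol F R hR hF : C(Dsc, ℂ)) z = F z := rfl

theorem exists_eval_Adisc (χ : Adisc →ₐ[ℂ] ℂ) : ∃ z : Dsc, ∀ f : Adisc, χ f = (f : C(Dsc, ℂ)) z := by
  have : Nonempty Dsc := ⟨⟨0, zero_mem_cb⟩⟩
  have hb : ∀ f : Adisc, ‖χ f‖ ≤ ‖(f : C(Dsc, ℂ))‖ := fun f => norm_hom_le Adisc χ f
  have hz : ‖χ idA‖ ≤ 1 := by
    refine (hb idA).trans ?_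
    rw [ContinuousMap.norm_le _ zero_le_one]
    intro z
    exact mem_closedBall_zero_iff.1 z.2
  set z0 : Dsc := ⟨χ idA, mem_closedBall_zero_iff.2 hz⟩ with hz0
  refine ⟨z0, fun f => ?_⟩
  -- the value at the dilated functions
  have key : ∀ r : ℝ, 0 < r → (hr : r < 1) → ∃ fr : Adisc, (∀ z : Dsc, (fr : C(Dsc, ℂ)) z
      = dext (f : C(Dsc, ℂ)) (r * z)) ∧ χ fr = dext (f : C(Dsc, ℂ)) (r * z0) := by
    intro r hr0 hr
    have hR : 1 < 1 / r := by rw [one_lt_div hr0]; exact hr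
    set F : ℂ → ℂ := fun w => dext (f : C(Dsc, ℂ)) (r * w) with hFdef
    have hF : DifferentiableOn ℂ F (ball 0 (1 / r)) := by
      have h1 : DifferentiableOn ℂ (dext (f : C(Dsc, ℂ))) (ball 0 1) := f.2
      refine h1.comp (by fun_prop) ?_
      intro w hw
      rw [mem_ball_zero_iff] at hw ⊢
      rw [norm_mul, Complex.norm_real, Real.norm_eq_abs, abs_of_pos hr0]
      rw [lt_div_iff₀ hr0] at hw
      linarith
    have hz0m : (z0 : ℂ) ∈ ball (0 : ℂ) (1 / r) := closedBall_subset_ball hR z0.2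
    have hG : DifferentiableOn ℂ (dslope F z0) (ball 0 (1 / r)) :=
      (Complex.differentiableOn_dslope (isOpen_ball.mem_nhds hz0m)).2 hF
    refine ⟨ofHol F _ hR hF, fun z => rfl, ?_⟩
    have e : ofHol F _ hR hF = (idA - algebraMap ℂ Adisc (z0 : ℂ)) * ofHol (dslope F z0) _ hR hG
        + algebraMap ℂ Adisc (F z0) := by
      apply Subtype.ext
      apply ContinuousMap.ext
      intro z
      have h := sub_smul_dslope F (z0 : ℂ) (z : ℂ)
      rw [smul_eq_mul] at h
      rw [Subalgebra.coe_add, ContinuousMap.add_apply, Subalgebra.coe_mul,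
        ContinuousMap.mul_apply, Subalgebra.coe_sub, ContinuousMap.sub_apply, coe_algebraMap_Adisc,
        coe_algebraMap_Adisc, idA_apply, ofHol_apply, ofHol_apply, h]
      ring
    rw [e, map_add, map_mul, map_sub, AlgHom.commutes, AlgHom.commutes]
    simp [hz0, hFdef]
  by_contra hne
  set ε : ℝ := ‖χ f - (f : C(Dsc, ℂ)) z0‖ / 3 with hε
  have hεpos : 0 < ε := by
    rw [hε]
    have : 0 < ‖χ f - (f : C(Dsc, ℂ)) z0‖ := norm_pos_iff.2 (sub_ne_zero.2 hne)
    positivity
  have huc : UniformContinuous (f : C(Dsc, ℂ)) :=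
    CompactSpace.uniformContinuous_of_continuous (f : C(Dsc, ℂ)).continuous
  obtain ⟨δ, hδ, hδ'⟩ := Metric.uniformContinuous_iff.1 huc ε hεpos
  set r : ℝ := max (1 / 2) (1 - δ / 2) with hr
  have hr0 : 0 < r := lt_of_lt_of_le (by norm_num) (le_max_left _ _)
  have hr1 : r < 1 := max_lt (by norm_num) (by linarith)
  have hrδ : 1 - r < δ := by
    have := le_max_right (1 / 2) (1 - δ / 2)
    rw [← hr] at this; linarith
  obtain ⟨fr, hfr, hχ⟩ := key r hr0 hr1
  have hmem : ∀ z : Dsc, (r : ℂ) * z ∈ closedBall (0 : ℂ) 1 := by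
    intro z
    have hz := mem_closedBall_zero_iff.1 z.2
    rw [mem_closedBall_zero_iff, norm_mul, Complex.norm_real, Real.norm_eq_abs, abs_of_pos hr0]
    nlinarith [norm_nonneg (z : ℂ)]
  have hclose : ∀ z : Dsc, ‖(f : C(Dsc, ℂ)) z - dext (f : C(Dsc, ℂ)) (r * z)‖ ≤ ε := by
    intro z
    rw [dext_mem _ _ (hmem z), ← dist_eq_norm]
    refine (hδ' ?_).le
    rw [Subtype.dist_eq, dist_eq_norm]
    have hz := mem_closedBall_zero_iff.1 z.2
    have : (z : ℂ) - (r : ℂ) * z = ((1 - r : ℝ) : ℂ) * z := by push_cast; ring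
    rw [this, norm_mul, Complex.norm_real, Real.norm_eq_abs, abs_of_pos (by linarith)]
    nlinarith [norm_nonneg (z : ℂ)]
  have h1 : ‖χ f - χ fr‖ ≤ ε := by
    rw [← map_sub]
    refine (hb _).trans ?_
    rw [ContinuousMap.norm_le _ hεpos.le]
    intro z
    have : ((f - fr : Adisc) : C(Dsc, ℂ)) z = (f : C(Dsc, ℂ)) z - (fr : C(Dsc, ℂ)) z := rfl
    rw [this, hfr]
    exact hclose z
  have h2 := hclose z0
  have h3 : ‖χ f - (f : C(Dsc, ℂ)) z0‖ ≤ ε + ε := by
    have e : χ f - (f : C(Dsc, ℂ)) z0 = (χ f - χ fr)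
      - ((f : C(Dsc, ℂ)) z0 - dext (f : C(Dsc, ℂ)) (r * z0)) := by rw [hχ]; ring
    rw [e]
    exact (norm_sub_le _ _).trans (add_le_add h1 h2)
  have h4 : ‖χ f - (f : C(Dsc, ℂ)) z0‖ = 3 * ε := by rw [hε]; ring
  linarith

end H57WAC
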