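import Pool.Agent.Helper57.WAC.Chars0

open Complex Polynomial Topology Metric Filter

noncomputable section

namespace H57WAC

variable (D : PD)

theorem eval_of_disc (ψ : Bsub D 0 →ₐ[ℂ] ℂ)
    (hcell : ∀ x : Bsub D 0, (∀ q, (x : C(Kpt, ℂ)) (Sum.inl q) = 0) → ψ x = 0)
    (g : Fin 5) (u : Adisc) (h0 : (u : C(Dsc, ℂ)) (D.ζ 0) = 0) (h1 : (u : C(Dsc, ℂ)) (D.ζ 1) = 0)
    (hne : ψ (discEl D g u h0 h1) ≠ 0) : ∃ q : Kpt, ∀ x : Bsub D 0, ψ x = (x : C(Kpt, ℂ)) q := by
  have hcell' : ∀ x y : Bsub D 0,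
      (∀ q, (x : C(Kpt, ℂ)) (Sum.inl q) = (y : C(Kpt, ℂ)) (Sum.inl q)) → ψ x = ψ y := by
    intro x y hxy
    rw [← sub_eq_zero, ← map_sub]
    apply hcell
    intro q
    rw [Subalgebra.coe_sub, ContinuousMap.sub_apply, hxy, sub_self]
  have hz0 : ∀ F : Adisc, ((F * u : Adisc) : C(Dsc, ℂ)) (D.ζ 0) = 0 := fun F => by
    rw [Subalgebra.coe_mul, ContinuousMap.mul_apply, h0, mul_zero]
  have hz1 : ∀ F : Adisc, ((F * u : Adisc) : C(Dsc, ℂ)) (D.ζ 1) = 0 := fun F => by
    rw [Subalgebra.coe_mul, ContinuousMap.mul_apply, h1, mul_zero]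
  set T : Adisc →ₗ[ℂ] Bsub D 0 :=
    { toFun := fun F => discEl D g (F * u) (hz0 F) (hz1 F)
      map_add' := fun F G => by
        apply Subtype.ext
        apply ContinuousMap.ext
        intro q
        rw [Subalgebra.coe_add, ContinuousMap.add_apply]
        rcases q with ⟨g', z⟩ | ⟨j', st⟩
        · simp only [discEl_inl]
          split_ifs
          · simp only [Subalgebra.coe_mul, Subalgebra.coe_add, ContinuousMap.mul_apply,
              ContinuousMap.add_apply]
            ring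
          · simp
        · simp only [discEl_inr]
          split_ifs <;>
          · try simp only [Subalgebra.coe_mul, Subalgebra.coe_add, ContinuousMap.mul_apply,
              ContinuousMap.add_apply]
            ring
      map_smul' := fun c F => by
        apply Subtype.ext
        apply ContinuousMap.ext
        intro q
        rw [RingHom.id_apply, Subalgebra.coe_smul, ContinuousMap.smul_apply]
        rcases q with ⟨g', z⟩ | ⟨j', st⟩
        · simp only [discEl_inl]
          split_ifs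
          · simp only [Subalgebra.coe_mul, Subalgebra.coe_smul, ContinuousMap.mul_apply,
              ContinuousMap.smul_apply, smul_eq_mul]
            ring
          · simp
        · simp only [discEl_inr]
          split_ifs <;>
          · simp only [Subalgebra.coe_mul, Subalgebra.coe_smul, ContinuousMap.mul_apply,
              ContinuousMap.smul_apply, smul_eq_mul]
            ring } with hT
  have hTa : ∀ F, T F = discEl D g (F * u) (hz0 F) (hz1 F) := fun F => rfl
  have k1 : ∀ F G, ψ (T F) * ψ (T G) = ψ (T (F * G)) * ψ (T 1) := by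
    intro F G
    rw [← map_mul ψ, ← map_mul ψ]
    apply hcell'
    rintro ⟨g', z⟩
    rw [Subalgebra.coe_mul, Subalgebra.coe_mul, ContinuousMap.mul_apply, ContinuousMap.mul_apply,
      hTa, hTa, hTa, hTa]
    simp only [discEl_inl]
    split_ifs
    · simp only [Subalgebra.coe_mul, ContinuousMap.mul_apply, Subalgebra.coe_one,
        ContinuousMap.one_apply]
      ring
    · ring
  have hT1 : T 1 = discEl D g u h0 h1 := by
    rw [hTa]; congr 1; exact one_mul u
  have k2 : ψ (T 1) ≠ 0 := by rw [hT1]; exact hne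
  obtain ⟨z, hz⟩ := exists_eval_Adisc (localHom (R := Bsub D 0) (S := Adisc) ψ T k1 k2)
  refine ⟨Sum.inl (g, z), fun x => ?_⟩
  have h3 := hz ⟨discC x g, discC_mem D x g⟩
  rw [localHom_apply] at h3
  have h4 : ψ (T ⟨discC x g, discC_mem D x g⟩) = ψ x * ψ (T 1) := by
    rw [← map_mul ψ]
    apply hcell'
    rintro ⟨g', z⟩
    rw [Subalgebra.coe_mul, ContinuousMap.mul_apply, hTa, hTa]
    simp only [discEl_inl]
    split_ifs with h
    · subst h
      simp only [Subalgebra.coe_mul, ContinuousMap.mul_apply, discC_apply, one_mul]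
    · ring
  rw [h4, mul_comm (ψ x), inv_mul_cancel_left₀ k2] at h3
  exact h3

/-- every character of `B_0` is an evaluation -/
theorem exists_eval_B0 (ψ : Bsub D 0 →ₐ[ℂ] ℂ) :
    ∃ q : Kpt, ∀ x : Bsub D 0, ψ x = (x : C(Kpt, ℂ)) q := by
  by_cases hc : ∃ (j : Fin 5) (u : C(II × II, ℂ)) (hu : BdZero u), ψ (cellEl D j u hu) ≠ 0
  · obtain ⟨j, u, hu, hne⟩ := hc
    exact eval_of_cell D ψ j u hu hne
  push Not at hc
  have hcell : ∀ x : Bsub D 0, (∀ q, (x : C(Kpt, ℂ)) (Sum.inl q) = 0) → ψ x = 0 := by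
    intro x hx
    rw [decomp_cells D x hx, map_sum]
    exact Finset.sum_eq_zero fun j _ => hc j _ _
  by_cases hd : ∃ (g : Fin 5) (u : Adisc) (h0 : (u : C(Dsc, ℂ)) (D.ζ 0) = 0)
      (h1 : (u : C(Dsc, ℂ)) (D.ζ 1) = 0), ψ (discEl D g u h0 h1) ≠ 0
  · obtain ⟨g, u, h0, h1, hne⟩ := hd
    exact eval_of_disc D ψ hcell g u h0 h1 hne
  push Not at hd
  refine ⟨Sum.inl (0, D.ζ 0), fun x => ?_⟩
  set c : ℂ := (x : C(Kpt, ℂ)) (Sum.inl (0, D.ζ 0)) with hcdef
  set d : Fin 5 → Adisc := fun g => ⟨discC x g, discC_mem D x g⟩ - algebraMap ℂ Adisc c with hd'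
  have hda : ∀ g z, (d g : C(Dsc, ℂ)) z = (x : C(Kpt, ℂ)) (Sum.inl (g, z)) - c := fun g z => rfl
  have hd0 : ∀ g, (d g : C(Dsc, ℂ)) (D.ζ 0) = 0 := fun g => by
    rw [hda, x.2.glue _ _ (Rel.z0 g), sub_self]
  have hd1 : ∀ g, (d g : C(Dsc, ℂ)) (D.ζ 1) = 0 := fun g => by
    rw [hda, x.2.glue _ _ (Rel.z1 g), sub_self]
  have key : ψ (x - algebraMap ℂ (Bsub D 0) c - ∑ g, discEl D g (d g) (hd0 g) (hd1 g)) = 0 := by
    apply hcell
    rintro ⟨g', z⟩
    rw [Subalgebra.coe_sub, Subalgebra.coe_sub, ContinuousMap.sub_apply, ContinuousMap.sub_apply,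
      AddSubmonoidClass.coe_finsetSum, ContinuousMap.sum_apply]
    simp only [discEl_inl, Finset.sum_ite_eq, Finset.mem_univ, if_true]
    rw [hda]
    have : ((algebraMap ℂ (Bsub D 0) c : Bsub D 0) : C(Kpt, ℂ)) (Sum.inl (g', z)) = c := rfl
    rw [this, sub_self]
  rw [map_sub ψ, map_sub ψ, AlgHom.commutes, map_sum,
    Finset.sum_eq_zero (fun g _ => hd g _ _ _), sub_zero, sub_eq_zero] at key
  exact key

end H57WAC
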