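import Pool.Agent.Helper57.WAC.Ext

open Complex Polynomial Topology Metric Filter Asymptotics

noncomputable section

namespace H57WAC

theorem eq_zero_of_isBigO {h : ℂ → ℂ} (hh : ContinuousAt h 0) (n : ℕ)
    (hO : (fun z => z ^ n * h z) =O[𝓝 0] (fun z : ℂ => z ^ (n + 1))) : h 0 = 0 := by
  have h1 : Tendsto h (𝓝[≠] 0) (𝓝 (h 0)) := hh.tendsto.mono_left nhdsWithin_le_nhds
  have h2 : h =O[𝓝[≠] 0] (fun z : ℂ => z) := by
    have h3 := (hO.mono nhdsWithin_le_nhds (l := 𝓝[≠] 0)).mul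
      (isBigO_refl (fun z : ℂ => (z ^ n)⁻¹) (𝓝[≠] 0))
    refine h3.congr' ?_ ?_
    · filter_upwards [self_mem_nhdsWithin] with z hz
      have : z ^ n ≠ 0 := pow_ne_zero _ hz
      field_simp
    · filter_upwards [self_mem_nhdsWithin] with z hz
      have : z ^ n ≠ 0 := pow_ne_zero _ hz
      field_simp
      ring
  have h3 : Tendsto (fun z : ℂ => z) (𝓝[≠] 0) (𝓝 0) := tendsto_id.mono_left nhdsWithin_le_nhds
  exact tendsto_nhds_unique h1 (h2.trans_tendsto h3)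

theorem exists_factor {f : ℂ → ℂ} (hf : AnalyticAt ℂ f 0) (n : ℕ)
    (hO : f =O[𝓝 0] (fun z : ℂ => z ^ n)) :
    ∃ h : ℂ → ℂ, AnalyticAt ℂ h 0 ∧ ∀ᶠ z in 𝓝 0, f z = z ^ n * h z := by
  induction n with
  | zero => exact ⟨f, hf, Eventually.of_forall fun z => by simp⟩
  | succ n ih =>
    have hO' : f =O[𝓝 0] (fun z : ℂ => z ^ n) :=
      hO.trans (isLittleO_pow_pow (Nat.lt_succ_self n)).isBigO
    obtain ⟨h, hh, he⟩ := ih hO'
    have h0 : h 0 = 0 := by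
      refine eq_zero_of_isBigO hh.continuousAt n (hO.congr' he (EventuallyEq.refl _ _))
    have h1 : ((1 : ℕ) : ℕ∞) ≤ analyticOrderAt h 0 := by
      rw [Nat.cast_one, Order.one_le_iff_ne_zero]
      exact hh.analyticOrderAt_ne_zero.2 h0
    obtain ⟨k, hk, hke⟩ := (natCast_le_analyticOrderAt hh).1 h1
    refine ⟨k, hk, ?_⟩
    filter_upwards [he, hke] with z h2 h3
    rw [h2, h3]
    simp only [sub_zero, pow_one, smul_eq_mul]
    ring

/-- the coefficient functional -/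
def coefL (f : ℂ → ℂ) (n : ℕ) : ℂ := limUnder (𝓝[≠] 0) (fun z => (f z - f 0) / z ^ n)

theorem tendsto_of_factor {f h : ℂ → ℂ} (hh : ContinuousAt h 0) (n : ℕ)
    (he : ∀ᶠ z in 𝓝 0, f z - f 0 = z ^ n * h z) :
    Tendsto (fun z => (f z - f 0) / z ^ n) (𝓝[≠] 0) (𝓝 (h 0)) := by
  have h1 : Tendsto h (𝓝[≠] 0) (𝓝 (h 0)) := hh.tendsto.mono_left nhdsWithin_le_nhds
  refine h1.congr' ?_
  filter_upwards [self_mem_nhdsWithin, nhdsWithin_le_nhds he] with z hz h2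
  rw [h2, mul_div_cancel_left₀ _ (pow_ne_zero _ hz)]

theorem tendsto_coefL {f : ℂ → ℂ} (hf : DifferentiableOn ℂ f (ball 0 1)) (n : ℕ)
    (hO : (fun z => f z - f 0) =O[𝓝 0] (fun z : ℂ => z ^ n)) :
    Tendsto (fun z => (f z - f 0) / z ^ n) (𝓝[≠] 0) (𝓝 (coefL f n)) := by
  have hfa : AnalyticAt ℂ (fun z => f z - f 0) 0 :=
    (hf.analyticAt ball_mem_nhds_zero).sub analyticAt_const
  obtain ⟨h, hh, he⟩ := exists_factor hfa n hO
  have h1 := tendsto_of_factor hh.continuousAt n he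
  rwa [coefL, h1.limUnder_eq]

theorem coefL_eq {f : ℂ → ℂ} {n : ℕ} {L : ℂ}
    (h : Tendsto (fun z => (f z - f 0) / z ^ n) (𝓝[≠] 0) (𝓝 L)) : coefL f n = L := h.limUnder_eq

theorem coefL_eq_zero_iff {f : ℂ → ℂ} (hf : DifferentiableOn ℂ f (ball 0 1)) (n : ℕ)
    (hO : (fun z => f z - f 0) =O[𝓝 0] (fun z : ℂ => z ^ n)) :
    coefL f n = 0 ↔ (fun z => f z - f 0) =O[𝓝 0] (fun z : ℂ => z ^ (n + 1)) := by
  have hfa : AnalyticAt ℂ (fun z => f z - f 0) 0 :=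
    (hf.analyticAt ball_mem_nhds_zero).sub analyticAt_const
  obtain ⟨h, hh, he⟩ := exists_factor hfa n hO
  have h1 := coefL_eq (tendsto_of_factor hh.continuousAt n he)
  rw [h1]
  constructor
  · intro h0
    have h2 : h =O[𝓝 0] (fun z : ℂ => z) := by
      have := hh.differentiableAt.isBigO_sub
      simpa [h0] using this
    have h3 := (isBigO_refl (fun z : ℂ => z ^ n) (𝓝 0)).mul h2
    refine h3.congr' (EventuallyEq.symm he) (Eventually.of_forall fun z => ?_)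
    simp only; ring
  · intro h2
    exact eq_zero_of_isBigO hh.continuousAt n (h2.congr' he (EventuallyEq.refl _ _))

variable (D : PD)

/-- evaluation at a point -/
def evB (ν : Fin 5 → ℕ) (q : Kpt) : Bsub D ν →ₐ[ℂ] ℂ :=
  (ContinuousMap.evalAlgHom ℂ ℂ q).comp (Bsub D ν).val

@[simp] theorem evB_apply (ν : Fin 5 → ℕ) (q : Kpt) (x : Bsub D ν) :
    evB D ν q x = (x : C(Kpt, ℂ)) q := rfl

/-- the centre of a disc -/
def ctr (g : Fin 5) : Kpt := Sum.inl (g, ⟨0, zero_mem_cb⟩)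

theorem dsc_zero (x : C(Kpt, ℂ)) (g : Fin 5) : dsc x g 0 = x (ctr g) := by
  exact dsc_coe x g ⟨0, zero_mem_cb⟩

/-- the coefficient functional on `B_ν` -/
def Dv (ν : Fin 5 → ℕ) (g : Fin 5) : Bsub D ν →ₗ[ℂ] ℂ where
  toFun x := coefL (dsc x g) (ν g + 1)
  map_add' x y := by
    have h1 := tendsto_coefL (x.2.hol g) _ (x.2.van g)
    have h2 := tendsto_coefL (y.2.hol g) _ (y.2.van g)
    apply coefL_eq
    refine (h1.add h2).congr fun z => ?_
    have e : dsc ((x + y : Bsub D ν) : C(Kpt, ℂ)) g = dsc (x : C(Kpt, ℂ)) g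
      + dsc (y : C(Kpt, ℂ)) g := dsc_add _ _ g
    rw [e]
    simp only [Pi.add_apply]; ring
  map_smul' c x := by
    have h1 := tendsto_coefL (x.2.hol g) _ (x.2.van g)
    apply coefL_eq
    refine (h1.const_mul c).congr fun z => ?_
    have e : dsc ((c • x : Bsub D ν) : C(Kpt, ℂ)) g = fun z => c * dsc (x : C(Kpt, ℂ)) g z :=
      dsc_smul _ _ g
    rw [e]
    ring

theorem Dv_mul (ν : Fin 5 → ℕ) (g : Fin 5) (x y : Bsub D ν) :
    Dv D ν g (x * y) = evB D ν (ctr g) x * Dv D ν g y + evB D ν (ctr g) y * Dv D ν g x := by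
  have h1 := tendsto_coefL (x.2.hol g) _ (x.2.van g)
  have h2 := tendsto_coefL (y.2.hol g) _ (y.2.van g)
  have h3 : Tendsto (dsc (y : C(Kpt, ℂ)) g) (𝓝[≠] 0) (𝓝 (dsc (y : C(Kpt, ℂ)) g 0)) :=
    (continuousAt_dsc_zero _ g).tendsto.mono_left nhdsWithin_le_nhds
  have h4 := (h1.mul h3).add (h2.const_mul (dsc (x : C(Kpt, ℂ)) g 0))
  have h5 : Dv D ν g (x * y) = coefL (dsc (x : C(Kpt, ℂ)) g) (ν g + 1) * dsc (y : C(Kpt, ℂ)) g 0
      + dsc (x : C(Kpt, ℂ)) g 0 * coefL (dsc (y : C(Kpt, ℂ)) g) (ν g + 1) := by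
    refine coefL_eq (h4.congr fun z => ?_)
    have e : dsc ((x * y : Bsub D ν) : C(Kpt, ℂ)) g = dsc (x : C(Kpt, ℂ)) g
      * dsc (y : C(Kpt, ℂ)) g := dsc_mul _ _ g
    rw [e]
    simp only [Pi.mul_apply]; ring
  rw [h5, dsc_zero, dsc_zero, evB_apply, evB_apply]
  simp only [Dv, LinearMap.coe_mk, AddHom.coe_mk]
  ring

theorem mem_succ_iff (ν : Fin 5 → ℕ) (g : Fin 5) (x : Bsub D ν) :
    (x : C(Kpt, ℂ)) ∈ Bsub D (Function.update ν g (ν g + 1)) ↔ Dv D ν g x = 0 := by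
  change _ ↔ coefL (dsc (x : C(Kpt, ℂ)) g) (ν g + 1) = 0
  rw [coefL_eq_zero_iff (x.2.hol g) _ (x.2.van g)]
  constructor
  · intro h
    have := h.van g
    rwa [Function.update_self] at this
  · intro h
    refine ⟨x.2.glue, x.2.hol, fun g' => ?_⟩
    by_cases hg : g' = g
    · subst hg; rw [Function.update_self]; exact h
    · rw [Function.update_of_ne hg]; exact x.2.van g'

/-- the function `z^{n}(z-ζ0)(z-ζ1)` -/
def uf (n : ℕ) : C(Dsc, ℂ) :=
  ⟨fun z => (z : ℂ) ^ n * (((z : ℂ) - D.ζ 0) * ((z : ℂ) - D.ζ 1)), by fun_prop⟩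

theorem uf_compat (n : ℕ) (g : Fin 5) : Compat D (Pi.single g (uf D n)) := by
  have h0 : ∀ g', (Pi.single g (uf D n) : Fin 5 → C(Dsc, ℂ)) g' (D.ζ 0) = 0 := by
    intro g'
    by_cases h : g' = g
    · subst h; simp [uf]
    · simp [Pi.single_eq_of_ne h]
  have h1 : ∀ g', (Pi.single g (uf D n) : Fin 5 → C(Dsc, ℂ)) g' (D.ζ 1) = 0 := by
    intro g'
    by_cases h : g' = g
    · subst h; simp [uf]
    · simp [Pi.single_eq_of_ne h]
  exact ⟨fun g' => by rw [h0, h0], fun g' => by rw [h1, h0]⟩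

theorem dext_zero (z : ℂ) : dext ((0 : C(Dsc, ℂ)) : Dsc → ℂ) z = 0 := by
  simp only [dext]; split_ifs <;> rfl

theorem Eext_uf_mem (ν : Fin 5 → ℕ) (g : Fin 5) : Eext (uf_compat D (ν g + 1) g) ∈ Bsub D ν := by
  have huf : ∀ z ∈ closedBall (0 : ℂ) 1, dext (uf D (ν g + 1)) z
      = z ^ (ν g + 1) * ((z - D.ζ 0) * (z - D.ζ 1)) := by
    intro z hz; rw [dext_mem _ z hz]; rfl
  refine Eext_mem _ ν ?_ ?_
  · intro g'
    by_cases h : g' = g
    · subst h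
      rw [Pi.single_eq_same]
      have : DifferentiableOn ℂ (fun z : ℂ => z ^ (ν g' + 1) * ((z - D.ζ 0) * (z - D.ζ 1)))
        (ball 0 1) := by fun_prop
      exact this.congr fun z hz => huf z (ball_subset_closedBall hz)
    · rw [Pi.single_eq_of_ne h]
      exact (differentiableOn_const (0 : ℂ)).congr fun z _ => dext_zero z
  · intro g'
    by_cases h : g' = g
    · subst h
      rw [Pi.single_eq_same]
      have h1 : (fun z : ℂ => z ^ (ν g' + 1) * ((z - D.ζ 0) * (z - D.ζ 1)))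
          =O[𝓝 0] (fun z : ℂ => z ^ (ν g' + 1)) := by
        have h2 : (fun z : ℂ => (z - D.ζ 0) * (z - D.ζ 1)) =O[𝓝 0] (fun _ : ℂ => (1 : ℂ)) :=
          (ContinuousAt.tendsto (by fun_prop)).isBigO_one ℂ
        simpa using (isBigO_refl (fun z : ℂ => z ^ (ν g' + 1)) (𝓝 0)).mul h2
      refine h1.congr' ?_ (EventuallyEq.refl _ _)
      filter_upwards [closedBall_mem_nhds_zero] with z hz
      rw [huf z hz, huf 0 zero_mem_cb]
      simp
    · rw [Pi.single_eq_of_ne h]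
      have : (fun z => dext ((0 : C(Dsc, ℂ)) : Dsc → ℂ) z - dext ((0 : C(Dsc, ℂ)) : Dsc → ℂ) 0)
          = fun _ => (0 : ℂ) := by
        funext z; rw [dext_zero, dext_zero, sub_zero]
      rw [this]
      exact isBigO_zero _ _

theorem Dv_ne_zero (ν : Fin 5 → ℕ) (g : Fin 5) : ∃ x : Bsub D ν, Dv D ν g x ≠ 0 := by
  refine ⟨⟨_, Eext_uf_mem D ν g⟩, ?_⟩
  have h1 : ContinuousAt (fun z : ℂ => (z - D.ζ 0) * (z - D.ζ 1)) 0 := by fun_prop
  have h2 := tendsto_of_factor (f := dsc (Eext (uf_compat D (ν g + 1) g)) g) h1 (ν g + 1) (by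
    filter_upwards [closedBall_mem_nhds_zero] with z hz
    rw [Eext, dsc_mkK, Pi.single_eq_same, dext_mem _ z hz, dext_mem _ 0 zero_mem_cb]
    simp [uf])
  have h3 : Dv D ν g ⟨_, Eext_uf_mem D ν g⟩ = _ := coefL_eq h2
  rw [h3]
  simp only [zero_sub]
  exact mul_ne_zero (neg_ne_zero.2 D.ne0) (neg_ne_zero.2 D.ne1)

theorem Dv_surjective (ν : Fin 5 → ℕ) (g : Fin 5) : Function.Surjective (Dv D ν g) := by
  obtain ⟨x, hx⟩ := Dv_ne_zero D ν g
  intro c
  refine ⟨(c / Dv D ν g x) • x, ?_⟩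
  rw [map_smul, smul_eq_mul, div_mul_cancel₀ _ hx]

end H57WAC
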