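import Mathlib

open Complex Polynomial Topology Metric Filter

noncomputable section

namespace H57WAC

/-- the closed unit disc -/
abbrev Dsc : Type := Metric.closedBall (0 : ℂ) 1

/-- the unit interval -/
abbrev II : Type := unitInterval

/-- five closed discs and five closed squares -/
abbrev Kpt : Type := (Fin 5 × Dsc) ⊕ (Fin 5 × (II × II))

open scoped Classical in
/-- extension by zero of a function on the closed disc -/
def dext (f : Dsc → ℂ) (z : ℂ) : ℂ :=
  if h : z ∈ closedBall (0 : ℂ) 1 then f ⟨z, h⟩ else 0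

/-- the component of a function on the `g`-th disc, extended by zero -/
def dsc (x : C(Kpt, ℂ)) (g : Fin 5) : ℂ → ℂ := dext fun z => x (Sum.inl (g, z))

theorem dext_coe (f : Dsc → ℂ) (z : Dsc) : dext f z = f z := by
  unfold dext; rw [dif_pos z.2]

theorem dext_mem (f : Dsc → ℂ) (z : ℂ) (h : z ∈ closedBall (0 : ℂ) 1) : dext f z = f ⟨z, h⟩ := by
  unfold dext; rw [dif_pos h]

theorem continuousOn_dext {f : Dsc → ℂ} (hf : Continuous f) :
    ContinuousOn (dext f) (closedBall 0 1) := by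
  rw [continuousOn_iff_continuous_domRestrict]
  convert hf using 1
  funext z
  exact dext_coe f z

theorem dsc_coe (x : C(Kpt, ℂ)) (g : Fin 5) (z : Dsc) : dsc x g z = x (Sum.inl (g, z)) :=
  dext_coe _ z

theorem continuousOn_dsc (x : C(Kpt, ℂ)) (g : Fin 5) : ContinuousOn (dsc x g) (closedBall 0 1) :=
  continuousOn_dext (by fun_prop)

theorem dsc_add (x y : C(Kpt, ℂ)) (g : Fin 5) : dsc (x + y) g = dsc x g + dsc y g := by
  funext z
  simp only [dsc, dext, Pi.add_apply]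
  split_ifs <;> simp

theorem dsc_mul (x y : C(Kpt, ℂ)) (g : Fin 5) : dsc (x * y) g = dsc x g * dsc y g := by
  funext z
  simp only [dsc, dext, Pi.mul_apply]
  split_ifs <;> simp

theorem dsc_sub (x y : C(Kpt, ℂ)) (g : Fin 5) : dsc (x - y) g = dsc x g - dsc y g := by
  funext z
  simp only [dsc, dext, Pi.sub_apply]
  split_ifs <;> simp

theorem dsc_smul (c : ℂ) (x : C(Kpt, ℂ)) (g : Fin 5) : dsc (c • x) g = fun z => c * dsc x g z := by
  funext z
  simp only [dsc, dext]
  split_ifs <;> simp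

theorem dsc_algebraMap (c : ℂ) (g : Fin 5) :
    Set.EqOn (dsc (algebraMap ℂ C(Kpt, ℂ) c) g) (fun _ => c) (closedBall 0 1) := by
  intro z hz
  simp only [dsc]
  rw [dext_mem _ z hz]
  rfl

theorem norm_dsc_le (x : C(Kpt, ℂ)) (g : Fin 5) (z : ℂ) : ‖dsc x g z‖ ≤ ‖x‖ := by
  simp only [dsc, dext]
  split_ifs with h
  · exact x.norm_coe_le_norm _
  · simp

theorem closedBall_mem_nhds_zero : closedBall (0 : ℂ) 1 ∈ 𝓝 (0 : ℂ) :=
  closedBall_mem_nhds _ one_pos

theorem ball_mem_nhds_zero : ball (0 : ℂ) 1 ∈ 𝓝 (0 : ℂ) := ball_mem_nhds _ one_pos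

theorem zero_mem_cb : (0 : ℂ) ∈ closedBall (0 : ℂ) 1 := by simp

theorem continuousAt_dsc_zero (x : C(Kpt, ℂ)) (g : Fin 5) : ContinuousAt (dsc x g) 0 :=
  (continuousOn_dsc x g).continuousAt closedBall_mem_nhds_zero

/-- the path data -/
structure PD where
  ζ : C(II, Dsc)
  lt0 : ‖(ζ 0 : ℂ)‖ < 1
  lt1 : ‖(ζ 1 : ℂ)‖ < 1
  ne0 : (ζ 0 : ℂ) ≠ 0
  ne1 : (ζ 1 : ℂ) ≠ 0

/-- words on the upper sides -/
def topw : Fin 5 → Fin 3 → Option (Fin 5) :=
  ![![some 0, some 1, some 0], ![some 1, some 2, some 1], ![some 2, some 3, some 2],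
    ![some 3, some 4, some 3], ![some 0, some 4, none]]

/-- words on the lower sides -/
def botw : Fin 5 → Fin 3 → Option (Fin 5) :=
  ![![some 1, some 0, some 1], ![some 2, some 1, some 2], ![some 3, some 2, some 3],
    ![some 4, some 3, some 4], ![some 2, none, none]]

/-- concatenation of three functions on the interval -/
def tr3 {α : Type*} (f : Fin 3 → II → α) (t : II) : α :=
  if h : (t : ℝ) ≤ 1 / 2 then
    if h' : 2 * (t : ℝ) ≤ 1 / 2 then
      f 0 ⟨2 * (2 * t), by have := t.2.1; constructor <;> linarith⟩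
    else f 1 ⟨2 * (2 * t) - 1, by have := t.2.1; constructor <;> linarith⟩
  else f 2 ⟨2 * t - 1, by have := t.2.2; constructor <;> linarith⟩

theorem tr3_comp {α β : Type*} (F : α → β) (f : Fin 3 → II → α) (t : II) :
    F (tr3 f t) = tr3 (fun k s => F (f k s)) t := by
  unfold tr3
  split_ifs <;> rfl

theorem tr3_path {X : Type*} [TopologicalSpace X] {a b c d : X} (p : Path a b) (q : Path b c)
    (r : Path c d) (t : II) :
    ((p.trans q).trans r) t = tr3 ![(p : II → X), (q : II → X), (r : II → X)] t := by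
  unfold tr3
  rw [Path.trans_apply]
  split_ifs with h h'
  · rw [Path.trans_apply, dif_pos h']; rfl
  · rw [Path.trans_apply, dif_neg h']; rfl
  · rfl

variable (D : PD)

/-- the point of a letter -/
def letterPt : Option (Fin 5) → II → Fin 5 × Dsc
  | none, _ => (0, D.ζ 0)
  | some g, s => (g, D.ζ s)

/-- the point of a word -/
def wordPt (w : Fin 3 → Option (Fin 5)) (t : II) : Fin 5 × Dsc := tr3 (fun k => letterPt D (w k)) t

/-- the gluing relation -/
inductive Rel : Kpt → Kpt → Prop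
  | z0 (g : Fin 5) : Rel (Sum.inl (g, D.ζ 0)) (Sum.inl (0, D.ζ 0))
  | z1 (g : Fin 5) : Rel (Sum.inl (g, D.ζ 1)) (Sum.inl (0, D.ζ 0))
  | top (j : Fin 5) (t : II) : Rel (Sum.inr (j, (0, t))) (Sum.inl (wordPt D (topw j) t))
  | bot (j : Fin 5) (t : II) : Rel (Sum.inr (j, (1, t))) (Sum.inl (wordPt D (botw j) t))
  | left (j : Fin 5) (s : II) : Rel (Sum.inr (j, (s, 0))) (Sum.inl (0, D.ζ 0))
  | right (j : Fin 5) (s : II) : Rel (Sum.inr (j, (s, 1))) (Sum.inl (0, D.ζ 0))

/-- membership in the algebra -/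
structure InB (ν : Fin 5 → ℕ) (x : C(Kpt, ℂ)) : Prop where
  glue : ∀ p q, Rel D p q → x p = x q
  hol : ∀ g, DifferentiableOn ℂ (dsc x g) (ball 0 1)
  van : ∀ g, (fun z => dsc x g z - dsc x g 0) =O[𝓝 0] (fun z : ℂ => z ^ (ν g + 1))

theorem InB.add {ν : Fin 5 → ℕ} {x y : C(Kpt, ℂ)} (hx : InB D ν x) (hy : InB D ν y) :
    InB D ν (x + y) where
  glue p q h := by
    rw [ContinuousMap.add_apply, ContinuousMap.add_apply, hx.glue p q h, hy.glue p q h]
  hol g := by rw [dsc_add]; exact (hx.hol g).add (hy.hol g)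
  van g := by
    rw [dsc_add]
    refine ((hx.van g).add (hy.van g)).congr_left fun z => ?_
    simp only [Pi.add_apply]; ring

theorem InB.mul {ν : Fin 5 → ℕ} {x y : C(Kpt, ℂ)} (hx : InB D ν x) (hy : InB D ν y) :
    InB D ν (x * y) where
  glue p q h := by
    rw [ContinuousMap.mul_apply, ContinuousMap.mul_apply, hx.glue p q h, hy.glue p q h]
  hol g := by rw [dsc_mul]; exact (hx.hol g).mul (hy.hol g)
  van g := by
    rw [dsc_mul]
    have h1 : (fun z => (dsc x g z - dsc x g 0) * dsc y g z)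
        =O[𝓝 0] (fun z : ℂ => z ^ (ν g + 1)) := by
      have h2 : (dsc y g) =O[𝓝 0] (fun _ : ℂ => (1 : ℂ)) :=
        (continuousAt_dsc_zero y g).isBigO_one ℂ
      simpa using (hx.van g).mul h2
    have h3 : (fun z => dsc x g 0 * (dsc y g z - dsc y g 0))
        =O[𝓝 0] (fun z : ℂ => z ^ (ν g + 1)) := (hy.van g).const_mul_left _
    refine (h1.add h3).congr_left fun z => ?_
    simp only [Pi.mul_apply]; ring

theorem InB.const (ν : Fin 5 → ℕ) (c : ℂ) : InB D ν (algebraMap ℂ C(Kpt, ℂ) c) where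
  glue p q _ := rfl
  hol g := by
    refine (differentiableOn_const c).congr fun z hz => ?_
    exact dsc_algebraMap c g (ball_subset_closedBall hz)
  van g := by
    have h : (fun z => dsc (algebraMap ℂ C(Kpt, ℂ) c) g z
        - dsc (algebraMap ℂ C(Kpt, ℂ) c) g 0) =ᶠ[𝓝 0] fun _ => (0 : ℂ) := by
      filter_upwards [closedBall_mem_nhds_zero] with z hz
      rw [dsc_algebraMap c g hz, dsc_algebraMap c g zero_mem_cb, sub_self]
    exact (Asymptotics.isBigO_zero _ _).congr' h.symm (EventuallyEq.refl _ _)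

/-- the algebra `B_ν` -/
def Bsub (ν : Fin 5 → ℕ) : Subalgebra ℂ C(Kpt, ℂ) where
  carrier := {x | InB D ν x}
  mul_mem' := fun hx hy => InB.mul D hx hy
  add_mem' := fun hx hy => InB.add D hx hy
  algebraMap_mem' := fun c => InB.const D ν c

theorem mem_Bsub {ν : Fin 5 → ℕ} {x : C(Kpt, ℂ)} : x ∈ Bsub D ν ↔ InB D ν x := Iff.rfl

theorem Bsub_mono {ν ν' : Fin 5 → ℕ} (h : ν ≤ ν') : Bsub D ν' ≤ Bsub D ν := by
  intro x hx
  refine ⟨hx.glue, hx.hol, fun g => (hx.van g).trans ?_⟩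
  have hg : ν g + 1 ≤ ν' g + 1 := Nat.succ_le_succ (h g)
  refine Asymptotics.IsBigO.of_bound 1 ?_
  filter_upwards [ball_mem_nhds_zero] with z hz
  rw [norm_pow, norm_pow, one_mul]
  exact pow_le_pow_of_le_one (norm_nonneg _) (by simpa using (mem_ball_zero_iff.1 hz).le) hg

theorem schwarz_dsc {ν : Fin 5 → ℕ} {x : C(Kpt, ℂ)} (hx : InB D ν x) (g : Fin 5) (z : ℂ)
    (hz : z ∈ ball (0 : ℂ) 1) :
    ‖dsc x g z - dsc x g 0‖ ≤ 2 * ‖x‖ * ‖z‖ ^ (ν g + 1) := by
  have hmaps : Set.MapsTo (dsc x g) (ball 0 1) (closedBall (dsc x g 0) (2 * ‖x‖)) := by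
    intro w _
    rw [mem_closedBall, dist_eq_norm]
    refine (norm_sub_le _ _).trans ?_
    have h1 := norm_dsc_le x g w
    have h2 := norm_dsc_le x g 0
    linarith
  have hlo : (dsc x g · - dsc x g 0) =o[𝓝 0] (fun w => ‖w - (0 : ℂ)‖ ^ (ν g)) := by
    refine (hx.van g).trans_isLittleO ?_
    have : (fun z : ℂ => z ^ (ν g + 1)) =o[𝓝 0] (fun z : ℂ => z ^ (ν g)) :=
      Asymptotics.isLittleO_pow_pow (Nat.lt_succ_self _)
    refine this.trans_isBigO ?_
    refine Asymptotics.IsBigO.of_bound 1 (Eventually.of_forall fun w => ?_)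
    simp
  have h := dist_le_mul_div_pow_of_mapsTo_ball_of_isLittleO (hx.hol g) hmaps hlo hz
  rw [dist_eq_norm, dist_zero_right, div_one] at h
  exact h

end H57WAC
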