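import Pool.Agent.Helper57.WAC.RootInc
import Pool.Agent.Helper57.WAC.Ext

open Complex Polynomial Topology Metric Filter Asymptotics

noncomputable section

namespace H57WAC

theorem root_exists {Y : Type*} [TopologicalSpace Y] [SimplyConnectedSpace Y]
    [LocallyPathConnectedSpace Y] {n : ℕ} (p : Y → ℂ[X]) (hm : ∀ y, (p y).Monic)
    (hn : ∀ y, (p y).natDegree = n + 1) (hc : ∀ i, Continuous fun y => (p y).coeff i)
    (hs : ∀ y, (p y).Separable) (y0 : Y) (z0 : ℂ) (hz : (p y0).eval z0 = 0) :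
    ∃ F : C(Y, ℂ), F y0 = z0 ∧ ∀ y, (p y).eval (F y) = 0 :=
  (existsUnique_root p hm hn hc hs y0 z0 hz).exists

theorem root_unique {Y : Type*} [TopologicalSpace Y] [SimplyConnectedSpace Y]
    [LocallyPathConnectedSpace Y] {n : ℕ} (p : Y → ℂ[X]) (hm : ∀ y, (p y).Monic)
    (hn : ∀ y, (p y).natDegree = n + 1) (hc : ∀ i, Continuous fun y => (p y).coeff i)
    (hs : ∀ y, (p y).Separable) {F F' : Y → ℂ} (hFc : Continuous F) (hFc' : Continuous F') (y0 : Y)
    (h : F y0 = F' y0) (hF : ∀ y, (p y).eval (F y) = 0) (hF' : ∀ y, (p y).eval (F' y) = 0) (y : Y) :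
    F y = F' y := by
  have h1 := (existsUnique_root p hm hn hc hs y0 (F y0) (hF y0)).unique
    (y₁ := ⟨F, hFc⟩) (y₂ := ⟨F', hFc'⟩) ⟨rfl, hF⟩ ⟨h.symm, hF'⟩
  exact congrArg (fun G : C(Y, ℂ) => G y) h1

theorem tr3_rel {α β : Type*} (R : α → β → Prop) (f : Fin 3 → II → α) (g : Fin 3 → II → β)
    (h : ∀ k s, R (f k s) (g k s)) (t : II) : R (tr3 f t) (tr3 g t) := by
  unfold tr3
  split_ifs <;> apply h

theorem exists_factor_of_root {R : Type*} [CommRing R] {p : R[X]} (hm : p.Monic)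
    (h1 : 1 < p.natDegree) (x : R) (hroot : p.IsRoot x) :
    ∃ q r : R[X], q.Monic ∧ r.Monic ∧ 0 < q.natDegree ∧ 0 < r.natDegree ∧ p = q * r := by
  have : Nontrivial R := by
    by_contra hcon
    rw [not_nontrivial_iff_subsingleton] at hcon
    have : p.natDegree = 0 := by rw [Subsingleton.elim p 0, natDegree_zero]
    omega
  obtain ⟨r, hr⟩ := dvd_iff_isRoot.2 hroot
  have hmX : (X - C x).Monic := monic_X_sub_C x
  have hrm : r.Monic := by
    rw [hr] at hm
    exact hmX.of_mul_monic_left hm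
  refine ⟨X - C x, r, hmX, hrm, by rw [natDegree_X_sub_C]; norm_num, ?_, hr⟩
  have : p.natDegree = (X - C x).natDegree + r.natDegree := by
    rw [hr]; exact hmX.natDegree_mul hrm
  rw [natDegree_X_sub_C] at this
  omega

/-- a ring of functions on `Kpt` which is (isomorphic to) the algebra `B_ν` -/
structure Model (D : PD) (ν : Fin 5 → ℕ) (R : Type*) [CommRing R] where
  e : Kpt → (R →+* ℂ)
  inB : ∀ r : R, ∃ x : C(Kpt, ℂ), InB D ν x ∧ ∀ q, e q r = x q
  sur : ∀ x : C(Kpt, ℂ), InB D ν x → ∃ r, ∀ q, e q r = x q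
  inj : ∀ r, (∀ q, e q r = 0) → r = 0

variable {D : PD} {ν : Fin 5 → ℕ} {R : Type*} [CommRing R] (M : Model D ν R) (p : R[X])

namespace Model

/-- the function of an element -/
def fn (r : R) : C(Kpt, ℂ) := (M.inB r).choose

theorem fn_inB (r : R) : InB D ν (M.fn r) := (M.inB r).choose_spec.1

theorem fn_apply (r : R) (q : Kpt) : M.fn r q = M.e q r := ((M.inB r).choose_spec.2 q).symm

theorem e_rel {q q' : Kpt} (h : Rel D q q') : M.e q = M.e q' := by
  ext r; rw [← M.fn_apply, ← M.fn_apply]; exact (M.fn_inB r).glue _ _ h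

end Model

variable (D) in
/-- the base point -/
def bp : Kpt := Sum.inl (0, D.ζ 0)

/-- the fibre polynomials -/
def fib (q : Kpt) : ℂ[X] := p.map (M.e q)

theorem fib_coeff (q : Kpt) (k : ℕ) : (fib M p q).coeff k = M.fn (p.coeff k) q := by
  rw [fib, coeff_map, M.fn_apply]

theorem fib_rel {q q' : Kpt} (h : Rel D q q') : fib M p q = fib M p q' := by
  rw [fib, fib, M.e_rel h]

variable {p}

theorem fib_monic (hm : p.Monic) (q : Kpt) : (fib M p q).Monic := hm.map _

theorem fib_natDegree (hm : p.Monic) (q : Kpt) : (fib M p q).natDegree = p.natDegree :=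
  hm.natDegree_map _

theorem fib_separable (hs : p.Separable) (q : Kpt) : (fib M p q).Separable := hs.map

variable (p)

theorem continuous_fib {Y : Type*} [TopologicalSpace Y] {f : Y → Kpt} (hf : Continuous f) (k : ℕ) :
    Continuous fun y => (fib M p (f y)).coeff k := by
  simp_rw [fib_coeff]
  exact (ContinuousMap.continuous _).comp hf

theorem exists_factor_of_fn (hm : p.Monic) (h1 : 1 < p.natDegree) (x : C(Kpt, ℂ))
    (hxB : InB D ν x) (hx : ∀ q, (fib M p q).eval (x q) = 0) :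
    ∃ q r : R[X], q.Monic ∧ r.Monic ∧ 0 < q.natDegree ∧ 0 < r.natDegree ∧ p = q * r := by
  obtain ⟨r, hr⟩ := M.sur x hxB
  refine exists_factor_of_root hm h1 r ?_
  refine M.inj _ fun q => ?_
  rw [← eval₂_at_apply, ← eval_map, hr]
  exact hx q

open scoped Classical in
/-- the fibre polynomials over a disc, extended -/
def fibE (g : Fin 5) (z : ℂ) : ℂ[X] :=
  if h : z ∈ closedBall (0 : ℂ) 1 then fib M p (Sum.inl (g, ⟨z, h⟩)) else 1

theorem fibE_mem (g : Fin 5) (z : ℂ) (h : z ∈ closedBall (0 : ℂ) 1) :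
    fibE M p g z = fib M p (Sum.inl (g, ⟨z, h⟩)) := by
  unfold fibE; rw [dif_pos h]

theorem fibE_coeff (g : Fin 5) (z : ℂ) (h : z ∈ closedBall (0 : ℂ) 1) (k : ℕ) :
    (fibE M p g z).coeff k = dsc (M.fn (p.coeff k)) g z := by
  rw [fibE_mem M p g z h, fib_coeff, dsc, dext_mem _ z h]

theorem root_hol (hm : p.Monic) (hs : p.Separable) (g : Fin 5) (F : C(Dsc, ℂ))
    (hF : ∀ z, (fib M p (Sum.inl (g, z))).eval (F z) = 0) :
    DifferentiableOn ℂ (dext F) (ball 0 1) ∧
      (fun z => dext F z - dext F 0) =O[𝓝 0] (fun z : ℂ => z ^ (ν g + 1)) := by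
  have hcb : ∀ z ∈ ball (0 : ℂ) 1, ∀ᶠ w in 𝓝 z, w ∈ closedBall (0 : ℂ) 1 := fun z hz => by
    filter_upwards [isOpen_ball.mem_nhds hz] with w hw using ball_subset_closedBall hw
  have hc : ∀ z ∈ ball (0 : ℂ) 1, ContinuousAt (dext F) z := fun z hz =>
    (continuousOn_dext F.continuous).continuousAt (hcb z hz)
  have hn : ∀ z ∈ ball (0 : ℂ) 1, ∀ᶠ w in 𝓝 z, (fibE M p g w).natDegree ≤ p.natDegree :=
    fun z hz => by
      filter_upwards [hcb z hz] with w hw
      rw [fibE_mem M p g w hw, fib_natDegree M hm]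
  have hr : ∀ z ∈ ball (0 : ℂ) 1, ∀ᶠ w in 𝓝 z, (fibE M p g w).eval (dext F w) = 0 :=
    fun z hz => by
      filter_upwards [hcb z hz] with w hw
      rw [fibE_mem M p g w hw, dext_mem _ w hw, hF]
  have hsep : ∀ z ∈ ball (0 : ℂ) 1, (fibE M p g z).Separable := fun z hz => by
    rw [fibE_mem M p g z (ball_subset_closedBall hz)]; exact fib_separable M hs _
  constructor
  · intro z hz
    refine (root_differentiableAt p.natDegree (fibE M p g) (dext F) z (hc z hz) (hn z hz)
      (hr z hz) (hsep z hz) fun k => ?_).differentiableWithinAt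
    have h1 : DifferentiableAt ℂ (dsc (M.fn (p.coeff k)) g) z :=
      ((M.fn_inB (p.coeff k)).hol g).differentiableAt (isOpen_ball.mem_nhds hz)
    refine h1.congr_of_eventuallyEq ?_
    filter_upwards [hcb z hz] with w hw using fibE_coeff M p g w hw k
  · have hz : (0 : ℂ) ∈ ball (0 : ℂ) 1 := by simp
    refine root_isBigO p.natDegree (fibE M p g) (dext F) 0 (hc 0 hz) (hn 0 hz)
      (hr 0 hz) (hsep 0 hz) _ fun k => ?_
    refine ((M.fn_inB (p.coeff k)).van g).congr' ?_ (EventuallyEq.refl _ _)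
    filter_upwards [hcb 0 hz] with w hw
    rw [fibE_coeff M p g w hw k, fibE_coeff M p g 0 zero_mem_cb k]

end H57WAC
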