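import Pool.Agent.Helper57.WAC.Last

open Topology

namespace H57WAC

/-- the evaluation homeomorphism onto the maximal ideal space -/
theorem exists_homeo' {X : Type} [TopologicalSpace X] [CompactSpace X]
    (A : Subalgebra ℂ C(X, ℂ))
    (hch : ∀ ψ : A →ₐ[ℂ] ℂ, ∃ ξ : X, ∀ F : A, ψ F = (F : C(X, ℂ)) ξ)
    (hsep : ∀ ξ ξ' : X, (∀ F : A, (F : C(X, ℂ)) ξ = (F : C(X, ℂ)) ξ') → ξ = ξ')
    (M : Type) [TopologicalSpace M] (tt : M ≃ (A →ₐ[ℂ] ℂ))
    (hM : IsInducing (fun (m : M) (a : A) => tt m a)) :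
    ∃ ε : X ≃ₜ M, ∀ ξ (F : A), tt (ε ξ) F = (F : C(X, ℂ)) ξ := by
  have hT2 : T2Space M := by
    refine T2Space.of_injective_continuous (f := fun (m : M) (a : A) => tt m a) ?_ hM.continuous
    intro m m' h
    apply tt.injective
    ext a
    exact congrFun h a
  set f : X → M := fun ξ => tt.symm ((ContinuousMap.evalAlgHom ℂ ℂ ξ).comp A.val) with hf
  have hfa : ∀ ξ (F : A), tt (f ξ) F = (F : C(X, ℂ)) ξ := fun ξ F => by
    simp only [hf, Equiv.apply_symm_apply]
    rfl
  have hfc : Continuous f := by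
    rw [hM.continuous_iff]
    refine continuous_pi fun F => ?_
    simp only [Function.comp_apply, hfa]
    exact (F : C(X, ℂ)).continuous
  have hinj : Function.Injective f := by
    intro ξ ξ' h
    apply hsep
    intro F
    rw [← hfa, ← hfa, h]
  have hsur : Function.Surjective f := by
    intro φ
    obtain ⟨ξ, hξ⟩ := hch (tt φ)
    refine ⟨ξ, ?_⟩
    apply tt.injective
    ext F
    rw [hfa, hξ]
  have hc : Continuous (Equiv.ofBijective f ⟨hinj, hsur⟩) := hfc
  exact ⟨hc.homeoOfEquivCompactToT2, fun ξ F => hfa ξ F⟩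

theorem separatesPoints_of {X : Type} [TopologicalSpace X] (S : Subalgebra ℂ C(X, ℂ))
    (hS : ∀ ξ ξ' : X, (∀ F : S, (F : C(X, ℂ)) ξ = (F : C(X, ℂ)) ξ') → ξ = ξ') :
    S.SeparatesPoints := by
  intro ξ ξ' hne
  by_contra hcon
  apply hne
  apply hS
  intro F
  by_contra hF
  exact hcon ⟨F, ⟨F, F.2, rfl⟩, hF⟩

variable {D : PD} {X : Type} [TopologicalSpace X] [CompactSpace X] [T2Space X] {κ : C(Kpt, X)}

theorem IsQ.codim' (h : IsQ D κ) (ν : Fin 5 → ℕ) (g : Fin 5) :
    Module.finrank ℂ (CB D κ ν ⧸ LinearMap.range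
      (Subalgebra.inclusion (CB_mono κ (le_update ν g))).toLinearMap) = 1 := by
  have hsur : Function.Surjective (LL (D := D) κ ν g) := by
    intro c
    obtain ⟨x, hx⟩ := Dv_surjective D ν g c
    obtain ⟨F, hF⟩ := (h.pull_bijective ν).2 x
    exact ⟨F, by rw [LL_apply, hF, hx]⟩
  have hker : LinearMap.ker (LL (D := D) κ ν g) = LinearMap.range
      (Subalgebra.inclusion (CB_mono κ (le_update ν g))).toLinearMap := by
    ext F
    rw [LinearMap.mem_ker, LL_eq_zero_iff, LinearMap.mem_range]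
    constructor
    · intro hF
      exact ⟨⟨F, hF⟩, rfl⟩
    · rintro ⟨s, rfl⟩
      exact s.2
  have e := (Submodule.quotEquivOfEq _ _ hker.symm).trans ((LL (D := D) κ ν g).quotKerEquivOfSurjective hsur)
  rw [e.finrank_eq, Module.finrank_self]

end H57WAC
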