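import Pool.Agent.Helper57.WAC.Bad

open Complex Polynomial Topology Metric Filter

noncomputable section

namespace H57WAC

theorem all_mem (J : Set (Fin 6)) (h : ∀ g a, a ∈ J → yperm g a ∈ J) (a b : Fin 6) (ha : a ∈ J) :
    b ∈ J := by
  have h01 : (0 : Fin 6) ∈ J ↔ (1 : Fin 6) ∈ J :=
    ⟨fun k => h 0 0 k, fun k => h 0 1 k⟩
  have h12 : (1 : Fin 6) ∈ J ↔ (2 : Fin 6) ∈ J :=
    ⟨fun k => h 3 1 k, fun k => h 3 2 k⟩
  have h23 : (2 : Fin 6) ∈ J ↔ (3 : Fin 6) ∈ J :=
    ⟨fun k => h 0 2 k, fun k => h 0 3 k⟩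
  have h34 : (3 : Fin 6) ∈ J ↔ (4 : Fin 6) ∈ J :=
    ⟨fun k => h 1 3 k, fun k => h 1 4 k⟩
  have h45 : (4 : Fin 6) ∈ J ↔ (5 : Fin 6) ∈ J :=
    ⟨fun k => h 2 4 k, fun k => h 2 5 k⟩
  have key : (0 : Fin 6) ∈ J := by
    fin_cases a
    · exact ha
    · exact h01.2 ha
    · exact h01.2 (h12.2 ha)
    · exact h01.2 (h12.2 (h23.2 ha))
    · exact h01.2 (h12.2 (h23.2 (h34.2 ha)))
    · exact h01.2 (h12.2 (h23.2 (h34.2 (h45.2 ha))))
  fin_cases b
  · exact key
  · exact h01.1 key
  · exact h12.1 (h01.1 key)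
  · exact h23.1 (h12.1 (h01.1 key))
  · exact h34.1 (h23.1 (h12.1 (h01.1 key)))
  · exact h45.1 (h34.1 (h23.1 (h12.1 (h01.1 key))))

theorem continuous_eval_map {Y R : Type*} [TopologicalSpace Y] [CommRing R] (e : Y → (R →+* ℂ))
    (hc : ∀ r, Continuous fun z => e z r) (v : Y → ℂ) (hv : Continuous v) (Q : R[X]) :
    Continuous fun z => (Q.map (e z)).eval (v z) := by
  simp_rw [eval_map, eval₂_eq_sum_range]
  exact continuous_finsetSum _ fun k _ => (hc _).mul (hv.pow k)

theorem strand_follow {R : Type*} [CommRing R] (g : Fin 5) (e : Dsc → (R →+* ℂ))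
    (hc : ∀ r, Continuous fun z => e z r) (Q S : R[X])
    (hP : ∀ z, (Q * S).map (e z) = rpoly (Ystr (yi g) (yj g) (tau z))) (a : Fin 6)
    (ha : (Q.map (e (zeta 0))).eval (v0 a) = 0) :
    (Q.map (e (zeta 1))).eval (v0 (yperm g a)) = 0 := by
  set v : Dsc → ℂ := fun z => Ystr (yi g) (yj g) (tau z) a with hv
  have hvc : Continuous v := by
    have h : ContinuousOn (fun z : ℂ => Ystr (yi g) (yj g) (tau z) a)
      (closedBall (0 : ℂ) 1) := fun z hz =>
      ((differentiable_pi.1 (differentiable_Ystr (yi g) (yj g)) a).differentiableAt.comp z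
        (tau_differentiableAt z (mem_closedBall_zero_iff.1 hz))).continuousAt.continuousWithinAt
    exact continuousOn_iff_continuous_domRestrict.1 h
  set A : Set Dsc := {z | (Q.map (e z)).eval (v z) = 0} with hA
  set B : Set Dsc := {z | (S.map (e z)).eval (v z) = 0} with hB
  have hAc : IsClosed A := isClosed_eq (continuous_eval_map e hc v hvc Q) continuous_const
  have hBc : IsClosed B := isClosed_eq (continuous_eval_map e hc v hvc S) continuous_const
  have hroot : ∀ z : Dsc, (rpoly (Ystr (yi g) (yj g) (tau z))).eval (v z) = 0 := by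
    intro z
    unfold rpoly
    rw [eval_prod]
    exact Finset.prod_eq_zero (Finset.mem_univ a) (by simp [hv])
  have hAB : A = Bᶜ := by
    ext z
    constructor
    · intro hz hz'
      have h1 : (Q.map (e z)).eval (v z) = 0 := hz
      have h2 : (S.map (e z)).eval (v z) = 0 := hz'
      have hs : (rpoly (Ystr (yi g) (yj g) (tau z))).Separable :=
        separable_rpoly (strands_injective g z)
      have h3 := Polynomial.Separable.aeval_derivative_ne_zero (S := ℂ) hs (x := v z)
        (by simpa using hroot z)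
      apply h3
      rw [← hP z, Polynomial.map_mul]
      simp [derivative_mul, h1, h2]
    · intro hz
      by_contra hcon
      have h1 : (Q.map (e z)).eval (v z) ≠ 0 := hcon
      have h2 : (S.map (e z)).eval (v z) ≠ 0 := hz
      have h3 := hroot z
      rw [← hP z, Polynomial.map_mul, eval_mul] at h3
      exact (mul_ne_zero h1 h2) h3
  have hclopen : IsClopen A := ⟨hAc, by rw [hAB]; exact hBc.isOpen_compl⟩
  have h0 : zeta 0 ∈ A := by
    change (Q.map (e (zeta 0))).eval (v (zeta 0)) = 0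
    have : v (zeta 0) = v0 a := by
      simp only [hv]
      rw [tau_zeta]
      have : (((0 : II) : ℝ) : ℂ) = 0 := by simp
      rw [this, Ystr_zero]
    rw [this]; exact ha
  have hpc : PreconnectedSpace Dsc :=
    Subtype.preconnectedSpace (convex_closedBall (0 : ℂ) 1).isPreconnected
  rcases isClopen_iff.1 hclopen with h | h
  · rw [h] at h0; exact absurd h0 (Set.notMem_empty _)
  · have h1 : zeta 1 ∈ A := by rw [h]; exact Set.mem_univ _
    have h2 : (Q.map (e (zeta 1))).eval (v (zeta 1)) = 0 := h1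
    have : v (zeta 1) = v0 (yperm g a) := by
      simp only [hv]
      rw [tau_zeta]
      have : (((1 : II) : ℝ) : ℂ) = 1 := by simp
      rw [this, Ystr_one]
    rw [this] at h2; exact h2

theorem irred {R : Type*} [CommRing R] [Nontrivial R] (e : Fin 5 → Dsc → (R →+* ℂ))
    (hc : ∀ g r, Continuous fun z => e g z r) (h0 : ∀ g, e g (zeta 0) = e 0 (zeta 0))
    (h1 : ∀ g, e g (zeta 1) = e 0 (zeta 0)) (Q S : R[X])
    (hP : ∀ g z, (Q * S).map (e g z) = rpoly (Ystr (yi g) (yj g) (tau z)))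
    (hQ : Q.Monic) (hS : S.Monic) (hQ0 : 0 < Q.natDegree) (hS0 : 0 < S.natDegree)
    (hdeg : (Q * S).natDegree = 6) : False := by
  rw [hQ.natDegree_mul hS] at hdeg
  set J : Set (Fin 6) := {a | (Q.map (e 0 (zeta 0))).eval (v0 a) = 0} with hJ
  have hinv : ∀ g a, a ∈ J → yperm g a ∈ J := by
    intro g a ha
    have h2 := strand_follow g (e g) (hc g) Q S (hP g) a (by rw [h0]; exact ha)
    rw [h1] at h2
    exact h2
  have hprod : ∀ a, (Q.map (e 0 (zeta 0))).eval (v0 a) * (S.map (e 0 (zeta 0))).eval (v0 a) = 0 := by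
    intro a
    rw [← eval_mul, ← Polynomial.map_mul, hP 0 (zeta 0), tau_zeta]
    have : (((0 : II) : ℝ) : ℂ) = 0 := by simp
    rw [this, Ystr_zero]
    unfold rpoly
    rw [eval_prod]
    exact Finset.prod_eq_zero (Finset.mem_univ a) (by simp)
  by_cases hne : ∃ a, a ∈ J
  · obtain ⟨a, ha⟩ := hne
    have hall := fun b => all_mem J hinv a b ha
    have := eq_zero_of_natDegree_lt_card_of_eval_eq_zero (Q.map (e 0 (zeta 0)))
      br_v0_injective hall (by rw [hQ.natDegree_map, Fintype.card_fin]; omega)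
    exact (hQ.map (e 0 (zeta 0))).ne_zero this
  · push Not at hne
    have hall : ∀ b, (S.map (e 0 (zeta 0))).eval (v0 b) = 0 := by
      intro b
      rcases mul_eq_zero.1 (hprod b) with h | h
      · exact absurd h (hne b)
      · exact h
    have := eq_zero_of_natDegree_lt_card_of_eval_eq_zero (S.map (e 0 (zeta 0)))
      br_v0_injective hall (by rw [hS.natDegree_map, Fintype.card_fin]; omega)
    exact (hS.map (e 0 (zeta 0))).ne_zero this

theorem not_wac {R : Type*} [CommRing R] [Algebra ℂ R] (e : Kpt → (R →+* ℂ))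
    (hc : ∀ r, Continuous fun q => e q r) (hrel : ∀ q q', Rel D0 q q' → e q = e q')
    (hU : ∀ r, (∀ q, e q r ≠ 0) → IsUnit r) (r : Fin 6 → R) (hr : ∀ i q, e q (r i) = x0 i q) :
    ¬ WAC R := by
  intro hW
  have hnt : Nontrivial R := by
    refine ⟨⟨0, 1, fun h => ?_⟩⟩
    have := congrArg (e (Sum.inl (0, zeta 0))) h
    simp at this
  have hmap : ∀ q, (badP r).map (e q) = mpoly (fun i => x0 i q) := by
    intro q
    rw [badP_map, badP_complex]
    congr 1
    funext i; exact hr i q
  have hdeg : (badP r).natDegree = 6 := badP_natDegree r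
  have hunit : IsUnit (badP r).discr := by
    apply hU
    intro q
    refine discr_ne_zero (e q) (badP_monic r) (by rw [hdeg]; norm_num) ?_
    rw [hmap]
    exact separable_x0 q
  obtain ⟨Q, S, hQ, hS, hQ0, hS0, he⟩ := hW (badP r) (badP_monic r) (by rw [hdeg]; norm_num) hunit
  refine irred (fun g z => e (Sum.inl (g, z))) (fun g r => (hc r).comp (by fun_prop))
    (fun g => hrel _ _ (Rel.z0 g)) (fun g => hrel _ _ (Rel.z1 g)) Q S ?_ hQ hS hQ0 hS0
    (by rw [← he, hdeg])
  intro g z
  rw [← he, hmap, mpoly_x0_inl]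

end H57WAC
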