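import Pool.Agent.Helper57.WAC.Quot

open Complex Polynomial Topology Metric Filter

noncomputable section

set_option linter.unusedSectionVars false

namespace H57WAC

theorem exists_quot (D : PD) : ∃ (X : Type) (_ : TopologicalSpace X) (_ : CompactSpace X)
    (_ : T2Space X) (κ : C(Kpt, X)), IsQ D κ := by
  set f : Kpt → (Bsub D 0 → ℂ) := fun q x => (x : C(Kpt, ℂ)) q with hf
  have hfc : Continuous f := continuous_pi fun x => (x : C(Kpt, ℂ)).continuous
  have hcomp : CompactSpace (Set.range f) := isCompact_iff_compactSpace.1 (isCompact_range hfc)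
  refine ⟨Set.range f, inferInstance, hcomp, inferInstance,
    ⟨fun q => ⟨f q, q, rfl⟩, hfc.subtype_mk _⟩, ?_⟩
  refine ⟨?_, ?_, ?_, ?_⟩
  · rintro ⟨_, q, rfl⟩
    exact ⟨q, rfl⟩
  · intro x hx
    exact ⟨⟨fun ξ => ξ.1 ⟨x, hx⟩, (continuous_apply _).comp continuous_subtype_val⟩, fun q => rfl⟩
  · intro q q' hq
    apply Subtype.ext
    funext x
    exact x.2.glue q q' hq
  · intro q q' hq
    apply Subtype.ext
    funext x
    exact hq x x.2

variable {D : PD} {X : Type} [TopologicalSpace X] [CompactSpace X] [T2Space X] {κ : C(Kpt, X)}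

theorem IsQ.connected (h : IsQ D κ) : ConnectedSpace X := by
  have hne : Nonempty X := ⟨κ (bp D)⟩
  set U : Fin 5 ⊕ Fin 5 → Set X := Sum.elim
    (fun g => Set.range fun z : Dsc => κ (Sum.inl (g, z)))
    (fun j => Set.range fun st : II × II => κ (Sum.inr (j, st))) with hU
  have h1 : ∀ i, κ (bp D) ∈ U i := by
    rintro (g | j)
    · exact ⟨D.ζ 0, h.rel _ _ (Rel.z0 g)⟩
    · exact ⟨(0, 0), h.rel _ _ (Rel.left j 0)⟩
  have h2 : ∀ i, IsPreconnected (U i) := by
    rintro (g | j)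
    · exact isPreconnected_range (by fun_prop)
    · exact isPreconnected_range (by fun_prop)
  have h3 : IsPreconnected (⋃ i, U i) := isPreconnected_iUnion ⟨κ (bp D), Set.mem_iInter.2 h1⟩ h2
  have h4 : (⋃ i, U i) = Set.univ := by
    rw [Set.eq_univ_iff_forall]
    intro ξ
    obtain ⟨q, rfl⟩ := h.sur ξ
    rw [Set.mem_iUnion]
    rcases q with ⟨g, z⟩ | ⟨j, st⟩
    · exact ⟨Sum.inl g, z, rfl⟩
    · exact ⟨Sum.inr j, st, rfl⟩
  rw [h4] at h3
  have : PreconnectedSpace X := ⟨h3⟩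
  exact { toNonempty := hne }

theorem IsQ.codim (h : IsQ D κ) (ν : Fin 5 → ℕ) (g : Fin 5) :
    Module.finrank ℂ (↥(Subalgebra.toSubmodule (CB D κ ν)) ⧸
      (Subalgebra.toSubmodule (CB D κ (Function.update ν g (ν g + 1)))).submoduleOf
        (Subalgebra.toSubmodule (CB D κ ν))) = 1 := by
  set L : ↥(Subalgebra.toSubmodule (CB D κ ν)) →ₗ[ℂ] ℂ :=
    (LL κ ν g).comp (Subalgebra.toSubmoduleEquiv (CB D κ ν)).toLinearMap with hL
  have hLa : ∀ F : ↥(Subalgebra.toSubmodule (CB D κ ν)),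
      L F = LL κ ν g (Subalgebra.toSubmoduleEquiv (CB D κ ν) F) := fun F => rfl
  have hsur : Function.Surjective L := by
    intro c
    obtain ⟨x, hx⟩ := Dv_surjective D ν g c
    obtain ⟨F, hF⟩ := (h.pull_bijective ν).2 x
    refine ⟨(Subalgebra.toSubmoduleEquiv (CB D κ ν)).symm F, ?_⟩
    rw [hLa, LinearEquiv.apply_symm_apply, LL_apply, hF, hx]
  have hker : LinearMap.ker L = (Subalgebra.toSubmodule
      (CB D κ (Function.update ν g (ν g + 1)))).submoduleOf
        (Subalgebra.toSubmodule (CB D κ ν)) := by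
    ext F
    rw [LinearMap.mem_ker, hLa, LL_eq_zero_iff]
    rfl
  have e := (Submodule.quotEquivOfEq _ _ hker.symm).trans (L.quotKerEquivOfSurjective hsur)
  rw [e.finrank_eq, Module.finrank_self]

theorem inv_InB {x : C(Kpt, ℂ)} (hx : InB D 0 x) (y : C(Kpt, ℂ)) (hy : ∀ q, y q = (x q)⁻¹)
    (h0 : ∀ q, x q ≠ 0) : InB D 0 y := by
  have hhol : ∀ g, DifferentiableOn ℂ (dsc y g) (ball 0 1) := by
    intro g
    have h1 : DifferentiableOn ℂ (fun z => (dsc x g z)⁻¹) (ball 0 1) := by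
      refine (hx.hol g).inv fun z hz => ?_
      rw [dsc, dext_mem _ z (ball_subset_closedBall hz)]
      exact h0 _
    refine h1.congr fun z hz => ?_
    rw [dsc, dsc, dext_mem _ z (ball_subset_closedBall hz),
      dext_mem _ z (ball_subset_closedBall hz)]
    exact hy _
  exact ⟨fun p q hpq => by rw [hy, hy, hx.glue p q hpq], hhol, fun g => van_zero (hhol g)⟩

theorem IsQ.isUnit_of_ne (h : IsQ D κ) (F : CB D κ 0) (hF : ∀ q, (F : C(X, ℂ)) (κ q) ≠ 0) :
    IsUnit F := by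
  have h1 : ∀ ξ, (F : C(X, ℂ)) ξ ≠ 0 := by
    intro ξ
    obtain ⟨q, rfl⟩ := h.sur ξ
    exact hF q
  set G : C(X, ℂ) := ⟨fun ξ => ((F : C(X, ℂ)) ξ)⁻¹,
    (F : C(X, ℂ)).continuous.inv₀ h1⟩ with hG
  have hGm : G ∈ CB D κ 0 := by
    rw [mem_CB]
    exact inv_InB F.2 _ (fun q => rfl) hF
  refine IsUnit.of_mul_eq_one ⟨G, hGm⟩ ?_
  apply Subtype.ext
  apply ContinuousMap.ext
  intro ξ
  exact mul_inv_cancel₀ (h1 ξ)

variable {κ : C(Kpt, X)}

theorem not_wac_zero (h : IsQ D0 κ) : ¬ WAC (CB D0 κ 0) := by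
  choose r hr using fun i => h.lift' (x0_mem i)
  refine not_wac (h.model 0).e ?_ ?_ ?_ (fun i => ⟨r i, (hr i).1⟩) ?_
  · intro F
    exact (F : C(X, ℂ)).continuous.comp κ.continuous
  · intro q q' hq
    exact (h.model 0).e_rel hq
  · intro F hF
    exact h.isUnit_of_ne F hF
  · intro i q
    exact (hr i).2 q

theorem not_wac_CM (h : IsQ D0 κ) {Y : Type} [TopologicalSpace Y] (ε : X ≃ₜ Y) :
    ¬ WAC C(Y, ℂ) := by
  choose r hr using fun i => h.lift' (x0_mem i)
  refine not_wac (fun q => (ContinuousMap.evalAlgHom ℂ ℂ (ε (κ q)) : C(Y, ℂ) →ₐ[ℂ] ℂ)) ?_ ?_ ?_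
    (fun i => (r i).comp ⟨ε.symm, ε.symm.continuous⟩) ?_
  · intro F
    exact F.continuous.comp (ε.continuous.comp κ.continuous)
  · intro q q' hq
    rw [h.rel q q' hq]
  · intro F hF
    rw [ContinuousMap.isUnit_iff_forall_ne_zero]
    intro y
    obtain ⟨ξ, rfl⟩ := ε.surjective y
    obtain ⟨q, rfl⟩ := h.sur ξ
    exact hF q
  · intro i q
    change r i (ε.symm (ε (κ q))) = _
    rw [ε.symm_apply_apply]
    exact (hr i).2 q

theorem exists_step (h : IsQ D0 κ) : ∃ (ν : Fin 5 → ℕ) (g : Fin 5), ¬ WAC (CB D0 κ ν) ∧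
    WAC (CB D0 κ (Function.update ν g (ν g + 1))) := by
  by_contra hcon
  push Not at hcon
  have h1 : ∀ ν : Fin 5 → ℕ, ¬ WAC (CB D0 κ ν) :=
    nu_induction (not_wac_zero h) fun ν g hν => hcon ν g hν
  obtain ⟨N, hN⟩ := wac_of_large D0
  exact h1 (fun _ => N) (hN (fun _ => N) (fun _ => le_rfl) _ (h.model _))

end H57WAC
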