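import Pool.Agent.Helper57.WAC.WACB
import Pool.Agent.Helper57.WAC.Irred
import Pool.Agent.Helper57.WAC.Chars1

open Complex Polynomial Topology Metric Filter

noncomputable section

set_option linter.unusedSectionVars false

namespace H57WAC

/-- the evaluation homeomorphism onto the maximal ideal space -/
theorem exists_homeo {X : Type*} [TopologicalSpace X] [CompactSpace X] [T2Space X]
    (A : Subalgebra ℂ C(X, ℂ)) (hA : IsClosed (A : Set C(X, ℂ)))
    (hch : ∀ ψ : A →ₐ[ℂ] ℂ, ∃ ξ : X, ∀ F : A, ψ F = (F : C(X, ℂ)) ξ)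
    (hsep : ∀ ξ ξ' : X, (∀ F : A, (F : C(X, ℂ)) ξ = (F : C(X, ℂ)) ξ') → ξ = ξ') :
    ∃ ε : X ≃ₜ WeakDual.characterSpace ℂ A, ∀ ξ (F : A), ε ξ F = (F : C(X, ℂ)) ξ := by
  have : CompleteSpace A := hA.completeSpace_coe
  set f : X → WeakDual.characterSpace ℂ A := fun ξ =>
    WeakDual.CharacterSpace.equivAlgHom.symm
      ((ContinuousMap.evalAlgHom ℂ ℂ ξ).comp A.val) with hf
  have hfa : ∀ ξ (F : A), f ξ F = (F : C(X, ℂ)) ξ := fun ξ F => rfl
  have hfc : Continuous f := by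
    rw [continuous_induced_rng]
    refine WeakDual.continuous_of_continuous_eval fun F => ?_
    exact (F : C(X, ℂ)).continuous
  have hinj : Function.Injective f := by
    intro ξ ξ' h
    apply hsep
    intro F
    rw [← hfa, ← hfa, h]
  have hsur : Function.Surjective f := by
    intro φ
    obtain ⟨ξ, hξ⟩ := hch (WeakDual.CharacterSpace.equivAlgHom φ)
    refine ⟨ξ, ?_⟩
    apply WeakDual.CharacterSpace.equivAlgHom.injective
    ext F
    exact (hξ F).symm
  have hc : Continuous (Equiv.ofBijective f ⟨hinj, hsur⟩) := hfc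
  refine ⟨hc.homeoOfEquivCompactToT2, fun ξ F => hfa ξ F⟩

variable {D : PD} {X : Type} [TopologicalSpace X] [CompactSpace X] [T2Space X] (κ : C(Kpt, X))

variable (D) in
/-- the algebra `B_ν` as an algebra of functions on `X` -/
def CB (ν : Fin 5 → ℕ) : Subalgebra ℂ C(X, ℂ) :=
  (Bsub D ν).comap (ContinuousMap.compRightAlgHom ℂ ℂ κ)

theorem mem_CB {ν : Fin 5 → ℕ} {F : C(X, ℂ)} : F ∈ CB D κ ν ↔ InB D ν (F.comp κ) := Iff.rfl

theorem isClosed_CB (ν : Fin 5 → ℕ) : IsClosed (CB D κ ν : Set C(X, ℂ)) := by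
  have h : Continuous (fun F : C(X, ℂ) => F.comp κ) := κ.continuous_precomp
  exact (isClosed_Bsub D ν).preimage h

theorem CB_mono {ν ν' : Fin 5 → ℕ} (h : ν ≤ ν') : CB D κ ν' ≤ CB D κ ν := by
  intro F hF
  exact Bsub_mono D h hF

/-- the properties of the quotient map -/
structure IsQ (D : PD) (κ : C(Kpt, X)) : Prop where
  sur : Function.Surjective κ
  lift : ∀ x : C(Kpt, ℂ), InB D 0 x → ∃ F : C(X, ℂ), ∀ q, F (κ q) = x q
  rel : ∀ q q', Rel D q q' → κ q = κ q'
  sep : ∀ q q', (∀ x, InB D 0 x → x q = x q') → κ q = κ q'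

variable {κ}

theorem IsQ.lift' (h : IsQ D κ) {ν : Fin 5 → ℕ} {x : C(Kpt, ℂ)} (hx : InB D ν x) :
    ∃ F ∈ CB D κ ν, ∀ q, F (κ q) = x q := by
  obtain ⟨F, hF⟩ := h.lift x (Bsub_mono D (fun g => Nat.zero_le (ν g)) hx)
  refine ⟨F, ?_, hF⟩
  rw [mem_CB]
  have : F.comp κ = x := by ext q; exact hF q
  rw [this]; exact hx

/-- pull back to the discs and squares -/
def pull (ν : Fin 5 → ℕ) : CB D κ ν →ₐ[ℂ] Bsub D ν :=
  ((ContinuousMap.compRightAlgHom ℂ ℂ κ).comp (CB D κ ν).val).codRestrict (Bsub D ν) fun F => F.2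

theorem pull_apply (ν : Fin 5 → ℕ) (F : CB D κ ν) (q : Kpt) :
    (pull ν F : C(Kpt, ℂ)) q = (F : C(X, ℂ)) (κ q) := rfl

theorem IsQ.pull_bijective (h : IsQ D κ) (ν : Fin 5 → ℕ) :
    Function.Bijective (pull (D := D) (κ := κ) ν) := by
  constructor
  · intro F G hFG
    apply Subtype.ext
    apply ContinuousMap.ext
    intro ξ
    obtain ⟨q, rfl⟩ := h.sur ξ
    rw [← pull_apply, ← pull_apply, hFG]
  · intro x
    obtain ⟨F, hF, hFx⟩ := h.lift' x.2
    refine ⟨⟨F, hF⟩, ?_⟩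
    apply Subtype.ext
    apply ContinuousMap.ext
    intro q
    exact hFx q

/-- the model of `B_ν` -/
def IsQ.model (h : IsQ D κ) (ν : Fin 5 → ℕ) : Model D ν (CB D κ ν) where
  e q := ((ContinuousMap.evalAlgHom ℂ ℂ (κ q)).comp (CB D κ ν).val : CB D κ ν →ₐ[ℂ] ℂ)
  inB F := ⟨(F : C(X, ℂ)).comp κ, F.2, fun q => rfl⟩
  sur x hx := by
    obtain ⟨F, hF, hFx⟩ := h.lift' hx
    exact ⟨⟨F, hF⟩, hFx⟩
  inj F hF := by
    apply Subtype.ext
    apply ContinuousMap.ext
    intro ξ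
    obtain ⟨q, rfl⟩ := h.sur ξ
    exact hF q

theorem nu_induction {P : (Fin 5 → ℕ) → Prop} (h0 : P 0)
    (hs : ∀ ν g, P ν → P (Function.update ν g (ν g + 1))) (ν : Fin 5 → ℕ) : P ν := by
  suffices ∀ n : ℕ, ∀ ν : Fin 5 → ℕ, ∑ g, ν g = n → P ν from this _ ν rfl
  intro n
  induction n with
  | zero =>
    intro ν hν
    have : ν = 0 := by
      funext g
      exact (Finset.sum_eq_zero_iff.1 hν) g (Finset.mem_univ g)
    rw [this]; exact h0
  | succ n ih =>
    intro ν hν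
    obtain ⟨g, hg⟩ : ∃ g, ν g ≠ 0 := by
      by_contra hcon
      push Not at hcon
      rw [Finset.sum_eq_zero fun g _ => hcon g] at hν
      omega
    set ν' := Function.update ν g (ν g - 1) with hν'
    have e : ν = Function.update ν' g (ν' g + 1) := by
      rw [hν', Function.update_self, Function.update_idem]
      have : ν g - 1 + 1 = ν g := by omega
      rw [this, Function.update_eq_self]
    rw [e]
    apply hs
    apply ih
    have h1 : ∑ x, ν x = (∑ x, ν' x) + 1 := by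
      conv_lhs => rw [e]
      rw [Finset.sum_update_of_mem (Finset.mem_univ g),
        ← Finset.add_sum_erase Finset.univ ν' (Finset.mem_univ g)]
      have : Finset.univ \ {g} = Finset.univ.erase g := by
        ext x; simp
      rw [this]
      ring
    omega

theorem le_update (ν : Fin 5 → ℕ) (g : Fin 5) : ν ≤ Function.update ν g (ν g + 1) := by
  intro g'
  by_cases h : g' = g
  · subst h; rw [Function.update_self]; exact Nat.le_succ _
  · rw [Function.update_of_ne h]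

/-- the coefficient functional on functions on `X` -/
def LL (κ : C(Kpt, X)) (ν : Fin 5 → ℕ) (g : Fin 5) : CB D κ ν →ₗ[ℂ] ℂ :=
  (Dv D ν g).comp (pull ν).toLinearMap

theorem LL_apply (ν : Fin 5 → ℕ) (g : Fin 5) (F : CB D κ ν) : LL κ ν g F = Dv D ν g (pull ν F) :=
  rfl

theorem LL_eq_zero_iff (ν : Fin 5 → ℕ) (g : Fin 5) (F : CB D κ ν) :
    LL κ ν g F = 0 ↔ (F : C(X, ℂ)) ∈ CB D κ (Function.update ν g (ν g + 1)) := by
  rw [LL_apply, ← mem_succ_iff]; rfl

theorem IsQ.restrict (_h : IsQ D κ) (ν : Fin 5 → ℕ) (g : Fin 5) :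
    Function.Bijective (fun ψ : CB D κ ν →ₐ[ℂ] ℂ =>
      ψ.comp (Subalgebra.inclusion (CB_mono κ (le_update ν g)))) := by
  refine restrict_bijective (Subalgebra.inclusion (CB_mono κ (le_update ν g)))
    (Subalgebra.inclusion_injective _)
    ((ContinuousMap.evalAlgHom ℂ ℂ (κ (ctr g))).comp (CB D κ ν).val) (LL κ ν g) ?_ ?_
  · intro F
    rw [LL_eq_zero_iff]
    constructor
    · intro hF
      exact ⟨⟨F, hF⟩, rfl⟩
    · rintro ⟨s, rfl⟩
      exact s.2
  · intro F G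
    rw [LL_apply, LL_apply, LL_apply, map_mul, Dv_mul]
    rfl

theorem IsQ.chars (h : IsQ D κ) (ν : Fin 5 → ℕ) :
    (∀ ψ : CB D κ ν →ₐ[ℂ] ℂ, ∃ ξ : X, ∀ F : CB D κ ν, ψ F = (F : C(X, ℂ)) ξ) ∧
    (∀ ξ ξ' : X, (∀ F : CB D κ ν, (F : C(X, ℂ)) ξ = (F : C(X, ℂ)) ξ') → ξ = ξ') := by
  induction ν using nu_induction with
  | h0 =>
    constructor
    · intro ψ
      set E : CB D κ 0 ≃ₐ[ℂ] Bsub D 0 := AlgEquiv.ofBijective (pull 0) (h.pull_bijective 0) with hE
      obtain ⟨q, hq⟩ := exists_eval_B0 D (ψ.comp E.symm.toAlgHom)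
      refine ⟨κ q, fun F => ?_⟩
      have h1 := hq (E F)
      have h2 : (ψ.comp E.symm.toAlgHom) (E F) = ψ F := by
        simp
      rw [h2] at h1
      exact h1
    · intro ξ ξ' hF
      obtain ⟨q, rfl⟩ := h.sur ξ
      obtain ⟨q', rfl⟩ := h.sur ξ'
      apply h.sep
      intro x hx
      obtain ⟨F, hF', hFx⟩ := h.lift' hx
      have := hF ⟨F, hF'⟩
      rw [← hFx, ← hFx]
      exact this
  | hs ν g ih =>
    constructor
    · intro ψ
      obtain ⟨ψ', hψ'⟩ := (h.restrict ν g).2 ψ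
      obtain ⟨ξ, hξ⟩ := ih.1 ψ'
      refine ⟨ξ, fun F => ?_⟩
      have h1 := congrArg (fun φ : CB D κ (Function.update ν g (ν g + 1)) →ₐ[ℂ] ℂ => φ F) hψ'
      simp only [AlgHom.comp_apply] at h1
      rw [← h1, hξ]
      rfl
    · intro ξ ξ' hF
      apply ih.2
      have h1 := (h.restrict ν g).1 (a₁ := (ContinuousMap.evalAlgHom ℂ ℂ ξ).comp (CB D κ ν).val)
        (a₂ := (ContinuousMap.evalAlgHom ℂ ℂ ξ').comp (CB D κ ν).val) (by
          ext F
          exact hF F)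
      intro F
      exact congrArg (fun φ : CB D κ ν →ₐ[ℂ] ℂ => φ F) h1

end H57WAC
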