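import Mathlib

open Complex

namespace H57WAC

/-- almost conformality of a permutation of a family of points -/
def AlmostConformal {ι : Type*} (x : ι → ℂ) (δ : ℝ) (s : Equiv.Perm ι) : Prop :=
  ∀ i j l : ι, i ≠ j → i ≠ l → j ≠ l → ‖x i - x j‖ ≤ 10 * ‖x i - x l‖ →
    ‖(x (s i) - x (s j)) / (x (s i) - x (s l)) - (x i - x j) / (x i - x l)‖ ≤ δ

theorem small_beta_core (α β : Fin 5 → ℂ) (δ : ℝ) (hδ : δ ≤ 1 / 10 ^ 9)
    (p01 : ‖α 0 - α 1‖ ≤ 5 / 10 ^ 6) (p12 : ‖α 1 - α 2‖ ≤ 5 / 10 ^ 6)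
    (p23 : ‖α 2 - α 3‖ ≤ 5 / 10 ^ 6) (p34 : ‖α 3 - α 4‖ ≤ 5 / 10 ^ 6)
    (q01 : ‖(β 0 + α 0 * (β 1 + α 1 * β 0)) - (β 1 + α 1 * (β 0 + α 0 * β 1))‖ ≤ 24 * δ)
    (q12 : ‖(β 1 + α 1 * (β 2 + α 2 * β 1)) - (β 2 + α 2 * (β 1 + α 1 * β 2))‖ ≤ 24 * δ)
    (q23 : ‖(β 2 + α 2 * (β 3 + α 3 * β 2)) - (β 3 + α 3 * (β 2 + α 2 * β 3))‖ ≤ 24 * δ)
    (q34 : ‖(β 3 + α 3 * (β 4 + α 4 * β 3)) - (β 4 + α 4 * (β 3 + α 3 * β 4))‖ ≤ 24 * δ)
    (hA : ∀ g, ‖α g‖ ≤ 3) (hA' : ∀ g, 1 / 10 ≤ ‖α g‖) (hB : ∀ g, ‖β g‖ ≤ 1)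
    (t1 : ‖β 2 - (β 4 + α 4 * β 0)‖ ≤ 3 * δ)
    (t2 : ‖(β 2 + α 2) - (β 4 + α 4 * (β 0 + α 0))‖ ≤ 3 * δ) (g : Fin 5) :
    ‖β g‖ ≤ 1 / 2 := by
  have e9 : (1 : ℝ) / 10 ^ 9 = 0.000000001 := by norm_num
  have e8 : (1 : ℝ) / 10 ^ 8 = 0.00000001 := by norm_num
  have e6 : (5 : ℝ) / 10 ^ 6 = 0.000005 := by norm_num
  have e5 : (1 : ℝ) / 10 ^ 5 = 0.00001 := by norm_num
  rw [e9] at hδ
  rw [e6] at p01 p12 p23 p34
  -- linear parts
  have k1 : ‖β 2 - (β 4 + α 4 * β 0)‖ ≤ 0.00000001 := by linarith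
  have k2 : ‖α 2 - α 4 * α 0‖ ≤ 0.00000001 := by
    have e : α 2 - α 4 * α 0 = ((β 2 + α 2) - (β 4 + α 4 * (β 0 + α 0)))
      - (β 2 - (β 4 + α 4 * β 0)) := by ring
    rw [e]
    refine (norm_sub_le _ _).trans ?_
    linarith
  have d02 : ‖α 0 - α 2‖ ≤ 0.00001 := by
    have e : α 0 - α 2 = (α 0 - α 1) + (α 1 - α 2) := by ring
    rw [e]; refine (norm_add_le _ _).trans ?_
    linarith
  have d24 : ‖α 2 - α 4‖ ≤ 0.00001 := by
    have e : α 2 - α 4 = (α 2 - α 3) + (α 3 - α 4) := by ring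
    rw [e]; refine (norm_add_le _ _).trans ?_
    linarith
  have k3 : ‖α 2 * (α 2 - 1)‖ ≤ 0.00007 := by
    have e : α 2 * (α 2 - 1) = α 2 * (α 2 - α 4) - α 4 * (α 0 - α 2) - (α 2 - α 4 * α 0) := by ring
    rw [e]
    refine (norm_sub_le _ _).trans ?_
    have h1 : ‖α 2 * (α 2 - α 4) - α 4 * (α 0 - α 2)‖ ≤ 3 * 0.00001 + 3 * 0.00001 := by
      refine (norm_sub_le _ _).trans ?_
      rw [norm_mul, norm_mul]
      have h2 := hA 2
      have h4 := hA 4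
      gcongr
    linarith
  have k4 : ‖α 2 - 1‖ ≤ 0.0007 := by
    rw [norm_mul] at k3
    have h := hA' 2
    have : (1 / 10 : ℝ) * ‖α 2 - 1‖ ≤ ‖α 2‖ * ‖α 2 - 1‖ := by gcongr
    linarith
  have k5 : ∀ g, ‖α g - 1‖ ≤ 0.001 := by
    have key : ∀ g, ‖α g - α 2‖ ≤ 0.00001 → ‖α g - 1‖ ≤ 0.001 := by
      intro g hg
      have e : α g - 1 = (α g - α 2) + (α 2 - 1) := by ring
      rw [e]; refine (norm_add_le _ _).trans ?_
      linarith
    intro g
    apply key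
    fin_cases g
    · exact d02
    · change ‖α 1 - α 2‖ ≤ _
      linarith
    · change ‖α 2 - α 2‖ ≤ _
      rw [sub_self, norm_zero]; norm_num
    · change ‖α 3 - α 2‖ ≤ _
      rw [norm_sub_rev]; linarith
    · change ‖α 4 - α 2‖ ≤ _
      rw [norm_sub_rev]; exact d24
  -- translation parts
  have bnd : ∀ s u : Fin 5, ‖(α s - 1) * β u + (α s * (α u - 1) + (α s - 1)) * β s‖
      ≤ 0.006 := by
    intro s u
    have h1 : ‖(α s - 1) * β u‖ ≤ 0.001 * 1 := by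
      rw [norm_mul]; have := k5 s; have := hB u; gcongr
    have h2 : ‖(α s * (α u - 1) + (α s - 1)) * β s‖ ≤ (3 * 0.001 + 0.001) * 1 := by
      rw [norm_mul]
      have h3 : ‖α s * (α u - 1) + (α s - 1)‖ ≤ 3 * 0.001 + 0.001 := by
        refine (norm_add_le _ _).trans ?_
        rw [norm_mul]; have := k5 s; have := k5 u; have := hA s; gcongr
      have := hB s
      gcongr
    refine (norm_add_le _ _).trans ?_
    linarith
  have tr : ∀ s u : Fin 5, ‖(β s + α s * (β u + α u * β s)) - (β u + α u * (β s + α s * β u))‖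
      ≤ 24 * δ → ‖β s - β u‖ ≤ 0.02 := by
    intro s u h
    have e : β s - β u = ((β s + α s * (β u + α u * β s)) - (β u + α u * (β s + α s * β u)))
        - ((α s - 1) * β u + (α s * (α u - 1) + (α s - 1)) * β s)
        + ((α u - 1) * β s + (α u * (α s - 1) + (α u - 1)) * β u) := by ring
    have b1 := bnd s u
    have b2 := bnd u s
    rw [e]
    refine (norm_add_le _ _).trans ?_
    have := norm_sub_le ((β s + α s * (β u + α u * β s)) - (β u + α u * (β s + α s * β u)))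
      ((α s - 1) * β u + (α s * (α u - 1) + (α s - 1)) * β s)
    linarith
  have r01 := tr 0 1 q01
  have r12 := tr 1 2 q12
  have r23 := tr 2 3 q23
  have r34 := tr 3 4 q34
  have r02 : ‖β 0 - β 2‖ ≤ 0.04 := by
    have e : β 0 - β 2 = (β 0 - β 1) + (β 1 - β 2) := by ring
    rw [e]; refine (norm_add_le _ _).trans ?_; linarith
  have r24 : ‖β 2 - β 4‖ ≤ 0.04 := by
    have e : β 2 - β 4 = (β 2 - β 3) + (β 3 - β 4) := by ring
    rw [e]; refine (norm_add_le _ _).trans ?_; linarith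
  have r2 : ‖β 2‖ ≤ 0.1 := by
    have e : β 2 = (β 2 - β 4) - (β 0 - β 2) - (β 2 - (β 4 + α 4 * β 0)) - (α 4 - 1) * β 0 := by
      ring
    have h1 : ‖(α 4 - 1) * β 0‖ ≤ 0.001 * 1 := by
      rw [norm_mul]; have := k5 4; have := hB 0; gcongr
    have h2 := norm_sub_le (β 2 - β 4) (β 0 - β 2)
    have h3 := norm_sub_le ((β 2 - β 4) - (β 0 - β 2)) (β 2 - (β 4 + α 4 * β 0))
    have h4 := norm_sub_le ((β 2 - β 4) - (β 0 - β 2) - (β 2 - (β 4 + α 4 * β 0)))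
      ((α 4 - 1) * β 0)
    rw [e]
    linarith
  have key : ∀ g, ‖β g - β 2‖ ≤ 0.04 → ‖β g‖ ≤ 1 / 2 := by
    intro g hg
    have : ‖β g‖ ≤ ‖β g - β 2‖ + ‖β 2‖ := by
      have := norm_add_le (β g - β 2) (β 2); simpa using this
    linarith
  apply key
  fin_cases g
  · exact r02
  · change ‖β 1 - β 2‖ ≤ _
    linarith
  · change ‖β 2 - β 2‖ ≤ _
    rw [sub_self, norm_zero]; norm_num
  · change ‖β 3 - β 2‖ ≤ _
    rw [norm_sub_rev]; linarith
  · change ‖β 4 - β 2‖ ≤ _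
    rw [norm_sub_rev]; exact r24

section normalized

set_option linter.unusedSectionVars false

variable {ι : Type*} (y : ι → ℂ) (hy : Function.Injective y) (δ : ℝ) (hδ0 : 0 ≤ δ)
  (hδ : δ ≤ 1 / 10 ^ 9) (a b : ι) (ha : y a = 0) (hb : y b = 1)

include hy hδ0 hδ ha hb

theorem norm_alpha_le (s : Equiv.Perm ι) (hd : ∀ i, ‖y (s i) - y i‖ ≤ 1) :
    ‖y (s b) - y (s a)‖ ≤ 3 := by
  have e : y (s b) - y (s a) = (y (s b) - y b) - (y (s a) - y a) + 1 := by rw [ha, hb]; ring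
  rw [e]
  have h1 := hd a
  have h2 := hd b
  calc ‖(y (s b) - y b) - (y (s a) - y a) + 1‖
      ≤ ‖(y (s b) - y b) - (y (s a) - y a)‖ + ‖(1 : ℂ)‖ := norm_add_le _ _
    _ ≤ (‖y (s b) - y b‖ + ‖y (s a) - y a‖) + 1 := by
        have := norm_sub_le (y (s b) - y b) (y (s a) - y a)
        rw [norm_one]; linarith
    _ ≤ 3 := by linarith

theorem norm_beta_le (s : Equiv.Perm ι) (hd : ∀ i, ‖y (s i) - y i‖ ≤ 1) :
    ‖y (s a)‖ ≤ 1 := by
  have := hd a; rwa [ha, sub_zero] at this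

theorem almost_affine (s : Equiv.Perm ι) (hd : ∀ i, ‖y (s i) - y i‖ ≤ 1)
    (hs : AlmostConformal y δ s) (i : ι) (hi : ‖y i‖ ≤ 4) :
    ‖y (s i) - (y (s a) + (y (s b) - y (s a)) * y i)‖ ≤ 3 * δ := by
  by_cases hia : i = a
  · subst hia; rw [ha]; simp; linarith
  by_cases hib : i = b
  · subst hib; rw [hb]; simp; linarith
  have hab : a ≠ b := by rintro rfl; rw [ha] at hb; simp at hb
  have h := hs a i b (Ne.symm hia) hab hib (by rw [ha, hb]; simp; linarith)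
  set α := y (s b) - y (s a) with hα
  have hα0 : α ≠ 0 := by
    rw [hα, sub_ne_zero]
    intro h; exact hab (s.injective (hy h)).symm
  have e : (y (s a) - y (s i)) / (y (s a) - y (s b)) - (y a - y i) / (y a - y b)
      = (y (s i) - (y (s a) + α * y i)) / α := by
    rw [ha, hb]
    have : y (s a) - y (s b) = -α := by rw [hα]; ring
    rw [this]
    field_simp
    ring
  rw [e, norm_div] at h
  rw [div_le_iff₀ (norm_pos_iff.2 hα0)] at h
  have h3 := norm_alpha_le y hy δ hδ0 hδ a b ha hb s hd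
  rw [← hα] at h3
  calc _ ≤ δ * ‖α‖ := h
    _ ≤ δ * 3 := by gcongr
    _ = 3 * δ := by ring

theorem alpha_ge (s : Equiv.Perm ι) (hd : ∀ i, ‖y (s i) - y i‖ ≤ 1)
    (hs : AlmostConformal y δ s.symm) : 1 / 10 ≤ ‖y (s b) - y (s a)‖ := by
  by_contra hcon
  push Not at hcon
  have hab : a ≠ b := by rintro rfl; rw [ha] at hb; simp at hb
  have hβ := norm_beta_le y hy δ hδ0 hδ a b ha hb s hd
  -- a point among `a`, `b` far from `s a`
  obtain ⟨c, hc1, hc2⟩ : ∃ c : ι, ‖y c‖ ≤ 1 ∧ 1 / 2 ≤ ‖y (s a) - y c‖ := by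
    by_cases h : 1 / 2 ≤ ‖y (s a) - y a‖
    · exact ⟨a, by rw [ha]; simp, h⟩
    · push Not at h
      refine ⟨b, by rw [hb]; simp, ?_⟩
      rw [ha, sub_zero] at h
      rw [hb]
      have : ‖(1 : ℂ)‖ ≤ ‖y (s a)‖ + ‖y (s a) - 1‖ := by
        have := norm_sub_le (y (s a)) (y (s a) - 1)
        simpa using this
      rw [norm_one] at this
      linarith
  have hne1 : s a ≠ s b := fun h => hab (s.injective h)
  have hne2 : s a ≠ c := by
    intro h; rw [h] at hc2; simp at hc2; linarith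
  have hne3 : s b ≠ c := by
    intro h
    rw [← h, norm_sub_rev] at hc2
    linarith
  have hsb : ‖y (s a) - y (s b)‖ < 1 / 10 := by rw [norm_sub_rev]; exact hcon
  have h := hs (s a) (s b) c hne1 hne2 hne3 (by linarith)
  simp only [Equiv.symm_apply_apply] at h
  rw [ha, hb] at h
  have hD : ‖(0 : ℂ) - y (s.symm c)‖ ≤ 2 := by
    have := hd (s.symm c)
    simp only [Equiv.apply_symm_apply] at this
    rw [zero_sub, norm_neg]
    have h2 : ‖y (s.symm c)‖ ≤ ‖y c‖ + ‖y c - y (s.symm c)‖ := by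
      have := norm_sub_le (y c) (y c - y (s.symm c)); simpa using this
    linarith
  have hD0 : 0 < ‖(0 : ℂ) - y (s.symm c)‖ := by
    rw [norm_pos_iff, zero_sub, neg_ne_zero]
    intro h
    rw [← ha] at h
    have : s.symm c = a := hy h
    apply hne2; rw [← this]; simp
  have h1 : 1 / 2 ≤ ‖((0 : ℂ) - 1) / (0 - y (s.symm c))‖ := by
    rw [norm_div, le_div_iff₀ hD0]; simp only [zero_sub, norm_neg, norm_one] at *
    linarith
  have h2 : ‖(y (s a) - y (s b)) / (y (s a) - y c)‖ ≤ 1 / 5 := by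
    rw [norm_div, div_le_iff₀ (by linarith)]; linarith
  have h3 : ‖((0 : ℂ) - 1) / (0 - y (s.symm c))‖ ≤ ‖((0 : ℂ) - 1) / (0 - y (s.symm c))
      - (y (s a) - y (s b)) / (y (s a) - y c)‖ + ‖(y (s a) - y (s b)) / (y (s a) - y c)‖ := by
    have := norm_add_le (((0 : ℂ) - 1) / (0 - y (s.symm c))
      - (y (s a) - y (s b)) / (y (s a) - y c)) ((y (s a) - y (s b)) / (y (s a) - y c))
    simpa using this
  linarith

theorem triple_word (s u : Equiv.Perm ι) (hds : ∀ i, ‖y (s i) - y i‖ ≤ 1)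
    (hdu : ∀ i, ‖y (u i) - y i‖ ≤ 1)
    (hs : AlmostConformal y δ s) (hu : AlmostConformal y δ u) (e : ι) (he : e = a ∨ e = b) :
    ‖y (s (u (s e))) - (y (s a) + (y (s b) - y (s a)) * (y (u a) + (y (u b) - y (u a))
      * (y (s a) + (y (s b) - y (s a)) * y e)))‖ ≤ 12 * δ := by
  have h0 : ‖y e‖ ≤ 1 := by rcases he with h | h <;> rw [h]
                            · rw [ha]; simp
                            · rw [hb]; simp
  have e1 : y (s e) = y (s a) + (y (s b) - y (s a)) * y e := by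
    rcases he with h | h <;> rw [h]
    · rw [ha]; ring
    · rw [hb]; ring
  have h1 : ‖y (s e)‖ ≤ 2 := by
    have := hds e
    have h2 : ‖y (s e)‖ ≤ ‖y (s e) - y e‖ + ‖y e‖ := by
      have := norm_add_le (y (s e) - y e) (y e); simpa using this
    linarith
  have h2 : ‖y (u (s e))‖ ≤ 3 := by
    have := hdu (s e)
    have h2 : ‖y (u (s e))‖ ≤ ‖y (u (s e)) - y (s e)‖ + ‖y (s e)‖ := by
      have := norm_add_le (y (u (s e)) - y (s e)) (y (s e)); simpa using this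
    linarith
  have a1 := almost_affine y hy δ hδ0 hδ a b ha hb u hdu hu (s e) (by linarith)
  have a2 := almost_affine y hy δ hδ0 hδ a b ha hb s hds hs (u (s e)) (by linarith)
  have hα := norm_alpha_le y hy δ hδ0 hδ a b ha hb s hds
  rw [← e1]
  set α := y (s b) - y (s a)
  have e3 : y (s (u (s e))) - (y (s a) + α * (y (u a) + (y (u b) - y (u a)) * y (s e)))
      = (y (s (u (s e))) - (y (s a) + α * y (u (s e))))
        + α * (y (u (s e)) - (y (u a) + (y (u b) - y (u a)) * y (s e))) := by ring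
  rw [e3]
  calc _ ≤ ‖y (s (u (s e))) - (y (s a) + α * y (u (s e)))‖
        + ‖α * (y (u (s e)) - (y (u a) + (y (u b) - y (u a)) * y (s e)))‖ := norm_add_le _ _
    _ ≤ 3 * δ + 3 * (3 * δ) := by
        rw [norm_mul]
        gcongr
    _ = 12 * δ := by ring

theorem hex_alpha (s u : Equiv.Perm ι) (hds : ∀ i, ‖y (s i) - y i‖ ≤ 1)
    (hdu : ∀ i, ‖y (u i) - y i‖ ≤ 1)
    (hs : AlmostConformal y δ s) (hu : AlmostConformal y δ u)
    (hs' : AlmostConformal y δ s.symm) (hu' : AlmostConformal y δ u.symm)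
    (hhex : ∀ i, s (u (s i)) = u (s (u i))) :
    ‖(y (s b) - y (s a)) - (y (u b) - y (u a))‖ ≤ 5 / 10 ^ 6 ∧
    ‖(y (s a) + (y (s b) - y (s a)) * (y (u a) + (y (u b) - y (u a)) * y (s a)))
      - (y (u a) + (y (u b) - y (u a)) * (y (s a) + (y (s b) - y (s a)) * y (u a)))‖
      ≤ 24 * δ := by
  have a1 := triple_word y hy δ hδ0 hδ a b ha hb s u hds hdu hs hu a (Or.inl rfl)
  have a2 := triple_word y hy δ hδ0 hδ a b ha hb u s hdu hds hu hs a (Or.inl rfl)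
  have b1 := triple_word y hy δ hδ0 hδ a b ha hb s u hds hdu hs hu b (Or.inr rfl)
  have b2 := triple_word y hy δ hδ0 hδ a b ha hb u s hdu hds hu hs b (Or.inr rfl)
  rw [hhex] at a1 b1
  rw [ha] at a1 a2
  rw [hb] at b1 b2
  have l1 := alpha_ge y hy δ hδ0 hδ a b ha hb s hds hs'
  have l2 := alpha_ge y hy δ hδ0 hδ a b ha hb u hdu hu'
  set α := y (s b) - y (s a)
  set α' := y (u b) - y (u a)
  set β := y (s a)
  set β' := y (u a)
  simp only [mul_zero, add_zero, mul_one] at a1 a2 b1 b2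
  have c1 : ‖(β + α * (β' + α' * β)) - (β' + α' * (β + α * β'))‖ ≤ 24 * δ := by
    have e : (β + α * (β' + α' * β)) - (β' + α' * (β + α * β'))
        = (y (u (s (u a))) - (β' + α' * (β + α * β')))
          - (y (u (s (u a))) - (β + α * (β' + α' * β))) := by ring
    rw [e]
    exact (norm_sub_le _ _).trans (by linarith)
  refine ⟨?_, c1⟩
  have c2 : ‖(β + α * (β' + α' * (β + α))) - (β' + α' * (β + α * (β' + α')))‖ ≤ 24 * δ := by
    have e : (β + α * (β' + α' * (β + α))) - (β' + α' * (β + α * (β' + α')))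
        = (y (u (s (u b))) - (β' + α' * (β + α * (β' + α'))))
          - (y (u (s (u b))) - (β + α * (β' + α' * (β + α)))) := by ring
    rw [e]
    exact (norm_sub_le _ _).trans (by linarith)
  have c3 : ‖α * α' * (α - α')‖ ≤ 48 * δ := by
    have e : α * α' * (α - α') = ((β + α * (β' + α' * (β + α)))
        - (β' + α' * (β + α * (β' + α')))) - ((β + α * (β' + α' * β))
        - (β' + α' * (β + α * β'))) := by ring
    rw [e]
    exact (norm_sub_le _ _).trans (by linarith)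
  rw [norm_mul, norm_mul] at c3
  have c4 : (1 / 100 : ℝ) ≤ ‖α‖ * ‖α'‖ := by nlinarith
  have c5 : (1 / 100 : ℝ) * ‖α - α'‖ ≤ ‖α‖ * ‖α'‖ * ‖α - α'‖ := by gcongr
  have : 48 * δ ≤ 48 / 10 ^ 9 := by linarith
  norm_num at this ⊢
  linarith

theorem small_beta (σ : Fin 5 → Equiv.Perm ι) (hd : ∀ g i, ‖y (σ g i) - y i‖ ≤ 1)
    (hs : ∀ g, AlmostConformal y δ (σ g)) (hs' : ∀ g, AlmostConformal y δ (σ g).symm)
    (h01 : ∀ i, σ 0 (σ 1 (σ 0 i)) = σ 1 (σ 0 (σ 1 i)))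
    (h12 : ∀ i, σ 1 (σ 2 (σ 1 i)) = σ 2 (σ 1 (σ 2 i)))
    (h23 : ∀ i, σ 2 (σ 3 (σ 2 i)) = σ 3 (σ 2 (σ 3 i)))
    (h34 : ∀ i, σ 3 (σ 4 (σ 3 i)) = σ 4 (σ 3 (σ 4 i)))
    (htri : ∀ i, σ 4 (σ 0 i) = σ 2 i) (g : Fin 5) : ‖y (σ g a)‖ ≤ 1 / 2 := by
  have hx := fun s u h => hex_alpha y hy δ hδ0 hδ a b ha hb (σ s) (σ u) (hd s) (hd u) (hs s) (hs u)
    (hs' s) (hs' u) h
  obtain ⟨p01, q01⟩ := hx 0 1 h01
  obtain ⟨p12, q12⟩ := hx 1 2 h12
  obtain ⟨p23, q23⟩ := hx 2 3 h23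
  obtain ⟨p34, q34⟩ := hx 3 4 h34
  have hA := fun g => norm_alpha_le y hy δ hδ0 hδ a b ha hb (σ g) (hd g)
  have hA' := fun g => alpha_ge y hy δ hδ0 hδ a b ha hb (σ g) (hd g) (hs' g)
  have hB := fun g => norm_beta_le y hy δ hδ0 hδ a b ha hb (σ g) (hd g)
  have t1 := almost_affine y hy δ hδ0 hδ a b ha hb (σ 4) (hd 4) (hs 4) (σ 0 a)
    (by have := hB 0; linarith)
  have t2 := almost_affine y hy δ hδ0 hδ a b ha hb (σ 4) (hd 4) (hs 4) (σ 0 b)
    (by
      have h1 := hd 0 b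
      have h2 : ‖y (σ 0 b)‖ ≤ ‖y (σ 0 b) - y b‖ + ‖y b‖ := by
        have := norm_add_le (y (σ 0 b) - y b) (y b); simpa using this
      rw [hb, norm_one] at h2
      rw [hb] at h1
      linarith)
  rw [htri] at t1 t2
  refine small_beta_core (fun g => y (σ g b) - y (σ g a)) (fun g => y (σ g a)) δ hδ
    p01 p12 p23 p34 q01 q12 q23 q34 hA hA' hB t1 ?_ g
  convert t2 using 2
  ring

end normalized

theorem AlmostConformal.affine {ι : Type*} {x : ι → ℂ} {δ : ℝ} {s : Equiv.Perm ι}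
    (h : AlmostConformal x δ s) (c d : ℂ) (hd : d ≠ 0) :
    AlmostConformal (fun i => (x i - c) / d) δ s := by
  intro i j l hij hil hjl hle
  have e : ∀ i j : ι, (x i - c) / d - (x j - c) / d = (x i - x j) / d := fun i j => by ring
  have e2 : ∀ u v : ℂ, (u / d) / (v / d) = u / v := fun u v => by
    rw [div_div_div_cancel_right₀ hd]
  simp only [e, e2] at *
  refine h i j l hij hil hjl ?_
  rw [norm_div, norm_div, ← mul_div_assoc] at hle
  exact (div_le_div_iff_of_pos_right (norm_pos_iff.2 hd)).1 hle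

/-- five almost conformal permutations satisfying the relations are trivial -/
theorem rigid {ι : Type*} [Finite ι] (x : ι → ℂ) (hx : Function.Injective x)
    (σ : Fin 5 → Equiv.Perm ι) (δ : ℝ) (hδ0 : 0 ≤ δ) (hδ : δ ≤ 1 / 10 ^ 9)
    (hs : ∀ g, AlmostConformal x δ (σ g)) (hs' : ∀ g, AlmostConformal x δ (σ g).symm)
    (h01 : ∀ i, σ 0 (σ 1 (σ 0 i)) = σ 1 (σ 0 (σ 1 i)))
    (h12 : ∀ i, σ 1 (σ 2 (σ 1 i)) = σ 2 (σ 1 (σ 2 i)))
    (h23 : ∀ i, σ 2 (σ 3 (σ 2 i)) = σ 3 (σ 2 (σ 3 i)))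
    (h34 : ∀ i, σ 3 (σ 4 (σ 3 i)) = σ 4 (σ 3 (σ 4 i)))
    (htri : ∀ i, σ 4 (σ 0 i) = σ 2 i) (g : Fin 5) (i : ι) : σ g i = i := by
  by_contra hcon
  have : Nonempty (Fin 5 × ι) := ⟨(g, i)⟩
  obtain ⟨⟨g0, a⟩, hmax⟩ := Finite.exists_max (fun p : Fin 5 × ι => ‖x (σ p.1 p.2) - x p.2‖)
  set b := σ g0 a with hbdef
  have hpos : 0 < ‖x b - x a‖ := by
    refine lt_of_lt_of_le ?_ (hmax (g, i))
    rw [norm_pos_iff, sub_ne_zero]
    exact fun h => hcon (hx h)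
  have hne : x b - x a ≠ 0 := norm_pos_iff.1 hpos
  set y : ι → ℂ := fun i => (x i - x a) / (x b - x a) with hy
  have hyinj : Function.Injective y := by
    intro i j h
    have h' : (x i - x a) / (x b - x a) = (x j - x a) / (x b - x a) := h
    rw [div_left_inj' hne] at h'
    exact hx (sub_left_inj.1 h')
  have hya : y a = 0 := by simp [hy]
  have hyb : y b = 1 := by simp only [hy]; exact div_self hne
  have hd : ∀ g i, ‖y (σ g i) - y i‖ ≤ 1 := by
    intro g i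
    have e : y (σ g i) - y i = (x (σ g i) - x i) / (x b - x a) := by simp only [hy]; ring
    rw [e, norm_div, div_le_one hpos]
    exact hmax (g, i)
  have := small_beta y hyinj δ hδ0 hδ a b hya hyb σ hd
    (fun g => (hs g).affine _ _ hne) (fun g => (hs' g).affine _ _ hne) h01 h12 h23 h34 htri g0
  rw [← hbdef, hyb] at this
  norm_num at this

end H57WAC
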