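import Mathlib

open Complex Polynomial Topology

namespace H57WAC

/-- `Q(z,b) = (-(z^{n+1} + ∑ b_i z^{i+1}), b)` -/
noncomputable def Qmap (n : ℕ) (x : ℂ × (Fin n → ℂ)) : ℂ × (Fin n → ℂ) :=
  (-(x.1 ^ (n + 1) + ∑ i : Fin n, x.2 i * x.1 ^ ((i : ℕ) + 1)), x.2)

/-- the polynomial `X^{n+1} + ∑ b_i X^{i+1} + c` -/
noncomputable def Qpoly (n : ℕ) (y : ℂ × (Fin n → ℂ)) : ℂ[X] :=
  X ^ (n + 1) + ∑ i : Fin n, C (y.2 i) * X ^ ((i : ℕ) + 1) + C y.1

theorem Qpoly_eval (n : ℕ) (y : ℂ × (Fin n → ℂ)) (z : ℂ) :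
    (Qpoly n y).eval z = z ^ (n + 1) + ∑ i : Fin n, y.2 i * z ^ ((i : ℕ) + 1) + y.1 := by
  simp [Qpoly, eval_finsetSum]

theorem Qmap_eq_iff (n : ℕ) (z : ℂ) (b : Fin n → ℂ) (y : ℂ × (Fin n → ℂ)) :
    Qmap n (z, b) = y ↔ b = y.2 ∧ (Qpoly n y).eval z = 0 := by
  rw [Qpoly_eval]
  obtain ⟨c, d⟩ := y
  simp only [Qmap, Prod.mk.injEq]
  constructor
  · rintro ⟨h1, h2⟩
    refine ⟨h2, ?_⟩
    rw [← h2, ← h1]; ring
  · rintro ⟨h1, h2⟩
    refine ⟨?_, h1⟩
    rw [h1]; linear_combination -h2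

theorem continuous_Qmap (n : ℕ) : Continuous (Qmap n) := by
  unfold Qmap; fun_prop

theorem root_bound (n : ℕ) (z c : ℂ) (b : Fin n → ℂ) (M : ℝ) (hM : 0 ≤ M) (hc : ‖c‖ ≤ M)
    (hb : ∀ i, ‖b i‖ ≤ M) (h : z ^ (n + 1) + ∑ i : Fin n, b i * z ^ ((i : ℕ) + 1) + c = 0) :
    ‖z‖ ≤ 1 + M * (n + 1) := by
  by_contra hcon
  push Not at hcon
  have hz1 : 1 ≤ ‖z‖ := by
    have : 0 ≤ M * (n + 1) := by positivity
    linarith
  have e : z ^ (n + 1) = -(∑ i : Fin n, b i * z ^ ((i : ℕ) + 1) + c) := by linear_combination h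
  have h1 : ‖z‖ ^ (n + 1) ≤ M * (n + 1) * ‖z‖ ^ n := by
    rw [← norm_pow, e, norm_neg]
    calc ‖∑ i : Fin n, b i * z ^ ((i : ℕ) + 1) + c‖
        ≤ ‖∑ i : Fin n, b i * z ^ ((i : ℕ) + 1)‖ + ‖c‖ := norm_add_le _ _
      _ ≤ (∑ i : Fin n, ‖b i * z ^ ((i : ℕ) + 1)‖) + ‖c‖ := by
          gcongr; exact norm_sum_le _ _
      _ ≤ (∑ i : Fin n, M * ‖z‖ ^ n) + M * ‖z‖ ^ n := by
          gcongr with i _
          · rw [norm_mul, norm_pow]
            gcongr
            · exact hb i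
            · have := i.2; omega
          · calc ‖c‖ ≤ M * 1 := by linarith
              _ ≤ M * ‖z‖ ^ n := by
                gcongr; exact one_le_pow₀ hz1
      _ = M * (n + 1) * ‖z‖ ^ n := by
          simp; ring
  have h2 : ‖z‖ ^ (n + 1) = ‖z‖ * ‖z‖ ^ n := by ring
  rw [h2] at h1
  have h3 : ‖z‖ ≤ M * (n + 1) := le_of_mul_le_mul_right h1 (by positivity)
  linarith

theorem isProperMap_Qmap (n : ℕ) : IsProperMap (Qmap n) := by
  rw [isProperMap_iff_isCompact_preimage]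
  refine ⟨continuous_Qmap n, fun K hK => ?_⟩
  refine Metric.isCompact_of_isClosed_isBounded (hK.isClosed.preimage (continuous_Qmap n)) ?_
  obtain ⟨M, hM⟩ := hK.isBounded.exists_norm_le
  rw [isBounded_iff_forall_norm_le]
  refine ⟨max (1 + |M| * (n + 1)) |M|, ?_⟩
  rintro ⟨z, b⟩ hx
  have h := hM _ hx
  simp only [Qmap, norm_prod_le_iff] at h
  have hb : ‖b‖ ≤ |M| := h.2.trans (le_abs_self M)
  rw [norm_prod_le_iff]
  refine ⟨le_max_of_le_left ?_, le_max_of_le_right hb⟩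
  refine root_bound n z (-(z ^ (n + 1) + ∑ i : Fin n, b i * z ^ ((i : ℕ) + 1))) b |M|
    (abs_nonneg _) (h.1.trans (le_abs_self M)) (fun i => (norm_le_pi_norm b i).trans hb) ?_
  ring

theorem Qpoly_monic (n : ℕ) (y : ℂ × (Fin n → ℂ)) : (Qpoly n y).Monic := by
  unfold Qpoly
  rw [add_assoc]
  refine monic_X_pow_add (n := n + 1) ?_
  refine lt_of_le_of_lt (degree_add_le _ _) ?_
  rw [max_lt_iff]
  constructor
  · refine lt_of_le_of_lt (degree_sum_le _ _) ?_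
    rw [Finset.sup_lt_iff (by exact_mod_cast WithBot.bot_lt_coe (n + 1))]
    intro i _
    refine lt_of_le_of_lt (degree_C_mul_X_pow_le _ _) ?_
    have := i.2
    exact_mod_cast (by omega : (i : ℕ) + 1 < n + 1)
  · refine lt_of_le_of_lt degree_C_le ?_
    exact_mod_cast Nat.succ_pos n

theorem isLocalHomeo_Qmap (n : ℕ) (z : ℂ) (b : Fin n → ℂ)
    (h : (Qpoly n (Qmap n (z, b))).derivative.eval z ≠ 0) :
    ∃ φ : OpenPartialHomeomorph (ℂ × (Fin n → ℂ)) (ℂ × (Fin n → ℂ)),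
      (z, b) ∈ φ.source ∧ (φ : _ → _) = Qmap n := by
  set g : ℂ × (Fin n → ℂ) → ℂ := fun x => -(x.1 ^ (n + 1) + ∑ i : Fin n, x.2 i * x.1 ^ ((i : ℕ) + 1))
    with hg
  have hgc : ContDiff ℂ 1 g := by
    rw [hg]
    fun_prop
  have hg' : HasStrictFDerivAt g (fderiv ℂ g (z, b)) (z, b) :=
    (hgc.contDiffAt).hasStrictFDerivAt (by norm_num)
  have hQ : HasStrictFDerivAt (Qmap n) ((fderiv ℂ g (z, b)).prod
      (ContinuousLinearMap.snd ℂ ℂ (Fin n → ℂ))) (z, b) :=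
    hg'.prodMk hasStrictFDerivAt_snd
  have key : fderiv ℂ g (z, b) (1, 0) ≠ 0 := by
    have h1 : HasDerivAt (fun w : ℂ => (w, b)) ((1 : ℂ), (0 : Fin n → ℂ)) z :=
      (hasDerivAt_id z).prodMk (hasDerivAt_const z b)
    have h2 : HasDerivAt (g ∘ fun w : ℂ => (w, b)) (fderiv ℂ g (z, b) (1, 0)) z :=
      HasFDerivAt.comp_hasDerivAt z hg'.hasFDerivAt h1
    have h3 : HasDerivAt (fun w => -((Qpoly n (Qmap n (z, b))).eval w - (Qmap n (z, b)).1))
        (-((Qpoly n (Qmap n (z, b))).derivative.eval z)) z := by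
      exact (((Qpoly n (Qmap n (z, b))).hasDerivAt z).sub_const _).neg
    have h4 : (g ∘ fun w : ℂ => (w, b)) = fun w => -((Qpoly n (Qmap n (z, b))).eval w
        - (Qmap n (z, b)).1) := by
      funext w
      simp only [Function.comp_apply, hg, Qpoly_eval, Qmap]
      ring
    rw [h4] at h2
    rw [h2.unique h3]
    exact neg_ne_zero.2 h
  have hinj : Function.Injective ((fderiv ℂ g (z, b)).prod
      (ContinuousLinearMap.snd ℂ ℂ (Fin n → ℂ)) : (ℂ × (Fin n → ℂ)) →ₗ[ℂ] (ℂ × (Fin n → ℂ))) := by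
    rw [injective_iff_map_eq_zero]
    rintro ⟨w, d⟩ hw
    simp only [ContinuousLinearMap.coe_coe, ContinuousLinearMap.prod_apply,
      ContinuousLinearMap.coe_snd', Prod.mk_eq_zero] at hw
    obtain ⟨hw1, hw2⟩ := hw
    subst hw2
    have e : ((w, 0) : ℂ × (Fin n → ℂ)) = w • ((1 : ℂ), (0 : Fin n → ℂ)) := by simp
    rw [e, map_smul, smul_eq_mul] at hw1
    rcases mul_eq_zero.1 hw1 with h0 | h0
    · rw [h0]; rfl
    · exact absurd h0 key
  set L : (ℂ × (Fin n → ℂ)) ≃L[ℂ] (ℂ × (Fin n → ℂ)) :=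
    (LinearEquiv.ofInjectiveEndo _ hinj).toContinuousLinearEquiv with hL
  have hLe : (L : (ℂ × (Fin n → ℂ)) →L[ℂ] (ℂ × (Fin n → ℂ))) = (fderiv ℂ g (z, b)).prod
      (ContinuousLinearMap.snd ℂ ℂ (Fin n → ℂ)) := by
    ext x <;> rfl
  rw [← hLe] at hQ
  exact ⟨hQ.toOpenPartialHomeomorph (Qmap n), hQ.mem_toOpenPartialHomeomorph_source, rfl⟩

theorem isCoveringMapOn_Qmap (n : ℕ) :
    IsCoveringMapOn (Qmap n) {y | (Qpoly n y).Separable} := by
  refine (isProperMap_Qmap n).isClosedMap.isCoveringMapOn_of_isLocalHomeomorphOn ?_ ?_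
  · intro y _
    have hsub : Qmap n ⁻¹' {y} ⊆ (fun z => (z, y.2)) '' ((Qpoly n y).rootSet ℂ) := by
      rintro ⟨z, b⟩ hx
      rw [Set.mem_preimage, Set.mem_singleton_iff, Qmap_eq_iff] at hx
      refine ⟨z, ?_, by rw [hx.1]⟩
      rw [mem_rootSet]
      exact ⟨(Qpoly_monic n y).ne_zero, by simpa using hx.2⟩
    exact (((Qpoly n y).rootSet_finite ℂ).image _).subset hsub
  · rintro ⟨z, b⟩ hx
    have hroot : (Qpoly n (Qmap n (z, b))).eval z = 0 := ((Qmap_eq_iff n z b _).1 rfl).2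
    have hne : (Qpoly n (Qmap n (z, b))).derivative.eval z ≠ 0 := by
      have := Polynomial.Separable.aeval_derivative_ne_zero (S := ℂ) hx (x := z)
        (by simpa using hroot)
      simpa using this
    obtain ⟨φ, h1, h2⟩ := isLocalHomeo_Qmap n z b hne
    exact ⟨φ, h1, h2.symm⟩

/-- unique continuation of a root of a separable monic polynomial with continuous coefficients over
a simply connected space -/
theorem existsUnique_root {Y : Type*} [TopologicalSpace Y] [SimplyConnectedSpace Y]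
    [LocallyPathConnectedSpace Y] {n : ℕ} (p : Y → ℂ[X]) (hm : ∀ y, (p y).Monic)
    (hn : ∀ y, (p y).natDegree = n + 1) (hc : ∀ i, Continuous fun y => (p y).coeff i)
    (hs : ∀ y, (p y).Separable) (y0 : Y) (z0 : ℂ) (hz : (p y0).eval z0 = 0) :
    ∃! F : C(Y, ℂ), F y0 = z0 ∧ ∀ y, (p y).eval (F y) = 0 := by
  set f : C(Y, ℂ × (Fin n → ℂ)) :=
    ⟨fun y => ((p y).coeff 0, fun i => (p y).coeff ((i : ℕ) + 1)), by fun_prop⟩ with hf
  have hfp : ∀ y, Qpoly n (f y) = p y := by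
    intro y
    ext i
    simp only [Qpoly, hf, ContinuousMap.coe_mk, coeff_add, coeff_X_pow, finsetSum_coeff,
      coeff_C_mul, coeff_C]
    rcases i with _ | i
    · simp
    · by_cases h1 : i = n
      · subst h1
        have : (p y).coeff (i + 1) = 1 := by rw [← hn y]; exact hm y
        rw [this]
        have h2 : ∀ x : Fin i, ¬ (i = (x : ℕ)) := fun x => by have := x.2; omega
        simp [h2]
      · by_cases h2 : i < n
        · rw [Finset.sum_eq_single (⟨i, h2⟩ : Fin n)]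
          · simp [h1]
          · intro b _ hb
            have : ¬ (i = (b : ℕ)) := fun h => hb (Fin.ext h.symm)
            simp [this]
          · simp
        · have h3 : (p y).coeff (i + 1) = 0 := by
            apply coeff_eq_zero_of_natDegree_lt
            rw [hn y]; omega
          have h4 : ∀ x : Fin n, ¬ (i = (x : ℕ)) := fun x => by have := x.2; omega
          simp [h1, h3, h4]
  have cov := isCoveringMapOn_Qmap n
  have hsf : ∀ a, f a ∈ {y | (Qpoly n y).Separable} := by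
    intro a; rw [Set.mem_ofPred_eq, hfp]; exact hs a
  have he : Qmap n (z0, (f y0).2) = f y0 := by
    rw [Qmap_eq_iff]
    exact ⟨rfl, by rw [hfp]; exact hz⟩
  obtain ⟨G, ⟨hG0, hG1⟩, hGu⟩ := cov.existsUnique_continuousMap_lifts f he hsf
  have hG2 : ∀ y, Qmap n (G y) = f y := fun y => congrFun hG1 y
  refine ⟨⟨fun y => (G y).1, by fun_prop⟩, ⟨?_, ?_⟩, ?_⟩
  · simp [hG0]
  · intro y
    have h := hG2 y
    rw [← Prod.mk.eta (p := G y), Qmap_eq_iff] at h
    rw [← hfp]; exact h.2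
  · rintro F ⟨hF0, hF1⟩
    have h := hGu ⟨fun y => (F y, (f y).2), by fun_prop⟩ ⟨by simp [hF0], by
      funext y
      simp only [Function.comp_apply, ContinuousMap.coe_mk]
      rw [Qmap_eq_iff]
      exact ⟨rfl, by rw [hfp]; exact hF1 y⟩⟩
    ext y
    simp [← h]

end H57WAC
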