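import Pool.Agent.Helper57.WAC.Defs
import Pool.Agent.Helper57.WAC.RootCover
import Pool.Agent.Helper57.WAC.Discr

open Complex Polynomial Topology Metric Filter Asymptotics

noncomputable section

namespace H57WAC

instance : ContractibleSpace Dsc := (convex_closedBall (0 : ℂ) 1).contractibleSpace ⟨0, zero_mem_cb⟩
instance : LocallyPathConnectedSpace Dsc :=
  (convex_closedBall (0 : ℂ) 1).locallyPathConnectedSpace
instance : ContractibleSpace II := (convex_Icc (0 : ℝ) 1).contractibleSpace ⟨0, by simp⟩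
instance : LocallyPathConnectedSpace II := (convex_Icc (0 : ℝ) 1).locallyPathConnectedSpace

theorem root_inc (n : ℕ) (p : ℂ → ℂ[X]) (F : ℂ → ℂ) (z0 : ℂ) (hF : ContinuousAt F z0)
    (hn : ∀ᶠ z in 𝓝 z0, (p z).natDegree ≤ n) (hr : ∀ᶠ z in 𝓝 z0, (p z).eval (F z) = 0)
    (hs : (p z0).Separable) :
    ∃ G : ℕ → ℂ → ℂ, (∀ k, ContinuousAt (G k) z0) ∧ ∀ᶠ z in 𝓝 z0, F z - F z0
      = ∑ k ∈ Finset.range (n + 1), ((p z).coeff k - (p z0).coeff k) * G k z := by
  have hr0 : (p z0).eval (F z0) = 0 := hr.self_of_nhds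
  obtain ⟨q, hq⟩ := dvd_iff_isRoot.2 hr0
  have hq0 : q.eval (F z0) ≠ 0 := by
    have h := Polynomial.Separable.aeval_derivative_ne_zero (S := ℂ) hs (x := F z0)
        (by simpa using hr0)
    rw [hq] at h
    simpa using h
  have hqc : ContinuousAt (fun z => q.eval (F z)) z0 :=
    q.continuous.continuousAt.comp hF
  refine ⟨fun k z => -(F z ^ k) / q.eval (F z), fun k => ?_, ?_⟩
  · exact ((hF.pow k).neg).div hqc hq0
  · have hn0 := hn.self_of_nhds
    filter_upwards [hn, hr, hqc.eventually_ne hq0] with z h1 h2 h3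
    have e1 : (p z).eval (F z) = ∑ k ∈ Finset.range (n + 1), (p z).coeff k * F z ^ k :=
      eval_eq_sum_range' (Nat.lt_succ_of_le h1) _
    have e2 : (p z0).eval (F z) = ∑ k ∈ Finset.range (n + 1), (p z0).coeff k * F z ^ k :=
      eval_eq_sum_range' (Nat.lt_succ_of_le hn0) _
    have e3 : (p z0).eval (F z) = (F z - F z0) * q.eval (F z) := by
      rw [hq]; simp
    have e4 : ∑ k ∈ Finset.range (n + 1), ((p z).coeff k - (p z0).coeff k)
        * (-(F z ^ k) / q.eval (F z)) = -((p z).eval (F z) - (p z0).eval (F z)) / q.eval (F z) := by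
      rw [e1, e2, ← Finset.sum_sub_distrib, ← Finset.sum_neg_distrib, Finset.sum_div]
      refine Finset.sum_congr rfl fun k _ => ?_
      ring
    rw [e4, h2, e3]
    field_simp
    ring

theorem differentiableAt_mul_of_continuousAt {f G : ℂ → ℂ} {z0 : ℂ} (hf : DifferentiableAt ℂ f z0)
    (hG : ContinuousAt G z0) : DifferentiableAt ℂ (fun z => (f z - f z0) * G z) z0 := by
  have h1 : HasDerivAt (fun z => (f z - f z0) * G z) (deriv f z0 * G z0) z0 := by
    rw [hasDerivAt_iff_tendsto_slope]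
    have h2 := hasDerivAt_iff_tendsto_slope.1 hf.hasDerivAt
    have h3 : Tendsto G (𝓝[≠] z0) (𝓝 (G z0)) := hG.tendsto.mono_left nhdsWithin_le_nhds
    refine (h2.mul h3).congr fun z => ?_
    simp only [slope_def_field, sub_self, zero_mul, sub_zero]
    ring
  exact h1.differentiableAt

theorem root_differentiableAt (n : ℕ) (p : ℂ → ℂ[X]) (F : ℂ → ℂ) (z0 : ℂ) (hF : ContinuousAt F z0)
    (hn : ∀ᶠ z in 𝓝 z0, (p z).natDegree ≤ n) (hr : ∀ᶠ z in 𝓝 z0, (p z).eval (F z) = 0)
    (hs : (p z0).Separable) (hd : ∀ k, DifferentiableAt ℂ (fun z => (p z).coeff k) z0) :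
    DifferentiableAt ℂ F z0 := by
  obtain ⟨G, hG, he⟩ := root_inc n p F z0 hF hn hr hs
  have h1 : DifferentiableAt ℂ (fun z => F z0 + ∑ k ∈ Finset.range (n + 1),
      ((p z).coeff k - (p z0).coeff k) * G k z) z0 := by
    refine (differentiableAt_const _).add (DifferentiableAt.fun_sum fun k _ => ?_)
    exact differentiableAt_mul_of_continuousAt (hd k) (hG k)
  refine h1.congr_of_eventuallyEq ?_
  filter_upwards [he] with z hz
  rw [← hz]; ring

theorem root_isBigO (n : ℕ) (p : ℂ → ℂ[X]) (F : ℂ → ℂ) (z0 : ℂ) (hF : ContinuousAt F z0)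
    (hn : ∀ᶠ z in 𝓝 z0, (p z).natDegree ≤ n) (hr : ∀ᶠ z in 𝓝 z0, (p z).eval (F z) = 0)
    (hs : (p z0).Separable) (g : ℂ → ℂ)
    (hd : ∀ k, (fun z => (p z).coeff k - (p z0).coeff k) =O[𝓝 z0] g) :
    (fun z => F z - F z0) =O[𝓝 z0] g := by
  obtain ⟨G, hG, he⟩ := root_inc n p F z0 hF hn hr hs
  refine IsBigO.congr' ?_ (EventuallyEq.symm he) (EventuallyEq.refl _ _)
  refine IsBigO.fun_sum fun k _ => ?_
  have h := (hd k).mul ((hG k).tendsto.isBigO_one ℂ)
  simpa using h

end H57WAC
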