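import Mathlib

open Complex Metric Set Filter Topology

namespace H57WAC

/-- holomorphic logarithm on the unit disc -/
theorem exists_log {f : ℂ → ℂ} (hf : DifferentiableOn ℂ f (ball 0 1))
    (h0 : ∀ z ∈ ball (0 : ℂ) 1, f z ≠ 0) :
    ∃ g : ℂ → ℂ, DifferentiableOn ℂ g (ball 0 1) ∧ ∀ z ∈ ball (0 : ℂ) 1, exp (g z) = f z := by
  have hd : DifferentiableOn ℂ (fun z => deriv f z / f z) (ball 0 1) :=
    (hf.deriv isOpen_ball).div hf h0
  obtain ⟨g, hg⟩ := hd.isExactOn_ball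
  have h00 : (0 : ℂ) ∈ ball (0 : ℂ) 1 := by simp
  set k : ℂ → ℂ := fun z => f z * exp (-g z) with hk
  have hkd : ∀ z ∈ ball (0 : ℂ) 1, HasDerivAt k 0 z := by
    intro z hz
    have h1 : HasDerivAt f (deriv f z) z :=
      (hf.differentiableAt (isOpen_ball.mem_nhds hz)).hasDerivAt
    have h2 := ((hg z hz).neg).cexp
    have h3 := h1.mul h2
    have h4 : f z * (deriv f z / f z) = deriv f z := by
      rw [mul_div_assoc']; exact mul_div_cancel_left₀ _ (h0 z hz)
    refine h3.congr_deriv ?_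
    calc deriv f z * exp (-g z) + f z * (exp (-g z) * -(deriv f z / f z))
        = exp (-g z) * (deriv f z - f z * (deriv f z / f z)) := by ring
      _ = 0 := by rw [h4]; ring
  have hconst : ∀ z ∈ ball (0 : ℂ) 1, k z = k 0 := by
    intro z hz
    have hdk : DifferentiableOn ℂ k (ball 0 1) :=
      fun w hw => (hkd w hw).differentiableAt.differentiableWithinAt
    exact (convex_ball (0 : ℂ) 1).is_const_of_fderivWithin_eq_zero hdk
      (fun w hw => by
        rw [fderivWithin_of_isOpen isOpen_ball hw]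
        have := (hkd w hw).hasFDerivAt.fderiv
        rw [this]; ext; simp) hz h00
  have hk0 : k 0 ≠ 0 := mul_ne_zero (h0 0 h00) (exp_ne_zero _)
  refine ⟨fun z => Complex.log (k 0) + g z, ?_, ?_⟩
  · exact fun z hz => ((hg z hz).differentiableAt.differentiableWithinAt).const_add _
  · intro z hz
    rw [exp_add, exp_log hk0, ← hconst z hz, hk]
    simp only
    rw [mul_assoc, ← exp_add]; simp

theorem abs_im_le_norm_cos (w : ℂ) : |w.im| ≤ ‖Complex.cos w‖ := by
  have h1 : Complex.cos w = ((Real.cos w.re * Real.cosh w.im : ℝ) : ℂ)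
      - ((Real.sin w.re * Real.sinh w.im : ℝ) : ℂ) * I := by
    conv_lhs => rw [← Complex.re_add_im w]
    rw [Complex.cos_add_mul_I]; push_cast; ring
  have h2 : ‖Complex.cos w‖ ^ 2 = (Real.cos w.re * Real.cosh w.im) ^ 2
      + (Real.sin w.re * Real.sinh w.im) ^ 2 := by
    rw [← Complex.normSq_eq_norm_sq, Complex.normSq_apply, h1]
    simp only [sub_re, ofReal_re, mul_re, ofReal_im, I_re, I_im, sub_im, mul_im]
    ring
  have h3 : |w.im| ≤ |Real.sinh w.im| := by
    rw [Real.abs_sinh]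
    exact Real.self_le_sinh_iff.2 (abs_nonneg _)
  have h4 : Real.sinh w.im ^ 2 ≤ ‖Complex.cos w‖ ^ 2 := by
    rw [h2]
    have e1 := Real.cosh_sq w.im
    have e2 := Real.sin_sq_add_cos_sq w.re
    nlinarith [sq_nonneg (Real.cos w.re)]
  have h5 : |Real.sinh w.im| ≤ ‖Complex.cos w‖ := abs_le_of_sq_le_sq h4 (norm_nonneg _)
  linarith

/-- holomorphic arccosine with control of the value at the centre -/
theorem exists_arccos {F : ℂ → ℂ} (hF : DifferentiableOn ℂ F (ball 0 1))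
    (h1 : ∀ z ∈ ball (0 : ℂ) 1, F z ≠ 1) (h2 : ∀ z ∈ ball (0 : ℂ) 1, F z ≠ -1) :
    ∃ G : ℂ → ℂ, DifferentiableOn ℂ G (ball 0 1) ∧
      (∀ z ∈ ball (0 : ℂ) 1, Complex.cos (Real.pi * G z) = F z) ∧ ‖G 0‖ ≤ 1 + ‖F 0‖ := by
  have h00 : (0 : ℂ) ∈ ball (0 : ℂ) 1 := by simp
  obtain ⟨l, hl, hle⟩ := exists_log (f := fun z => F z ^ 2 - 1) ((hF.pow 2).sub_const _)
    (fun z hz h => by
      have : (F z - 1) * (F z + 1) = 0 := by linear_combination h
      rcases mul_eq_zero.1 this with h | h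
      · exact h1 z hz (by linear_combination h)
      · exact h2 z hz (by linear_combination h))
  set s : ℂ → ℂ := fun z => exp (l z / 2) with hs
  have hsd : DifferentiableOn ℂ s (ball 0 1) := (hl.div_const 2).cexp
  have hs2 : ∀ z ∈ ball (0 : ℂ) 1, s z ^ 2 = F z ^ 2 - 1 := by
    intro z hz
    rw [← hle z hz, hs]
    simp only
    rw [← exp_nat_mul]
    congr 1
    push_cast; ring
  have hmul : ∀ z ∈ ball (0 : ℂ) 1, (F z + s z) * (F z - s z) = 1 := by
    intro z hz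
    linear_combination -(hs2 z hz)
  obtain ⟨L, hL, hLe⟩ := exists_log (f := fun z => F z + s z) (hF.add hsd)
    (fun z hz h => by
      have := hmul z hz
      rw [h] at this; simp at this)
  have hinv : ∀ z ∈ ball (0 : ℂ) 1, exp (-L z) = F z - s z := by
    intro z hz
    rw [exp_neg, hLe z hz]
    exact inv_eq_of_mul_eq_one_right (hmul z hz)
  have hpi : (Real.pi : ℂ) ≠ 0 := by exact_mod_cast Real.pi_ne_zero
  set G0 : ℂ → ℂ := fun z => -I * L z / Real.pi with hG0
  have hcos0 : ∀ z ∈ ball (0 : ℂ) 1, Complex.cos (Real.pi * G0 z) = F z := by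
    intro z hz
    have e1 : (Real.pi : ℂ) * G0 z = -I * L z := by
      rw [hG0]; simp only; rw [mul_div_assoc']; exact mul_div_cancel_left₀ _ hpi
    rw [e1, Complex.cos]
    have e2 : -I * L z * I = L z := by
      calc -I * L z * I = -(I * I) * L z := by ring
        _ = L z := by rw [I_mul_I]; ring
    have e3 : -(-I * L z) * I = -L z := by rw [neg_mul, e2]
    rw [e2, e3, hLe z hz, hinv z hz]; ring
  set k : ℤ := round ((G0 0).re / 2) with hkdef
  refine ⟨fun z => G0 z - 2 * k, ?_, ?_, ?_⟩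
  · exact ((hL.const_mul (-I)).div_const _).sub_const _
  · intro z hz
    rw [← hcos0 z hz]
    have : (Real.pi : ℂ) * (G0 z - 2 * k) = Real.pi * G0 z - k * (2 * Real.pi) := by ring
    rw [this, Complex.cos_sub_int_mul_two_pi]
  · have e1 : |(G0 0 - 2 * k).re| ≤ 1 := by
      have := abs_sub_round ((G0 0).re / 2)
      rw [← hkdef] at this
      have e : (G0 0 - 2 * (k : ℂ)).re = 2 * ((G0 0).re / 2 - k) := by
        simp; ring
      rw [e, abs_mul]; norm_num; linarith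
    have e2 : |(G0 0 - 2 * k).im| ≤ ‖F 0‖ := by
      have e : (G0 0 - 2 * (k : ℂ)).im = (G0 0).im := by simp
      have h := abs_im_le_norm_cos (Real.pi * G0 0)
      rw [hcos0 0 h00] at h
      have e' : ((Real.pi : ℂ) * G0 0).im = Real.pi * (G0 0).im := by simp
      rw [e', abs_mul, abs_of_pos Real.pi_pos] at h
      rw [e]
      nlinarith [Real.pi_gt_three, abs_nonneg (G0 0).im]
    calc ‖G0 0 - 2 * k‖ ≤ |(G0 0 - 2 * k).re| + |(G0 0 - 2 * k).im| :=
          Complex.norm_le_abs_re_add_abs_im _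
      _ ≤ 1 + ‖F 0‖ := add_le_add e1 e2

/-- every point of the plane is at distance less than one from the bad set -/
theorem exists_near_bad (w : ℂ) :
    ∃ a : ℂ, ‖a - w‖ < 1 ∧ ∃ n : ℤ, Complex.cos (Real.pi * a) = n := by
  set Y : ℝ := |w.im| with hY
  set n : ℕ := ⌊Real.cosh (Real.pi * Y)⌋₊ with hn
  have hc1 : 1 ≤ Real.cosh (Real.pi * Y) := Real.one_le_cosh _
  have hn1 : 1 ≤ n := Nat.le_floor (by simpa using hc1)
  have hnle : (n : ℝ) ≤ Real.cosh (Real.pi * Y) := Nat.floor_le (by linarith)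
  have hnlt : Real.cosh (Real.pi * Y) < n + 1 := Nat.lt_floor_add_one _
  have hn1' : (1 : ℝ) ≤ n := by exact_mod_cast hn1
  obtain ⟨y, hy, hyn⟩ : ∃ y ∈ Icc (0 : ℝ) Y, Real.cosh (Real.pi * y) = n := by
    have hcont : ContinuousOn (fun y : ℝ => Real.cosh (Real.pi * y)) (Icc 0 Y) := by fun_prop
    have := intermediate_value_Icc (abs_nonneg w.im) hcont
    have hm : (n : ℝ) ∈ Icc (Real.cosh (Real.pi * 0)) (Real.cosh (Real.pi * Y)) := by
      constructor
      · simpa using hn1'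
      · exact hnle
    obtain ⟨y, hy, hyn⟩ := this hm
    exact ⟨y, hy, hyn⟩
  set b : ℝ := Y - y with hb
  have hb0 : 0 ≤ b := by linarith [hy.2]
  have hcb : Real.cosh (Real.pi * b) < 2 := by
    have e : Real.pi * Y = Real.pi * y + Real.pi * b := by rw [hb]; ring
    rw [e, Real.cosh_add, hyn] at hnlt
    have hs1 : 0 ≤ Real.sinh (Real.pi * y) := Real.sinh_nonneg_iff.2
      (mul_nonneg Real.pi_pos.le hy.1)
    have hs2 : 0 ≤ Real.sinh (Real.pi * b) := Real.sinh_nonneg_iff.2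
      (mul_nonneg Real.pi_pos.le hb0)
    have hs3 := mul_nonneg hs1 hs2
    by_contra hcon
    push Not at hcon
    nlinarith
  have hcosh : ∀ t : ℝ, 1 + t ^ 2 / 2 ≤ Real.cosh t := by
    intro t
    have h1 := Real.cosh_two_mul (t / 2)
    have h2 := Real.cosh_sq (t / 2)
    have h3 : (t / 2) ^ 2 ≤ Real.sinh (t / 2) ^ 2 := by
      have : |t / 2| ≤ |Real.sinh (t / 2)| := by
        rw [Real.abs_sinh]; exact Real.self_le_sinh_iff.2 (abs_nonneg _)
      exact sq_le_sq.2 this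
    have e : 2 * (t / 2) = t := by ring
    rw [e] at h1
    nlinarith
  have hb2 : b ^ 2 < 1 / 4 := by
    have h1 := hcosh (Real.pi * b)
    have h2 : (Real.pi * b) ^ 2 < 2 := by linarith
    have h3 : (9 : ℝ) < Real.pi ^ 2 := by nlinarith [Real.pi_gt_three]
    have h4 : (Real.pi * b) ^ 2 = Real.pi ^ 2 * b ^ 2 := by ring
    nlinarith [sq_nonneg b]
  set m : ℤ := round w.re with hm
  have hm1 : |w.re - m| ≤ 1 / 2 := abs_sub_round _
  obtain ⟨ε, hε, hεw⟩ : ∃ ε : ℝ, (ε = 1 ∨ ε = -1) ∧ w.im = ε * Y := by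
    rcases le_total 0 w.im with h | h
    · exact ⟨1, Or.inl rfl, by rw [hY, abs_of_nonneg h]; ring⟩
    · exact ⟨-1, Or.inr rfl, by rw [hY, abs_of_nonpos h]; ring⟩
  refine ⟨⟨m, ε * y⟩, ?_, (if Even m then 1 else -1) * n, ?_⟩
  · have e1 : ‖(⟨m, ε * y⟩ : ℂ) - w‖ ^ 2 = (m - w.re) ^ 2 + (ε * y - w.im) ^ 2 := by
      rw [← Complex.normSq_eq_norm_sq, Complex.normSq_apply]; simp; ring
    have e2 : (ε * y - w.im) ^ 2 = b ^ 2 := by
      rw [hεw, hb]; rcases hε with h | h <;> rw [h] <;> ring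
    have e3 : ((m : ℝ) - w.re) ^ 2 ≤ 1 / 4 := by
      have := abs_le.1 hm1
      nlinarith
    have e4 : ‖(⟨m, ε * y⟩ : ℂ) - w‖ ^ 2 < 1 := by rw [e1, e2]; linarith
    nlinarith [norm_nonneg ((⟨m, ε * y⟩ : ℂ) - w)]
  · have e1 : (Real.pi : ℂ) * (⟨m, ε * y⟩ : ℂ) = ((m * Real.pi : ℝ) : ℂ)
        + ((ε * (Real.pi * y) : ℝ) : ℂ) * I := by
      apply Complex.ext <;> simp <;> ring
    rw [e1, Complex.cos_add_mul_I]
    have e2 : Complex.sin ((m * Real.pi : ℝ) : ℂ) = 0 := by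
      push_cast; exact Complex.sin_int_mul_pi m
    have e3 : Complex.cosh ((ε * (Real.pi * y) : ℝ) : ℂ) = n := by
      have : Real.cosh (ε * (Real.pi * y)) = n := by
        rcases hε with h | h <;> rw [h]
        · rw [one_mul, hyn]
        · rw [neg_one_mul, Real.cosh_neg, hyn]
      rw [← Complex.ofReal_cosh, this]; simp
    have e4 : Complex.cos ((m * Real.pi : ℝ) : ℂ) = if Even m then 1 else -1 := by
      push_cast
      split_ifs with h
      · obtain ⟨k, hk⟩ := h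
        have : (m : ℂ) * Real.pi = k * (2 * Real.pi) := by rw [hk]; push_cast; ring
        rw [this, Complex.cos_int_mul_two_pi]
      · rw [Int.not_even_iff_odd] at h
        obtain ⟨k, hk⟩ := h
        have : (m : ℂ) * Real.pi = k * (2 * Real.pi) + Real.pi := by rw [hk]; push_cast; ring
        rw [this, Complex.cos_int_mul_two_pi_add_pi]
    rw [e2, e3, e4]
    split_ifs <;> push_cast <;> ring

/-- a weak form of the theorem of Bloch -/
theorem bloch {f : ℂ → ℂ} {z0 : ℂ} {R : ℝ} (hf : DifferentiableOn ℂ f (ball z0 R))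
    (hno : ∀ w : ℂ, ¬ (ball w 1 ⊆ f '' ball z0 R)) {S : ℝ} (hS : 0 < S) (hSR : S < R) :
    S * ‖deriv f z0‖ ≤ 48 := by
  by_contra hcon
  push Not at hcon
  have hd : DifferentiableOn ℂ (deriv f) (ball z0 R) := hf.deriv isOpen_ball
  have hcb : closedBall z0 S ⊆ ball z0 R := closedBall_subset_ball hSR
  have hcont : ContinuousOn (fun z => (S - ‖z - z0‖) * ‖deriv f z‖) (closedBall z0 S) := by
    refine ContinuousOn.mul (by fun_prop) ?_
    exact (hd.continuousOn.mono hcb).norm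
  obtain ⟨a, ha, hmax⟩ := (isCompact_closedBall z0 S).exists_isMaxOn
    ⟨z0, mem_closedBall_self hS.le⟩ hcont
  set M : ℝ := (S - ‖a - z0‖) * ‖deriv f a‖ with hM
  have hM48 : 48 < M := by
    have := hmax (mem_closedBall_self hS.le : z0 ∈ closedBall z0 S)
    simp only [mem_ofPred_eq, sub_self, norm_zero, sub_zero] at this
    linarith
  have haS : ‖a - z0‖ ≤ S := by simpa [dist_eq_norm] using ha
  have hlt : ‖a - z0‖ < S := by
    rcases haS.lt_or_eq with h | h
    · exact h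
    · rw [hM, h] at hM48; simp at hM48; linarith
  set ρ : ℝ := (S - ‖a - z0‖) / 2 with hρ
  have hρ0 : 0 < ρ := by rw [hρ]; linarith
  have hMρ : M = 2 * ρ * ‖deriv f a‖ := by rw [hM, hρ]; ring
  have hda : 0 < ‖deriv f a‖ := by
    rcases (norm_nonneg (deriv f a)).lt_or_eq with h | h
    · exact h
    · rw [hMρ, ← h] at hM48; linarith
  have hsub : ball a ρ ⊆ closedBall z0 S := by
    intro z hz
    rw [mem_ball, dist_eq_norm] at hz
    rw [mem_closedBall, dist_eq_norm]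
    have : ‖z - z0‖ ≤ ‖z - a‖ + ‖a - z0‖ := by
      have := norm_add_le (z - a) (a - z0); simpa using this
    rw [hρ] at hz; linarith
  have hbd : ∀ z ∈ ball a ρ, ‖deriv f z‖ ≤ 2 * ‖deriv f a‖ := by
    intro z hz
    have h1 := hmax (hsub hz)
    simp only [mem_ofPred_eq] at h1
    rw [← hM] at h1
    rw [mem_ball, dist_eq_norm] at hz
    have h2 : ρ ≤ S - ‖z - z0‖ := by
      have : ‖z - z0‖ ≤ ‖z - a‖ + ‖a - z0‖ := by
        have := norm_add_le (z - a) (a - z0); simpa using this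
      have : ‖z - a‖ < ρ := hz
      have e : S = 2 * ρ + ‖a - z0‖ := by rw [hρ]; ring
      linarith
    have h3 : ρ * ‖deriv f z‖ ≤ 2 * ρ * ‖deriv f a‖ := by
      calc ρ * ‖deriv f z‖ ≤ (S - ‖z - z0‖) * ‖deriv f z‖ := by gcongr
        _ ≤ 2 * ρ * ‖deriv f a‖ := by rw [← hMρ]; exact h1
    have : ρ * ‖deriv f z‖ ≤ ρ * (2 * ‖deriv f a‖) := by linarith
    exact le_of_mul_le_mul_left this hρ0
  have hballR : ball a ρ ⊆ ball z0 R := hsub.trans hcb
  have hdiff : ∀ z ∈ ball a ρ, dist (deriv f z) (deriv f a) ≤ 3 * ‖deriv f a‖ / ρ * dist z a := by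
    intro z hz
    refine dist_le_div_mul_dist_of_mapsTo_ball (hd.mono hballR) ?_ hz
    intro w hw
    rw [mem_closedBall, dist_eq_norm]
    calc ‖deriv f w - deriv f a‖ ≤ ‖deriv f w‖ + ‖deriv f a‖ := norm_sub_le _ _
      _ ≤ 3 * ‖deriv f a‖ := by have := hbd w hw; linarith
  set r : ℝ := ρ / 6 with hr
  have hr0 : 0 < r := by rw [hr]; linarith
  have hrρ : r < ρ := by rw [hr]; linarith
  have hcr : closedBall a r ⊆ ball a ρ := closedBall_subset_ball hrρ
  have hA : ∀ z ∈ closedBall a r, ‖f z - f a - deriv f a * (z - a)‖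
      ≤ (3 * ‖deriv f a‖ / ρ * r) * ‖z - a‖ := by
    intro z hz
    have hderiv : ∀ w ∈ closedBall a r, HasDerivWithinAt (fun w => f w - deriv f a * (w - a))
        (deriv f w - deriv f a) (closedBall a r) w := by
      intro w hw
      have h1 : HasDerivAt f (deriv f w) w :=
        (hf.differentiableAt (isOpen_ball.mem_nhds (hballR (hcr hw)))).hasDerivAt
      have h2 : HasDerivAt (fun w => deriv f a * (w - a)) (deriv f a) w := by
        simpa using ((hasDerivAt_id w).sub_const a).const_mul (deriv f a)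
      exact (h1.sub h2).hasDerivWithinAt
    have hbound : ∀ w ∈ closedBall a r, ‖deriv f w - deriv f a‖ ≤ 3 * ‖deriv f a‖ / ρ * r := by
      intro w hw
      rw [← dist_eq_norm]
      refine (hdiff w (hcr hw)).trans ?_
      have : dist w a ≤ r := hw
      gcongr
    have h := (convex_closedBall a r).norm_image_sub_le_of_norm_hasDerivWithin_le hderiv hbound
      (mem_closedBall_self hr0.le) hz
    have e : f z - deriv f a * (z - a) - (f a - deriv f a * (a - a))
        = f z - f a - deriv f a * (z - a) := by ring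
    rw [e] at h
    exact h
  have hlow : ∀ z ∈ sphere a r, M / 24 ≤ ‖f z - f a‖ := by
    intro z hz
    have hz' : ‖z - a‖ = r := by simpa [dist_eq_norm] using hz
    have h1 := hA z (sphere_subset_closedBall hz)
    have h2 : ‖deriv f a * (z - a)‖ ≤ ‖f z - f a‖ + ‖f z - f a - deriv f a * (z - a)‖ := by
      have := norm_sub_le (f z - f a) (f z - f a - deriv f a * (z - a))
      have e : f z - f a - (f z - f a - deriv f a * (z - a)) = deriv f a * (z - a) := by ring
      rwa [e] at this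
    rw [norm_mul, hz'] at h2
    rw [hz'] at h1
    have e1 : 3 * ‖deriv f a‖ / ρ * r * r = ‖deriv f a‖ * ρ / 12 := by
      rw [hr]; field_simp; ring
    have e2 : ‖deriv f a‖ * r = ‖deriv f a‖ * ρ / 6 := by rw [hr]; ring
    rw [e1] at h1
    rw [e2] at h2
    rw [hMρ]
    linarith
  have hdc : DiffContOnCl ℂ f (ball a r) := by
    refine DifferentiableOn.diffContOnCl_ball (U := ball a ρ) (hf.mono hballR) hcr
  have hne : ∃ᶠ z in 𝓝 a, f z ≠ f a := by
    intro hcon2
    simp only [not_not] at hcon2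
    have : deriv f a = 0 := by
      have h1 : f =ᶠ[𝓝 a] fun _ => f a := hcon2
      rw [h1.deriv_eq]; simp
    rw [this] at hda; simp at hda
  have himg := hdc.ball_subset_image_closedBall hr0 hlow hne
  refine hno (f a) ?_
  calc ball (f a) 1 ⊆ ball (f a) (M / 24 / 2) := ball_subset_ball (by linarith)
    _ ⊆ f '' closedBall a r := himg
    _ ⊆ f '' ball z0 R := image_mono (hcr.trans hballR)

theorem norm_cos_le (w : ℂ) : ‖Complex.cos w‖ ≤ Real.exp ‖w‖ := by
  rw [Complex.cos]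
  have h1 : ‖exp (w * I)‖ ≤ Real.exp ‖w‖ := by
    have := Complex.norm_exp_le_exp_norm (w * I); simpa using this
  have h2 : ‖exp (-w * I)‖ ≤ Real.exp ‖w‖ := by
    have := Complex.norm_exp_le_exp_norm (-w * I); simpa using this
  rw [norm_div]
  have : ‖exp (w * I) + exp (-w * I)‖ ≤ Real.exp ‖w‖ + Real.exp ‖w‖ :=
    (norm_add_le _ _).trans (add_le_add h1 h2)
  simp only [RCLike.norm_ofNat]
  linarith

/-- Schottky's theorem, with a crude bound -/
theorem schottky (M r : ℝ) (hM : 0 ≤ M) (hr0 : 0 < r) (hr : r < 1) :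
    ∃ C : ℝ, 0 < C ∧ ∀ φ : ℂ → ℂ, DifferentiableOn ℂ φ (ball 0 1) →
      (∀ z ∈ ball (0 : ℂ) 1, φ z ≠ 0) → (∀ z ∈ ball (0 : ℂ) 1, φ z ≠ 1) → ‖φ 0‖ ≤ M →
      ∀ z ∈ closedBall (0 : ℂ) r, ‖φ z‖ ≤ C := by
  set K : ℝ := (1 + (1 + (2 * M + 1))) + 96 / (1 - r) * r with hK
  refine ⟨(1 + Real.exp (Real.pi * Real.exp (Real.pi * K))) / 2, by positivity, ?_⟩
  intro φ hφ h0 h1 hφM z hz
  have h00 : (0 : ℂ) ∈ ball (0 : ℂ) 1 := by simp
  have hz1 : z ∈ ball (0 : ℂ) 1 := closedBall_subset_ball hr hz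
  obtain ⟨F, hF, hFe, hF0⟩ := exists_arccos (F := fun z => 2 * φ z - 1)
    ((hφ.const_mul 2).sub_const 1)
    (fun z hz h => h1 z hz (by linear_combination h / 2))
    (fun z hz h => h0 z hz (by linear_combination h / 2))
  have hFint : ∀ w ∈ ball (0 : ℂ) 1, ∀ n : ℤ, F w ≠ n := by
    intro w hw n hn
    have e := hFe w hw
    rw [hn] at e
    rcases Int.even_or_odd n with h | h
    · obtain ⟨k, hk⟩ := h
      have e2 : (Real.pi : ℂ) * (n : ℂ) = k * (2 * Real.pi) := by rw [hk]; push_cast; ring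
      rw [e2, Complex.cos_int_mul_two_pi] at e
      exact h1 w hw (by linear_combination -e / 2)
    · obtain ⟨k, hk⟩ := h
      have e2 : (Real.pi : ℂ) * (n : ℂ) = k * (2 * Real.pi) + Real.pi := by
        rw [hk]; push_cast; ring
      rw [e2, Complex.cos_int_mul_two_pi_add_pi] at e
      exact h0 w hw (by linear_combination -e / 2)
  obtain ⟨g, hg, hge, hg0⟩ := exists_arccos (F := F) hF
    (fun z hz h => hFint z hz 1 (by simpa using h))
    (fun z hz h => hFint z hz (-1) (by simpa using h))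
  have hg0K : ‖g 0‖ ≤ 1 + (1 + (2 * M + 1)) := by
    have : ‖2 * φ 0 - 1‖ ≤ 2 * M + 1 := by
      calc ‖2 * φ 0 - 1‖ ≤ ‖2 * φ 0‖ + ‖(1 : ℂ)‖ := norm_sub_le _ _
        _ ≤ 2 * M + 1 := by rw [norm_mul]; simp; linarith
    linarith
  have hno : ∀ w : ℂ, ¬ (ball w 1 ⊆ g '' ball 0 1) := by
    intro w hw
    obtain ⟨a, ha, n, hn⟩ := exists_near_bad w
    obtain ⟨u, hu, hua⟩ := hw (show a ∈ ball w 1 by rw [mem_ball, dist_eq_norm]; exact ha)
    have := hge u hu
    rw [hua, hn] at this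
    exact hFint u hu n this.symm
  have hderiv : ∀ w ∈ ball (0 : ℂ) r, ‖deriv g w‖ ≤ 96 / (1 - r) := by
    intro w hw
    have hwr : ‖w‖ < r := by simpa using hw
    have hsub : ball w (1 - r) ⊆ ball 0 1 := by
      intro u hu
      rw [mem_ball, dist_eq_norm] at hu
      rw [mem_ball, dist_zero_right]
      have : ‖u‖ ≤ ‖u - w‖ + ‖w‖ := by have := norm_add_le (u - w) w; simpa using this
      linarith
    have h := bloch (hg.mono hsub) (fun v hv => hno v (hv.trans (image_mono hsub)))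
      (S := (1 - r) / 2) (by linarith) (by linarith)
    rw [le_div_iff₀ (by linarith)]
    linarith
  have hgz : ‖g z - g 0‖ ≤ 96 / (1 - r) * r := by
    have hz' : ‖z‖ ≤ r := by simpa using hz
    have hlip : ∀ x ∈ ball (0 : ℂ) r, ‖g x - g 0‖ ≤ 96 / (1 - r) * ‖x - 0‖ := by
      intro x hx
      refine (convex_ball (0 : ℂ) r).norm_image_sub_le_of_norm_deriv_le
        (fun w hw => hg.differentiableAt (isOpen_ball.mem_nhds (ball_subset_ball hr.le hw)))
        hderiv (by simpa using hr0) hx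
    have hcl : z ∈ closure (ball (0 : ℂ) r) := by
      rw [closure_ball _ hr0.ne']; exact hz
    have hcont : ContinuousOn (fun x => ‖g x - g 0‖) (closedBall 0 r) := by
      have : ContinuousOn g (closedBall 0 r) := hg.continuousOn.mono (closedBall_subset_ball hr)
      fun_prop
    have hle : ∀ x ∈ ball (0 : ℂ) r, ‖g x - g 0‖ ≤ 96 / (1 - r) * r := by
      intro x hx
      refine (hlip x hx).trans ?_
      have : ‖x - 0‖ ≤ r := by have : ‖x‖ < r := by simpa using hx
                               simpa using this.le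
      have h96 : 0 ≤ 96 / (1 - r) := div_nonneg (by norm_num) (by linarith)
      gcongr
    exact ContinuousWithinAt.closure_le hcl
      ((hcont z (by simpa using hz')).mono ball_subset_closedBall) continuousWithinAt_const hle
  have hgK : ‖g z‖ ≤ K := by
    have : ‖g z‖ ≤ ‖g z - g 0‖ + ‖g 0‖ := by
      have := norm_add_le (g z - g 0) (g 0); simpa using this
    rw [hK]; linarith
  have hpos : (0 : ℝ) < Real.pi := Real.pi_pos
  have hFz : ‖F z‖ ≤ Real.exp (Real.pi * K) := by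
    rw [← hge z hz1]
    refine (norm_cos_le _).trans (Real.exp_le_exp.2 ?_)
    rw [norm_mul, Complex.norm_real, Real.norm_eq_abs, abs_of_pos hpos]
    gcongr
  have hz2 : ‖2 * φ z - 1‖ ≤ Real.exp (Real.pi * Real.exp (Real.pi * K)) := by
    rw [← hFe z hz1]
    refine (norm_cos_le _).trans (Real.exp_le_exp.2 ?_)
    rw [norm_mul, Complex.norm_real, Real.norm_eq_abs, abs_of_pos hpos]
    gcongr
  have : ‖(2 : ℂ) * φ z‖ ≤ ‖2 * φ z - 1‖ + 1 := by
    have := norm_add_le (2 * φ z - 1) 1; simpa using this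
  rw [norm_mul] at this
  simp only [RCLike.norm_ofNat] at this
  linarith

/-- a function omitting `0` and `1` which is flat at the centre is almost constant -/
theorem near_const (t M δ : ℝ) (ht0 : 0 < t) (ht : t < 1) (hM : 0 ≤ M) (hδ : 0 < δ) :
    ∃ N : ℕ, ∀ n : ℕ, N ≤ n → ∀ φ : ℂ → ℂ, DifferentiableOn ℂ φ (ball 0 1) →
      (∀ z ∈ ball (0 : ℂ) 1, φ z ≠ 0) → (∀ z ∈ ball (0 : ℂ) 1, φ z ≠ 1) → ‖φ 0‖ ≤ M →
      (fun z => φ z - φ 0) =O[𝓝 0] (fun z : ℂ => z ^ (n + 1)) →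
      ∀ z : ℂ, ‖z‖ ≤ t → ‖φ z - φ 0‖ ≤ δ := by
  set r : ℝ := (1 + t) / 2 with hr
  have hr0 : 0 < r := by rw [hr]; linarith
  have hr1 : r < 1 := by rw [hr]; linarith
  have htr : t < r := by rw [hr]; linarith
  obtain ⟨C, hC, hS⟩ := schottky M r hM hr0 hr1
  have hlim : Tendsto (fun n : ℕ => (2 * C) * (t / r) ^ (n + 1)) atTop (𝓝 0) := by
    have h1 : Tendsto (fun n : ℕ => (t / r) ^ n) atTop (𝓝 0) :=
      tendsto_pow_atTop_nhds_zero_of_lt_one (by positivity) ((div_lt_one hr0).2 htr)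
    have h2 := ((tendsto_add_atTop_iff_nat 1).2 h1).const_mul (2 * C)
    simpa using h2
  obtain ⟨N, hN⟩ := eventually_atTop.1 (hlim.eventually (gt_mem_nhds hδ))
  refine ⟨N, ?_⟩
  intro n hn φ hφ h0 h1 hφM hO z hz
  have hφr : DifferentiableOn ℂ φ (ball 0 r) := hφ.mono (ball_subset_ball hr1.le)
  have hmaps : MapsTo φ (ball 0 r) (closedBall (φ 0) (2 * C)) := by
    intro w hw
    have e1 := hS φ hφ h0 h1 hφM w (ball_subset_closedBall hw)
    have e2 := hS φ hφ h0 h1 hφM 0 (by simpa using hr0.le)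
    rw [mem_closedBall, dist_eq_norm]
    exact (norm_sub_le _ _).trans (by linarith)
  have hlo : (φ · - φ 0) =o[𝓝 0] (fun w => ‖w - (0 : ℂ)‖ ^ n) := by
    refine hO.trans_isLittleO ?_
    have : (fun z : ℂ => z ^ (n + 1)) =o[𝓝 0] (fun z : ℂ => z ^ n) :=
      Asymptotics.isLittleO_pow_pow (Nat.lt_succ_self n)
    refine this.trans_isBigO ?_
    refine Asymptotics.IsBigO.of_bound 1 (Eventually.of_forall fun w => ?_)
    simp
  have hzr : z ∈ ball (0 : ℂ) r := by
    rw [mem_ball, dist_zero_right]; linarith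
  have h := dist_le_mul_div_pow_of_mapsTo_ball_of_isLittleO hφr hmaps hlo hzr
  rw [dist_eq_norm, dist_zero_right] at h
  refine h.trans ?_
  have h2 : (‖z‖ / r) ^ (n + 1) ≤ (t / r) ^ (n + 1) := by gcongr
  have h3 := hN n hn
  have : 2 * C * (‖z‖ / r) ^ (n + 1) ≤ 2 * C * (t / r) ^ (n + 1) := by gcongr
  linarith

theorem near_const_two (t δ : ℝ) (ht0 : 0 < t) (ht : t < 1) (hδ : 0 < δ) :
    ∃ N : ℕ, ∀ n : ℕ, N ≤ n → ∀ φ : ℂ → ℂ, DifferentiableOn ℂ φ (ball 0 1) →
      (∀ z ∈ ball (0 : ℂ) 1, φ z ≠ 0) → (∀ z ∈ ball (0 : ℂ) 1, φ z ≠ 1) →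
      (fun z => φ z - φ 0) =O[𝓝 0] (fun z : ℂ => z ^ (n + 1)) →
      ∀ z w : ℂ, ‖z‖ ≤ t → ‖w‖ ≤ t → ‖φ z‖ ≤ 10 → ‖φ w - φ z‖ ≤ δ := by
  obtain ⟨N, hN⟩ := near_const t 11 (min (δ / 2) (1 / 1000)) ht0 ht (by norm_num) (by positivity)
  refine ⟨N, ?_⟩
  intro n hn φ hφ h0 h1 hO z w hz hw hz10
  have h00 : (0 : ℂ) ∈ ball (0 : ℂ) 1 := by simp
  have hz1 : z ∈ ball (0 : ℂ) 1 := by rw [mem_ball, dist_zero_right]; linarith
  by_cases hc : ‖φ 0‖ ≤ 11
  · have e1 := hN n hn φ hφ h0 h1 hc hO z hz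
    have e2 := hN n hn φ hφ h0 h1 hc hO w hw
    have m1 := min_le_left (δ / 2) (1 / 1000 : ℝ)
    have : φ w - φ z = (φ w - φ 0) - (φ z - φ 0) := by ring
    rw [this]
    exact (norm_sub_le _ _).trans (by linarith)
  · push Not at hc
    exfalso
    set ψ : ℂ → ℂ := fun z => (φ z)⁻¹ with hψ
    have hψd : DifferentiableOn ℂ ψ (ball 0 1) := hφ.inv h0
    have hψ0 : ∀ z ∈ ball (0 : ℂ) 1, ψ z ≠ 0 := fun z hz => inv_ne_zero (h0 z hz)
    have hψ1 : ∀ z ∈ ball (0 : ℂ) 1, ψ z ≠ 1 := fun z hz h => h1 z hz (by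
      have : (φ z)⁻¹ = 1 := h
      rwa [inv_eq_one] at this)
    have hψO : (fun z => ψ z - ψ 0) =O[𝓝 0] (fun z : ℂ => z ^ (n + 1)) := by
      have hcont : ContinuousAt (fun z => -((φ z)⁻¹ * (φ 0)⁻¹)) 0 := by
        have : ContinuousAt φ 0 := (hφ.differentiableAt (isOpen_ball.mem_nhds h00)).continuousAt
        exact ((this.inv₀ (h0 0 h00)).mul continuousAt_const).neg
      have hb : (fun z => -((φ z)⁻¹ * (φ 0)⁻¹)) =O[𝓝 0] (fun _ => (1 : ℂ)) :=
        hcont.isBigO_one ℂ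
      have := hb.mul hO
      refine this.congr' ?_ ?_
      · filter_upwards [isOpen_ball.mem_nhds h00] with u hu
        have hu0 := h0 u hu
        have h00' := h0 0 h00
        simp only [hψ]
        field_simp
        ring
      · exact Eventually.of_forall fun u => by simp
    have hψM : ‖ψ 0‖ ≤ 11 := by
      rw [hψ]; simp only; rw [norm_inv]
      have : ‖φ 0‖⁻¹ ≤ (11 : ℝ)⁻¹ := inv_anti₀ (by norm_num) hc.le
      linarith [show (11 : ℝ)⁻¹ ≤ 11 by norm_num]
    have e := hN n hn ψ hψd hψ0 hψ1 hψM hψO z hz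
    have m2 := min_le_right (δ / 2) (1 / 1000 : ℝ)
    have e1 : ‖ψ z‖ ≤ ‖ψ z - ψ 0‖ + ‖ψ 0‖ := by
      have := norm_add_le (ψ z - ψ 0) (ψ 0); simpa using this
    have e2 : ‖ψ 0‖ ≤ (11 : ℝ)⁻¹ := by
      rw [hψ]; simp only; rw [norm_inv]; exact inv_anti₀ (by norm_num) hc.le
    have e3 : (10 : ℝ)⁻¹ ≤ ‖ψ z‖ := by
      rw [hψ]; simp only; rw [norm_inv]
      exact inv_anti₀ (norm_pos_iff.2 (h0 z hz1)) hz10
    norm_num at e2 e3
    linarith

end H57WAC
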