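import Pool.Agent.Helper57.WAC.Defs
import Pool.Agent.Helper57.WAC.Braid

open Complex Polynomial Topology Metric Filter

noncomputable section

namespace H57WAC

/-- the radius parameter -/
def rr : ℝ := (Real.exp 30 - 1) / (Real.exp 30 + 1)

theorem exp30_gt : 1 < Real.exp 30 := by
  rw [← Real.exp_zero]; exact Real.exp_lt_exp.2 (by norm_num)

theorem rr_pos : 0 < rr := by
  have := exp30_gt
  unfold rr; apply div_pos <;> linarith

theorem rr_lt : rr < 1 := by
  have := exp30_gt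
  unfold rr; rw [div_lt_one (by linarith)]; linarith

/-- the real function `(e^u-1)/(e^u+1)`, `u = 20(2s-1)` -/
def ww (s : ℝ) : ℝ := (Real.exp (20 * (2 * s - 1)) - 1) / (Real.exp (20 * (2 * s - 1)) + 1)

theorem ww_lt (s : ℝ) (h1 : s ≤ 1) : ww s < rr := by
  have e1 : Real.exp (20 * (2 * s - 1)) < Real.exp 30 := Real.exp_lt_exp.2 (by linarith)
  have e2 := Real.exp_pos (20 * (2 * s - 1))
  have e3 := exp30_gt
  unfold ww rr
  rw [div_lt_div_iff₀ (by linarith) (by linarith)]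
  nlinarith

theorem lt_ww (s : ℝ) (h0 : 0 ≤ s) : -rr < ww s := by
  have e1 : Real.exp (-30) < Real.exp (20 * (2 * s - 1)) := Real.exp_lt_exp.2 (by linarith)
  have e2 := Real.exp_pos (20 * (2 * s - 1))
  have e3 := exp30_gt
  have e4 : Real.exp (-30) * Real.exp 30 = 1 := by rw [← Real.exp_add]; norm_num
  have e5 : 1 < Real.exp (20 * (2 * s - 1)) * Real.exp 30 := by
    calc 1 = Real.exp (-30) * Real.exp 30 := e4.symm
      _ < _ := by gcongr
  unfold ww rr
  rw [← neg_div, div_lt_div_iff₀ (by linarith) (by linarith)]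
  nlinarith

theorem abs_ww_lt (s : ℝ) (h0 : 0 ≤ s) (h1 : s ≤ 1) : |ww s| < rr :=
  abs_lt.2 ⟨lt_ww s h0, ww_lt s h1⟩

theorem norm_ww_div (s : ℝ) (h0 : 0 ≤ s) (h1 : s ≤ 1) : ‖((ww s / rr : ℝ) : ℂ)‖ < 1 := by
  rw [Complex.norm_real, Real.norm_eq_abs, abs_div, abs_of_pos rr_pos, div_lt_one rr_pos]
  exact abs_ww_lt s h0 h1

theorem continuous_ww : Continuous ww := by
  unfold ww
  refine Continuous.div (by fun_prop) (by fun_prop) fun s => ?_
  have := Real.exp_pos (20 * (2 * s - 1))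
  linarith

/-- the path -/
def zeta : C(II, Dsc) where
  toFun s := ⟨((ww s / rr : ℝ) : ℂ), mem_closedBall_zero_iff.2 (norm_ww_div s s.2.1 s.2.2).le⟩
  continuous_toFun := by
    refine Continuous.subtype_mk ?_ _
    have := continuous_ww
    fun_prop

theorem zeta_apply (s : II) : (zeta s : ℂ) = ((ww s / rr : ℝ) : ℂ) := rfl

theorem ww_ne_zero (s : ℝ) (h : 2 * s - 1 ≠ 0) : ww s ≠ 0 := by
  have e2 := Real.exp_pos (20 * (2 * s - 1))
  unfold ww
  refine div_ne_zero ?_ (by linarith)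
  rw [sub_ne_zero]
  intro h2
  rw [Real.exp_eq_one_iff] at h2
  apply h; linarith

/-- the path data used in the proof -/
def D0 : PD where
  ζ := zeta
  lt0 := norm_ww_div _ le_rfl (by norm_num)
  lt1 := norm_ww_div _ (by norm_num) le_rfl
  ne0 := by
    rw [zeta_apply]
    have h1 : ww ((0 : II) : ℝ) ≠ 0 := ww_ne_zero _ (by simp)
    have h2 := rr_pos.ne'
    exact_mod_cast div_ne_zero h1 h2
  ne1 := by
    rw [zeta_apply]
    have h1 : ww ((1 : II) : ℝ) ≠ 0 := ww_ne_zero _ (by simp; norm_num)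
    have h2 := rr_pos.ne'
    exact_mod_cast div_ne_zero h1 h2

/-- the parameter as a function of the disc variable -/
def tau (z : ℂ) : ℂ := (1 / 20 * (Complex.log (1 + rr * z) - Complex.log (1 - rr * z)) + 1) / 2

theorem re_pos_add (z : ℂ) (hz : ‖z‖ ≤ 1) : 0 < (1 + rr * z).re := by
  have h1 : |z.re| ≤ 1 := (Complex.abs_re_le_norm z).trans hz
  have h2 := rr_pos
  have h3 := rr_lt
  have h4 := (abs_le.1 h1).1
  simp only [add_re, one_re, re_ofReal_mul]
  nlinarith

theorem re_pos_sub (z : ℂ) (hz : ‖z‖ ≤ 1) : 0 < (1 - rr * z).re := by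
  have := re_pos_add (-z) (by rwa [norm_neg])
  simpa [sub_eq_add_neg] using this

theorem norm_add_bounds (z : ℂ) (hz : ‖z‖ ≤ 1) : 1 - rr ≤ ‖1 + rr * z‖ ∧ ‖1 + rr * z‖ ≤ 1 + rr := by
  have h2 := rr_pos
  have h3 : ‖(rr : ℂ) * z‖ ≤ rr := by
    rw [norm_mul, Complex.norm_real, Real.norm_eq_abs, abs_of_pos h2]
    nlinarith [norm_nonneg z]
  constructor
  · have := norm_sub_norm_le (1 : ℂ) (-(rr * z))
    rw [norm_neg, norm_one, sub_neg_eq_add] at this
    linarith
  · have := norm_add_le (1 : ℂ) (rr * z)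
    rw [norm_one] at this
    linarith

theorem log_ratio : Real.log (1 + rr) - Real.log (1 - rr) = 30 := by
  have h1 := rr_pos
  have h2 := rr_lt
  have h3 := exp30_gt
  rw [← Real.log_div (by linarith) (by linarith)]
  have : (1 + rr) / (1 - rr) = Real.exp 30 := by
    have e1 : 1 + rr = 2 * Real.exp 30 / (Real.exp 30 + 1) := by
      unfold rr; field_simp; ring
    have e2 : 1 - rr = 2 / (Real.exp 30 + 1) := by
      unfold rr; field_simp; ring
    rw [e1, e2]; field_simp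
  rw [this, Real.log_exp]

theorem tau_re (z : ℂ) (hz : ‖z‖ ≤ 1) : |(tau z).re - 1 / 2| ≤ 3 / 4 := by
  have h1 := norm_add_bounds z hz
  have h2 : 1 - rr ≤ ‖1 - rr * z‖ ∧ ‖1 - rr * z‖ ≤ 1 + rr := by
    have := norm_add_bounds (-z) (by rwa [norm_neg])
    simpa [sub_eq_add_neg] using this
  have hp : 0 < 1 - rr := by have := rr_lt; linarith
  have l1 : Real.log (1 - rr) ≤ Real.log ‖1 + rr * z‖ := Real.log_le_log hp h1.1
  have l2 : Real.log ‖1 + rr * z‖ ≤ Real.log (1 + rr) := Real.log_le_log (by linarith) h1.2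
  have l3 : Real.log (1 - rr) ≤ Real.log ‖1 - rr * z‖ := Real.log_le_log hp h2.1
  have l4 : Real.log ‖1 - rr * z‖ ≤ Real.log (1 + rr) := Real.log_le_log (by linarith) h2.2
  have l5 := log_ratio
  have e : (tau z).re = (1 / 20 * (Real.log ‖1 + rr * z‖ - Real.log ‖1 - rr * z‖) + 1) / 2 := by
    unfold tau
    have e1 : ((1 : ℂ) / 20 * (Complex.log (1 + rr * z) - Complex.log (1 - rr * z)) + 1) / 2
      = ((1 / 40 : ℝ) : ℂ) * (Complex.log (1 + rr * z) - Complex.log (1 - rr * z))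
        + ((1 / 2 : ℝ) : ℂ) := by push_cast; ring
    rw [e1, add_re, re_ofReal_mul, sub_re, Complex.log_re, Complex.log_re, ofReal_re]
    ring
  rw [e, abs_le]
  constructor <;> linarith

theorem tau_im (z : ℂ) (hz : ‖z‖ ≤ 1) : |(tau z).im| ≤ 1 / 10 := by
  have a1 : |Complex.arg (1 + rr * z)| ≤ Real.pi / 2 :=
    Complex.abs_arg_le_pi_div_two_iff.2 (re_pos_add z hz).le
  have a2 : |Complex.arg (1 - rr * z)| ≤ Real.pi / 2 :=
    Complex.abs_arg_le_pi_div_two_iff.2 (re_pos_sub z hz).le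
  have e : (tau z).im = 1 / 40 * (Complex.arg (1 + rr * z) - Complex.arg (1 - rr * z)) := by
    unfold tau
    have e1 : ((1 : ℂ) / 20 * (Complex.log (1 + rr * z) - Complex.log (1 - rr * z)) + 1) / 2
      = ((1 / 40 : ℝ) : ℂ) * (Complex.log (1 + rr * z) - Complex.log (1 - rr * z))
        + ((1 / 2 : ℝ) : ℂ) := by push_cast; ring
    rw [e1, add_im, im_ofReal_mul, sub_im, Complex.log_im, Complex.log_im, ofReal_im, add_zero]
  have hpi := Real.pi_lt_four
  rw [abs_le] at a1 a2 ⊢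
  rw [e]
  constructor <;> linarith [a1.1, a1.2, a2.1, a2.2]

theorem tau_differentiableAt (z : ℂ) (hz : ‖z‖ ≤ 1) : DifferentiableAt ℂ tau z := by
  unfold tau
  have h1 : (1 + rr * z) ∈ slitPlane := Or.inl (re_pos_add z hz)
  have h2 : (1 - rr * z) ∈ slitPlane := Or.inl (re_pos_sub z hz)
  have h3 : DifferentiableAt ℂ (fun z => Complex.log (1 + rr * z)) z :=
    DifferentiableAt.clog (by fun_prop) h1
  have h4 : DifferentiableAt ℂ (fun z => Complex.log (1 - rr * z)) z :=
    DifferentiableAt.clog (by fun_prop) h2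
  exact ((((h3.sub h4).const_mul _).add_const _).div_const _)

theorem tau_zeta (s : II) : tau (zeta s) = ((s : ℝ) : ℂ) := by
  have hx := Real.exp_pos (20 * (2 * (s : ℝ) - 1))
  have hr := rr_pos.ne'
  have e0 : (rr : ℂ) * (zeta s : ℂ) = ((ww s : ℝ) : ℂ) := by
    rw [zeta_apply, ← Complex.ofReal_mul]
    congr 1; field_simp
  have hw := abs_lt.1 ((abs_ww_lt s s.2.1 s.2.2).trans rr_lt)
  have p1 : 0 < 1 + ww s := by linarith [hw.1]
  have p2 : 0 < 1 - ww s := by linarith [hw.2]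
  have e1 : Complex.log (1 + (ww s : ℝ)) = ((Real.log (1 + ww s) : ℝ) : ℂ) := by
    rw [Complex.ofReal_log p1.le]; push_cast; rfl
  have e2 : Complex.log (1 - (ww s : ℝ)) = ((Real.log (1 - ww s) : ℝ) : ℂ) := by
    rw [Complex.ofReal_log p2.le]; push_cast; rfl
  have e3 : Real.log (1 + ww s) - Real.log (1 - ww s) = 20 * (2 * (s : ℝ) - 1) := by
    rw [← Real.log_div p1.ne' p2.ne']
    have : (1 + ww s) / (1 - ww s) = Real.exp (20 * (2 * (s : ℝ) - 1)) := by
      have k1 : 1 + ww s = 2 * Real.exp (20 * (2 * (s : ℝ) - 1))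
          / (Real.exp (20 * (2 * (s : ℝ) - 1)) + 1) := by
        unfold ww; field_simp; ring
      have k2 : 1 - ww s = 2 / (Real.exp (20 * (2 * (s : ℝ) - 1)) + 1) := by
        unfold ww; field_simp; ring
      rw [k1, k2]; field_simp
    rw [this, Real.log_exp]
  unfold tau
  rw [e0, e1, e2, ← Complex.ofReal_sub, e3]
  push_cast
  ring

end H57WAC
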