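import Pool.Agent.Helper57.WAC.Fib
import Pool.Agent.Helper57.WAC.Rigidity
import Pool.Agent.Helper57.WAC.Schottky

open Complex Polynomial Topology Metric Filter Asymptotics

noncomputable section

namespace H57WAC

universe u

theorem ratio_close {t δ : ℝ} {n : ℕ}
    (hn : ∀ φ : ℂ → ℂ, DifferentiableOn ℂ φ (ball 0 1) →
      (∀ z ∈ ball (0 : ℂ) 1, φ z ≠ 0) → (∀ z ∈ ball (0 : ℂ) 1, φ z ≠ 1) →
      (fun z => φ z - φ 0) =O[𝓝 0] (fun z : ℂ => z ^ (n + 1)) →
      ∀ z w : ℂ, ‖z‖ ≤ t → ‖w‖ ≤ t → ‖φ z‖ ≤ 10 → ‖φ w - φ z‖ ≤ δ)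
    (f1 f2 f3 : ℂ → ℂ) (d1 : DifferentiableOn ℂ f1 (ball 0 1))
    (d2 : DifferentiableOn ℂ f2 (ball 0 1)) (d3 : DifferentiableOn ℂ f3 (ball 0 1))
    (o1 : (fun z => f1 z - f1 0) =O[𝓝 0] (fun z : ℂ => z ^ (n + 1)))
    (o2 : (fun z => f2 z - f2 0) =O[𝓝 0] (fun z : ℂ => z ^ (n + 1)))
    (o3 : (fun z => f3 z - f3 0) =O[𝓝 0] (fun z : ℂ => z ^ (n + 1)))
    (h12 : ∀ z ∈ ball (0 : ℂ) 1, f1 z ≠ f2 z) (h13 : ∀ z ∈ ball (0 : ℂ) 1, f1 z ≠ f3 z)
    (h23 : ∀ z ∈ ball (0 : ℂ) 1, f2 z ≠ f3 z) (z w : ℂ) (hz : ‖z‖ ≤ t) (hw : ‖w‖ ≤ t)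
    (h : ‖(f1 z - f2 z) / (f1 z - f3 z)‖ ≤ 10) :
    ‖(f1 w - f2 w) / (f1 w - f3 w) - (f1 z - f2 z) / (f1 z - f3 z)‖ ≤ δ := by
  refine hn (fun z => (f1 z - f2 z) / (f1 z - f3 z)) ?_ ?_ ?_ ?_ z w hz hw h
  · exact (d1.sub d2).div (d1.sub d3) fun z hz => sub_ne_zero.2 (h13 z hz)
  · intro z hz
    exact div_ne_zero (sub_ne_zero.2 (h12 z hz)) (sub_ne_zero.2 (h13 z hz))
  · intro z hz h
    rw [div_eq_one_iff_eq (sub_ne_zero.2 (h13 z hz))] at h
    exact h23 z hz (by linear_combination -h)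
  · have h00 : (0 : ℂ) ∈ ball (0 : ℂ) 1 := by simp
    have e : (fun z => (f1 z - f2 z) / (f1 z - f3 z) - (f1 0 - f2 0) / (f1 0 - f3 0))
        =ᶠ[𝓝 0] fun z => (((f1 z - f1 0) - (f2 z - f2 0)) * (f1 0 - f3 0)
          - (f1 0 - f2 0) * ((f1 z - f1 0) - (f3 z - f3 0)))
            * ((f1 z - f3 z) * (f1 0 - f3 0))⁻¹ := by
      filter_upwards [ball_mem_nhds_zero] with z hz
      have e1 := sub_ne_zero.2 (h13 z hz)
      have e2 := sub_ne_zero.2 (h13 0 h00)
      field_simp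
      ring
    refine IsBigO.congr' ?_ e.symm (EventuallyEq.refl _ _)
    have c1 : ContinuousAt (fun z => ((f1 z - f3 z) * (f1 0 - f3 0))⁻¹) 0 := by
      have k1 : ContinuousAt f1 0 := (d1.differentiableAt ball_mem_nhds_zero).continuousAt
      have k3 : ContinuousAt f3 0 := (d3.differentiableAt ball_mem_nhds_zero).continuousAt
      refine ((k1.sub k3).mul continuousAt_const).inv₀ ?_
      exact mul_ne_zero (sub_ne_zero.2 (h13 0 h00)) (sub_ne_zero.2 (h13 0 h00))
    have o4 : (fun z => ((f1 z - f1 0) - (f2 z - f2 0)) * (f1 0 - f3 0)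
          - (f1 0 - f2 0) * ((f1 z - f1 0) - (f3 z - f3 0))) =O[𝓝 0]
          (fun z : ℂ => z ^ (n + 1)) := by
      refine IsBigO.sub ?_ ?_
      · have := (o1.sub o2).mul (isBigO_refl (fun _ : ℂ => (f1 0 - f3 0)) (𝓝 0))
        refine this.trans ?_
        refine IsBigO.of_bound ‖f1 0 - f3 0‖ (Eventually.of_forall fun z => ?_)
        rw [norm_mul, mul_comm]
      · exact (o1.sub o3).const_mul_left _
    have := o4.mul (c1.tendsto.isBigO_one ℂ)
    simpa using this

theorem wac_of_large (D : PD) : ∃ N : ℕ, ∀ ν : Fin 5 → ℕ, (∀ g, N ≤ ν g) →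
    ∀ (R : Type u) [CommRing R] [Algebra ℂ R], Model D ν R → WAC R := by
  set t : ℝ := max ‖(D.ζ 0 : ℂ)‖ ‖(D.ζ 1 : ℂ)‖ with ht
  have ht0 : 0 < t := lt_max_of_lt_left (norm_pos_iff.2 D.ne0)
  have ht1 : t < 1 := max_lt D.lt0 D.lt1
  obtain ⟨N, hN⟩ := near_const_two t (1 / 10 ^ 9) ht0 ht1 (by norm_num)
  refine ⟨N, fun ν hν R _ _ M p hm h1 hu => ?_⟩
  have hnt : Nontrivial R := by
    by_contra hcon
    rw [not_nontrivial_iff_subsingleton] at hcon
    have : p.natDegree = 0 := by rw [Subsingleton.elim p 0, natDegree_zero]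
    omega
  have hs : p.Separable := (isUnit_discr_iff hm (by omega)).1 hu
  obtain ⟨n, hn⟩ : ∃ n, p.natDegree = n + 1 := ⟨p.natDegree - 1, by omega⟩
  have fm := fib_monic M hm
  have fn : ∀ q, (fib M p q).natDegree = n + 1 := fun q => by rw [fib_natDegree M hm, hn]
  have fs := fib_separable M hs
  set ι := {z : ℂ // (fib M p (bp D)).eval z = 0} with hι
  have hfin : Finite ι := by
    have h2 : {z : ℂ | (fib M p (bp D)).eval z = 0}.Finite := by
      refine ((fib M p (bp D)).rootSet_finite ℂ).subset fun z hz => ?_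
      rw [mem_rootSet]
      exact ⟨(fm _).ne_zero, by simpa using hz⟩
    exact h2.to_subtype
  have hne : Nonempty ι := by
    obtain ⟨z, hz⟩ := IsAlgClosed.exists_root (fib M p (bp D)) (by
      rw [degree_eq_natDegree (fm _).ne_zero, fn]
      exact_mod_cast Nat.succ_ne_zero n)
    exact ⟨⟨z, hz⟩⟩
  have hb0 : ∀ g, fib M p (Sum.inl (g, D.ζ 0)) = fib M p (bp D) :=
    fun g => fib_rel M p (Rel.z0 g)
  have hb1 : ∀ g, fib M p (Sum.inl (g, D.ζ 1)) = fib M p (bp D) :=
    fun g => fib_rel M p (Rel.z1 g)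
  have hex : ∀ (g : Fin 5) (i : ι), ∃ F : C(Dsc, ℂ), F (D.ζ 0) = i ∧
      ∀ z, (fib M p (Sum.inl (g, z))).eval (F z) = 0 := fun g i =>
    root_exists (fun z => fib M p (Sum.inl (g, z))) (fun _ => fm _) (fun _ => fn _)
      (fun k => continuous_fib M p (by fun_prop) k) (fun _ => fs _) (D.ζ 0) i
      (by rw [hb0]; exact i.2)
  choose F hF0 hFr using hex
  have hFu : ∀ g i j (y : Dsc), F g i y = F g j y → i = j := by
    intro g i j y h
    have := root_unique (fun z => fib M p (Sum.inl (g, z))) (fun _ => fm _) (fun _ => fn _)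
      (fun k => continuous_fib M p (by fun_prop) k) (fun _ => fs _) (F g i).continuous
      (F g j).continuous y h (hFr g i) (hFr g j) (D.ζ 0)
    rw [hF0, hF0] at this
    exact Subtype.ext this
  set s : Fin 5 → ι → ι := fun g i => ⟨F g i (D.ζ 1), by
    have := hFr g i (D.ζ 1); rwa [hb1] at this⟩ with hsdef
  have hsi : ∀ g, Function.Injective (s g) := fun g i j h =>
    hFu g i j (D.ζ 1) (congrArg Subtype.val h)
  set σ : Fin 5 → Equiv.Perm ι := fun g =>
    Equiv.ofBijective (s g) (Finite.injective_iff_bijective.1 (hsi g)) with hσdef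
  have hσ : ∀ g i, ((σ g i : ι) : ℂ) = F g i (D.ζ 1) := fun _ _ => rfl
  set σl : Option (Fin 5) → Equiv.Perm ι := fun l => l.elim 1 σ with hσl
  have hγ : ∀ (l : Option (Fin 5)) (i : ι), ∃ γ : Path (i : ℂ) ((σl l i : ι) : ℂ),
      ∀ s, (fib M p (Sum.inl (letterPt D l s))).eval (γ s) = 0 := by
    intro l i
    cases l with
    | none => exact ⟨Path.refl (i : ℂ), fun s => i.2⟩
    | some g => exact ⟨⟨(F g i).comp D.ζ, hF0 g i, rfl⟩, fun s => hFr g i _⟩
  choose γ hγr using hγ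
  set Γ : ∀ (w : Fin 3 → Option (Fin 5)) (i : ι), Path (i : ℂ)
      ((σl (w 2) (σl (w 1) (σl (w 0) i)) : ι) : ℂ) := fun w i =>
    ((γ (w 0) i).trans (γ (w 1) (σl (w 0) i))).trans (γ (w 2) (σl (w 1) (σl (w 0) i))) with hΓ
  have hΓr : ∀ w i t, (fib M p (Sum.inl (wordPt D w t))).eval (Γ w i t) = 0 := by
    intro w i t
    simp only [hΓ]
    rw [tr3_path, wordPt]
    refine tr3_rel (fun (q : Fin 5 × Dsc) (z : ℂ) => (fib M p (Sum.inl q)).eval z = 0) _ _ ?_ t
    intro k s
    fin_cases k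
    · exact hγr _ _ _
    · exact hγr _ _ _
    · exact hγr _ _ _
  have hbl : ∀ j s, fib M p (Sum.inr (j, (s, 0))) = fib M p (bp D) :=
    fun j s => fib_rel M p (Rel.left j s)
  have hbr : ∀ j s, fib M p (Sum.inr (j, (s, 1))) = fib M p (bp D) :=
    fun j s => fib_rel M p (Rel.right j s)
  have hbt : ∀ j t, fib M p (Sum.inr (j, (0, t))) = fib M p (Sum.inl (wordPt D (topw j) t)) :=
    fun j t => fib_rel M p (Rel.top j t)
  have hbb : ∀ j t, fib M p (Sum.inr (j, (1, t))) = fib M p (Sum.inl (wordPt D (botw j) t)) :=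
    fun j t => fib_rel M p (Rel.bot j t)
  have hcell : ∀ (j : Fin 5) (i : ι), ∃ H : C(II × II, ℂ), H (0, 0) = i ∧
      ∀ st, (fib M p (Sum.inr (j, st))).eval (H st) = 0 := fun j i =>
    root_exists (fun st => fib M p (Sum.inr (j, st))) (fun _ => fm _) (fun _ => fn _)
      (fun k => continuous_fib M p (by fun_prop) k) (fun _ => fs _) (0, 0) i
      (by rw [hbl]; exact i.2)
  choose H hH0 hHr using hcell
  have hHl : ∀ j i s, H j i (s, 0) = i := fun j i s =>
    root_unique (fun s : II => fib M p (Sum.inr (j, (s, 0)))) (fun _ => fm _) (fun _ => fn _)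
      (fun k => continuous_fib M p (by fun_prop) k) (fun _ => fs _)
      (F := fun s => H j i (s, 0)) (F' := fun _ => (i : ℂ)) (by fun_prop) continuous_const 0
      (hH0 j i) (fun s => hHr j i _) (fun s => by rw [hbl]; exact i.2) s
  have hHt : ∀ j i t, H j i (0, t) = Γ (topw j) i t := fun j i t =>
    root_unique (fun t : II => fib M p (Sum.inr (j, (0, t)))) (fun _ => fm _) (fun _ => fn _)
      (fun k => continuous_fib M p (by fun_prop) k) (fun _ => fs _)
      (F := fun t => H j i (0, t)) (F' := Γ (topw j) i) (by fun_prop)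
      (Γ (topw j) i).continuous 0 (by rw [Path.source, hH0]) (fun s => hHr j i _)
      (fun s => by rw [hbt]; exact hΓr _ _ _) t
  have hHb : ∀ j i t, H j i (1, t) = Γ (botw j) i t := fun j i t =>
    root_unique (fun t : II => fib M p (Sum.inr (j, (1, t)))) (fun _ => fm _) (fun _ => fn _)
      (fun k => continuous_fib M p (by fun_prop) k) (fun _ => fs _)
      (F := fun t => H j i (1, t)) (F' := Γ (botw j) i) (by fun_prop)
      (Γ (botw j) i).continuous 0 (by rw [Path.source, hHl]) (fun s => hHr j i _)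
      (fun s => by rw [hbb]; exact hΓr _ _ _) t
  have hHR : ∀ j i s, H j i (s, 1) = H j i (0, 1) := fun j i s =>
    root_unique (fun s : II => fib M p (Sum.inr (j, (s, 1)))) (fun _ => fm _) (fun _ => fn _)
      (fun k => continuous_fib M p (by fun_prop) k) (fun _ => fs _)
      (F := fun s => H j i (s, 1)) (F' := fun _ => H j i (0, 1)) (by fun_prop) continuous_const 0
      rfl (fun s => hHr j i _) (fun s => by
        have := hHr j i (0, 1)
        rw [hbr] at this ⊢; exact this) s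
  have hrel : ∀ j i, σl (topw j 2) (σl (topw j 1) (σl (topw j 0) i))
      = σl (botw j 2) (σl (botw j 1) (σl (botw j 0) i)) := by
    intro j i
    apply Subtype.ext
    rw [← (Γ (topw j) i).target, ← (Γ (botw j) i).target, ← hHt, ← hHb]
    exact (hHR j i 1).symm
  -- holomorphy
  have hhol := fun g i => root_hol M p hm hs g (F g i) (hFr g i)
  have hdist : ∀ g (i j : ι), i ≠ j → ∀ z ∈ ball (0 : ℂ) 1, dext (F g i) z ≠ dext (F g j) z := by
    intro g i j hij z hz h
    have hz' := ball_subset_closedBall hz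
    rw [dext_mem _ z hz', dext_mem _ z hz'] at h
    exact hij (hFu g i j _ h)
  have e0 : ∀ g (i : ι), dext (F g i) (D.ζ 0 : ℂ) = i := fun g i => by rw [dext_coe, hF0]
  have e1 : ∀ g (i : ι), dext (F g i) (D.ζ 1 : ℂ) = (σ g i : ι) := fun g i => by
    rw [dext_coe, hσ]
  have hac : ∀ g, AlmostConformal (fun i : ι => (i : ℂ)) (1 / 10 ^ 9) (σ g) := by
    intro g i j l hij hil hjl hle
    have hle' : ‖((i : ℂ) - j) / ((i : ℂ) - l)‖ ≤ 10 := by
      rw [norm_div, div_le_iff₀ (norm_pos_iff.2 (sub_ne_zero.2 fun h => hil (Subtype.ext h)))]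
      exact hle
    have h2 := ratio_close (hN (ν g) (hν g)) _ _ _ (hhol g i).1 (hhol g j).1 (hhol g l).1
      (hhol g i).2 (hhol g j).2 (hhol g l).2 (hdist g i j hij) (hdist g i l hil)
      (hdist g j l hjl) (D.ζ 0) (D.ζ 1) (le_max_left _ _) (le_max_right _ _)
      (by rw [e0, e0, e0]; exact hle')
    rw [e0, e0, e0, e1, e1, e1] at h2
    exact h2
  have hac' : ∀ g, AlmostConformal (fun i : ι => (i : ℂ)) (1 / 10 ^ 9) (σ g).symm := by
    intro g i j l hij hil hjl hle
    have hle' : ‖((i : ℂ) - j) / ((i : ℂ) - l)‖ ≤ 10 := by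
      rw [norm_div, div_le_iff₀ (norm_pos_iff.2 (sub_ne_zero.2 fun h => hil (Subtype.ext h)))]
      exact hle
    have e1' : ∀ (i : ι), dext (F g ((σ g).symm i)) (D.ζ 1 : ℂ) = i := fun i => by
      rw [e1, Equiv.apply_symm_apply]
    have h2 := ratio_close (hN (ν g) (hν g)) _ _ _ (hhol g ((σ g).symm i)).1
      (hhol g ((σ g).symm j)).1 (hhol g ((σ g).symm l)).1
      (hhol g ((σ g).symm i)).2 (hhol g ((σ g).symm j)).2 (hhol g ((σ g).symm l)).2
      (hdist g _ _ ((σ g).symm.injective.ne hij)) (hdist g _ _ ((σ g).symm.injective.ne hil))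
      (hdist g _ _ ((σ g).symm.injective.ne hjl)) (D.ζ 1) (D.ζ 0) (le_max_right _ _)
      (le_max_left _ _) (by rw [e1', e1', e1']; exact hle')
    rw [e0, e0, e0, e1', e1', e1'] at h2
    exact h2
  have hrig : ∀ g i, σ g i = i := rigid (fun i : ι => (i : ℂ)) Subtype.val_injective σ (1 / 10 ^ 9)
    (by norm_num) le_rfl hac hac' (hrel 0) (hrel 1) (hrel 2) (hrel 3) (hrel 4)
  -- a global root
  obtain ⟨i⟩ := hne
  have hc : Compat D (fun g => F g i) := by
    refine ⟨fun g => ?_, fun g => ?_⟩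
    · rw [hF0, hF0]
    · rw [← hσ, hrig, hF0]
  have hwr : ∀ w t, (fib M p (Sum.inl (wordPt D w t))).eval
      (hval (fun g => F g i) (wordPt D w t)) = 0 := by
    intro w t
    exact hFr _ i _
  have kt : ∀ j t, H j i (0, t) = hval (fun g => F g i) (wordPt D (topw j) t) := fun j t =>
    root_unique (fun t : II => fib M p (Sum.inr (j, (0, t)))) (fun _ => fm _) (fun _ => fn _)
      (fun k => continuous_fib M p (by fun_prop) k) (fun _ => fs _)
      (F := fun t => H j i (0, t)) (F' := fun t => hval (fun g => F g i) (wordPt D (topw j) t))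
      (by fun_prop) (continuous_word hc _) 0 (by rw [word_zero hc, hH0, hF0])
      (fun s => hHr j i _) (fun s => by rw [hbt]; exact hwr _ _) t
  have kb : ∀ j t, H j i (1, t) = hval (fun g => F g i) (wordPt D (botw j) t) := fun j t =>
    root_unique (fun t : II => fib M p (Sum.inr (j, (1, t)))) (fun _ => fm _) (fun _ => fn _)
      (fun k => continuous_fib M p (by fun_prop) k) (fun _ => fs _)
      (F := fun t => H j i (1, t)) (F' := fun t => hval (fun g => F g i) (wordPt D (botw j) t))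
      (by fun_prop) (continuous_word hc _) 0 (by rw [word_zero hc, hHl, hF0])
      (fun s => hHr j i _) (fun s => by rw [hbb]; exact hwr _ _) t
  refine exists_factor_of_fn M p hm h1 (mkK (fun g => F g i) (fun j => H j i)) ?_ ?_
  · refine ⟨?_, fun g => (hhol g i).1, fun g => (hhol g i).2⟩
    intro q q' hq
    cases hq with
    | z0 g => exact hc.z0 g
    | z1 g => exact hc.z1 g
    | top j t => exact kt j t
    | bot j t => exact kb j t
    | left j s =>
      simp only [mkK_inr, mkK_inl]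
      rw [hHl, hF0]
    | right j s =>
      simp only [mkK_inr, mkK_inl]
      rw [hHR, kt, word_one hc]
  · rintro (⟨g, z⟩ | ⟨j, st⟩)
    · exact hFr g i z
    · exact hHr j i st

end H57WAC
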